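import Pool.Agent.TH280.MZ.Muck

set_option autoImplicit false
open MeasureTheory Set Filter Topology
open scoped ENNReal NNReal

namespace Pool.Agent.TH280.MZ

variable {p : ℝ} {w : ℝ → ℝ≥0∞} {A : ℝ≥0∞}

/-- a large part of an interval carries a large part of the weight -/
lemma frac (hp : 1 < p) (h : ApW p w A) {a b : ℝ} (hab : a < b) {F : Set ℝ} (hF : MeasurableSet F)
    (hFJ : F ⊆ Ioo a b) (hvol : ENNReal.ofReal (b - a) ≤ 2 * volume F) :
    ∫⁻ x in Ioo a b, w x ≤ 2 ^ p * A * ∫⁻ x in F, w x := by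
  have hp0 : 0 < p := by linarith
  have hp1 : 0 < p - 1 := by linarith
  have hpq : p.HolderConjugate (p / (p - 1)) := Real.HolderConjugate.conjExponent hp
  set S := ∫⁻ x in Ioo a b, sg p w x with hS
  set L := ENNReal.ofReal (b - a) with hL
  have hF0 : volume F ≠ 0 := by
    intro h0
    rw [h0, mul_zero, hL] at hvol
    have := ENNReal.ofReal_eq_zero.1 (le_antisymm hvol bot_le)
    linarith
  have hFt : volume F ≠ ⊤ := by
    refine ne_top_of_le_ne_top ?_ (measure_mono hFJ)
    rw [Real.volume_Ioo]; exact ENNReal.ofReal_ne_top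
  have h1 : volume F ^ p ≤ (∫⁻ x in F, w x) * S ^ (p - 1) := by
    have hh := ENNReal.lintegral_mul_le_Lp_mul_Lq (volume.restrict F) hpq
      (f := fun x => w x ^ (1 / p)) (g := fun x => w x ^ (-(1 / p)))
      (h.meas.pow_const _).aemeasurable (h.meas.pow_const _).aemeasurable
    have e1 : ∫⁻ x in F, ((fun x => w x ^ (1 / p)) * fun x => w x ^ (-(1 / p))) x = volume F := by
      rw [← setLIntegral_one]
      apply lintegral_congr_ae
      filter_upwards [ae_restrict_of_ae (ae_ne_zero hp h)] with x hx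
      simp only [Pi.mul_apply]
      rw [← ENNReal.rpow_add _ _ hx (h.fin x)]
      simp
    have e2 : ∫⁻ x in F, (w x ^ (1 / p)) ^ p = ∫⁻ x in F, w x := by
      apply lintegral_congr
      intro x
      rw [← ENNReal.rpow_mul, one_div_mul_cancel hp0.ne', ENNReal.rpow_one]
    have e3 : ∫⁻ x in F, (w x ^ (-(1 / p))) ^ (p / (p - 1)) = ∫⁻ x in F, sg p w x := by
      apply lintegral_congr
      intro x
      rw [← ENNReal.rpow_mul]
      unfold sg
      congr 1
      field_simp
    rw [e1, e2, e3] at hh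
    calc volume F ^ p ≤ ((∫⁻ x in F, w x) ^ (1 / p) *
          (∫⁻ x in F, sg p w x) ^ (1 / (p / (p - 1)))) ^ p := ENNReal.rpow_le_rpow hh hp0.le
      _ = (∫⁻ x in F, w x) * (∫⁻ x in F, sg p w x) ^ (p - 1) := by
          rw [ENNReal.mul_rpow_of_nonneg _ _ hp0.le, ← ENNReal.rpow_mul, ← ENNReal.rpow_mul,
            one_div_mul_cancel hp0.ne', ENNReal.rpow_one]
          congr 2
          field_simp
      _ ≤ _ := by
          gcongr
          exact lintegral_mono_set hFJ
  have h2 : volume F ^ p * ∫⁻ x in Ioo a b, w x ≤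
      volume F ^ p * (2 ^ p * A * ∫⁻ x in F, w x) := by
    calc volume F ^ p * ∫⁻ x in Ioo a b, w x
        ≤ ((∫⁻ x in F, w x) * S ^ (p - 1)) * ∫⁻ x in Ioo a b, w x := by gcongr
      _ = (∫⁻ x in F, w x) * ((∫⁻ x in Ioo a b, w x) * S ^ (p - 1)) := by ring
      _ ≤ (∫⁻ x in F, w x) * (A * L ^ p) := mul_le_mul' le_rfl (h.bd a b hab)
      _ ≤ (∫⁻ x in F, w x) * (A * (2 * volume F) ^ p) := by gcongr
      _ = _ := by
          rw [ENNReal.mul_rpow_of_nonneg _ _ hp0.le]
          ring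
  have h3 : volume F ^ p ≠ 0 := by
    intro h0
    rw [ENNReal.rpow_eq_zero_iff] at h0
    rcases h0 with h0 | h0
    · exact hF0 h0.1
    · exact hFt h0.1
  have h4 : volume F ^ p ≠ ⊤ := ENNReal.rpow_ne_top_of_nonneg hp0.le hFt
  exact (ENNReal.mul_le_mul_iff_right h3 h4).1 h2

/-- the intervals in which the density of `E` is between `1/4` and `1/2` -/
def TT (E : Set ℝ) : Set (ℝ × ℝ) := {J | J.1 < J.2 ∧
  ENNReal.ofReal (J.2 - J.1) ≤ 4 * volume (E ∩ Ioo J.1 J.2) ∧
  2 * volume (E ∩ Ioo J.1 J.2) ≤ ENNReal.ofReal (J.2 - J.1)}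

/-- the union of these intervals -/
def NX (E : Set ℝ) : Set ℝ := ⋃ J ∈ TT E, Ioo J.1 J.2

lemma isOpen_NX (E : Set ℝ) : IsOpen (NX E) :=
  isOpen_biUnion fun _ _ => isOpen_Ioo

lemma vol_NX {E : Set ℝ} (hE : MeasurableSet E) : volume (NX E) ≤ 8 * volume E := by
  have hc := cov (μ := volume) (ν := volume.restrict E) (K := 4) (TT E) (by
    rintro ⟨a, b⟩ ⟨hab, h1, h2⟩
    rw [Real.volume_Ioo, Measure.restrict_apply measurableSet_Ioo, inter_comm]
    exact h1)
  calc volume (NX E) ≤ 2 * 4 * (volume.restrict E) (NX E) := hc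
    _ ≤ 2 * 4 * (volume.restrict E) univ := by gcongr; exact subset_univ _
    _ = 8 * volume E := by rw [Measure.restrict_apply_univ]; norm_num

lemma ae_mem_NX {E : Set ℝ} (hE : MeasurableSet E) (hEt : volume E ≠ ⊤) :
    ∀ᵐ x, x ∈ E → x ∈ NX E := by
  filter_upwards [Besicovitch.ae_tendsto_measure_inter_div_of_measurableSet volume hE] with x hx hxE
  rw [indicator_of_mem hxE, Pi.one_apply] at hx
  have h1 : ∀ᶠ r in 𝓝[>] (0 : ℝ), 2⁻¹ < volume (E ∩ Metric.closedBall x r) /
      volume (Metric.closedBall x r) :=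
    hx.eventually (lt_mem_nhds (by norm_num))
  obtain ⟨r, hr, hr0⟩ := (h1.and self_mem_nhdsWithin).exists
  have hr0 : 0 < r := hr0
  -- pass to open intervals
  have hIoo : ∀ s : ℝ, volume (E ∩ Metric.closedBall x s) = volume (E ∩ Ioo (x - s) (x + s)) := by
    intro s
    rw [Real.closedBall_eq_Icc]
    apply measure_congr
    exact (ae_eq_refl E).inter Ioo_ae_eq_Icc.symm
  set v : ℕ → ℝ≥0∞ := fun n => volume (E ∩ Ioo (x - 2 ^ n * r) (x + 2 ^ n * r)) with hv
  have hv0 : ENNReal.ofReal (2 * r) < 2 * v 0 := by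
    rw [hIoo, Real.volume_closedBall, ENNReal.lt_div_iff_mul_lt
      (Or.inl (by simp only [ne_eq, ENNReal.ofReal_eq_zero, not_le]; linarith))
      (Or.inl ENNReal.ofReal_ne_top)] at hr
    have e : v 0 = volume (E ∩ Ioo (x - r) (x + r)) := by simp [hv]
    rw [e]
    calc ENNReal.ofReal (2 * r) = 2 * (2⁻¹ * ENNReal.ofReal (2 * r)) := by
          rw [← mul_assoc, ENNReal.mul_inv_cancel (by norm_num) (by norm_num), one_mul]
      _ < _ := (ENNReal.mul_lt_mul_iff_right (by norm_num) (by norm_num)).2 hr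
  have hex : ∃ n : ℕ, 2 * v n ≤ ENNReal.ofReal (2 * (2 ^ n * r)) := by
    obtain ⟨n, hn⟩ := exists_nat_gt ((volume E).toReal / r)
    refine ⟨n, ?_⟩
    have h2 : v n ≤ volume E := measure_mono inter_subset_left
    calc 2 * v n ≤ 2 * volume E := by gcongr
      _ = ENNReal.ofReal (2 * (volume E).toReal) := by
          rw [ENNReal.ofReal_mul (by norm_num), ENNReal.ofReal_toReal hEt]; norm_num
      _ ≤ _ := by
          apply ENNReal.ofReal_le_ofReal
          have h3 : (volume E).toReal ≤ n * r := by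
            rw [div_lt_iff₀ hr0] at hn; exact hn.le
          have h4 : (n : ℝ) ≤ 2 ^ n := by
            exact_mod_cast Nat.lt_two_pow_self.le
          nlinarith
  classical
  set n := Nat.find hex with hn
  have hn1 := Nat.find_spec hex
  rw [← hn] at hn1
  have hnpos : n ≠ 0 := by
    intro h0
    rw [h0] at hn1
    simp only [pow_zero, one_mul] at hn1
    exact absurd hv0 (not_lt.2 hn1)
  obtain ⟨m, hm⟩ := Nat.exists_eq_succ_of_ne_zero hnpos
  have hm1 := Nat.find_min hex (show m < Nat.find hex by rw [← hn, hm]; exact Nat.lt_succ_self m)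
  rw [not_le] at hm1
  have hpos : 0 < 2 ^ n * r := by positivity
  refine mem_iUnion₂.2 ⟨(x - 2 ^ n * r, x + 2 ^ n * r), ⟨?_, ?_, ?_⟩, ?_⟩
  · show x - 2 ^ n * r < x + 2 ^ n * r
    linarith
  · show ENNReal.ofReal (x + 2 ^ n * r - (x - 2 ^ n * r)) ≤ 4 * v n
    have e : x + 2 ^ n * r - (x - 2 ^ n * r) = 2 * (2 * (2 ^ m * r)) := by
      rw [hm, pow_succ]; ring
    rw [e, ENNReal.ofReal_mul (by norm_num)]
    have hmono : v m ≤ v n := by
      apply measure_mono
      apply inter_subset_inter_right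
      have : 2 ^ m * r ≤ 2 ^ n * r := by
        apply mul_le_mul_of_nonneg_right _ hr0.le
        apply pow_le_pow_right₀ (by norm_num)
        omega
      apply Ioo_subset_Ioo <;> linarith
    calc ENNReal.ofReal 2 * ENNReal.ofReal (2 * (2 ^ m * r)) ≤ ENNReal.ofReal 2 * (2 * v m) := by
          gcongr
      _ = 4 * v m := by
          rw [← mul_assoc]
          norm_num
      _ ≤ _ := by gcongr
  · show 2 * v n ≤ ENNReal.ofReal (x + 2 ^ n * r - (x - 2 ^ n * r))
    have e : x + 2 ^ n * r - (x - 2 ^ n * r) = 2 * (2 ^ n * r) := by ring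
    rw [e]
    exact hn1
  · exact ⟨by simp only; linarith, by simp only; linarith⟩

lemma NX_subset {E : Set ℝ} (hEt : volume E ≠ ⊤) {a b : ℝ} (hE : E ⊆ Ioo a b) :
    NX E ⊆ Ioo (a - 4 * (volume E).toReal) (b + 4 * (volume E).toReal) := by
  intro x hx
  obtain ⟨J, ⟨h1, h2, h3⟩, hxJ⟩ := mem_iUnion₂.1 hx
  have h4 : J.2 - J.1 ≤ 4 * (volume E).toReal := by
    have : ENNReal.ofReal (J.2 - J.1) ≤ ENNReal.ofReal (4 * (volume E).toReal) := by
      rw [ENNReal.ofReal_mul (by norm_num), ENNReal.ofReal_toReal hEt]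
      refine h2.trans ?_
      have : volume (E ∩ Ioo J.1 J.2) ≤ volume E := measure_mono inter_subset_left
      calc 4 * volume (E ∩ Ioo J.1 J.2) ≤ 4 * volume E := by gcongr
        _ = _ := by norm_num
    exact (ENNReal.ofReal_le_ofReal_iff (by positivity)).1 this
  have hne : (E ∩ Ioo J.1 J.2).Nonempty := by
    by_contra hemp
    rw [not_nonempty_iff_eq_empty] at hemp
    rw [hemp, measure_empty, mul_zero] at h2
    have := ENNReal.ofReal_eq_zero.1 (le_antisymm h2 bot_le)
    linarith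
  obtain ⟨y, hyE, hyJ⟩ := hne
  have hy := hE hyE
  constructor
  · have := hy.1; have := hyJ.2; have := hxJ.1; linarith
  · have := hy.2; have := hyJ.1; have := hxJ.2; linarith

/-- one step -/
lemma step (hp : 1 < p) (h : ApW p w A) {E : Set ℝ} (hE : MeasurableSet E) {a b : ℝ} (hab : a < b)
    (hEI : E ⊆ Ioo a b) :
    (2 * (2 ^ p * A) + 1) * ∫⁻ x in E, w x ≤ (2 * (2 ^ p * A)) * ∫⁻ x in NX E, w x := by
  have hEt : volume E ≠ ⊤ := by
    refine ne_top_of_le_ne_top ?_ (measure_mono hEI)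
    rw [Real.volume_Ioo]; exact ENNReal.ofReal_ne_top
  set μ : Measure ℝ := volume.withDensity w with hμ
  have hμE : ∀ S : Set ℝ, MeasurableSet S → μ S = ∫⁻ x in S, w x := fun S hS =>
    withDensity_apply _ hS
  have hNm : MeasurableSet (NX E) := (isOpen_NX E).measurableSet
  set K : ℝ≥0∞ := 2 ^ p * A with hK
  have hc := cov (μ := μ) (ν := μ.restrict Eᶜ) (K := K) (TT E) (by
    rintro ⟨c, d⟩ ⟨hcd, h1, h2⟩
    simp only at hcd h1 h2
    show μ (Ioo c d) ≤ K * (μ.restrict Eᶜ) (Ioo c d)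
    rw [Measure.restrict_apply measurableSet_Ioo, hμE _ measurableSet_Ioo,
      hμE _ (measurableSet_Ioo.inter hE.compl)]
    refine frac hp h hcd (measurableSet_Ioo.inter hE.compl) inter_subset_left ?_
    -- volume of the complement
    have e1 : volume (Ioo c d) = volume (Ioo c d ∩ E) + volume (Ioo c d \ E) :=
      (measure_inter_add_sdiff _ hE).symm
    rw [Real.volume_Ioo] at e1
    rw [← sdiff_eq]
    have e2 : volume (Ioo c d ∩ E) = volume (E ∩ Ioo c d) := by rw [inter_comm]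
    rw [e2] at e1
    have hfin : volume (E ∩ Ioo c d) ≠ ⊤ := ne_top_of_le_ne_top hEt (measure_mono inter_subset_left)
    have h3 : volume (E ∩ Ioo c d) + volume (E ∩ Ioo c d) ≤
        volume (E ∩ Ioo c d) + volume (Ioo c d \ E) := by
      rw [← e1, ← two_mul]; exact h2
    have h4 := (ENNReal.add_le_add_iff_left hfin).1 h3
    calc ENNReal.ofReal (d - c) = volume (E ∩ Ioo c d) + volume (Ioo c d \ E) := e1
      _ ≤ volume (Ioo c d \ E) + volume (Ioo c d \ E) := by gcongr
      _ = 2 * volume (Ioo c d \ E) := by rw [two_mul])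
  have hc' : μ (NX E) ≤ 2 * K * μ (NX E \ E) := by
    have : (μ.restrict Eᶜ) (NX E) = μ (NX E \ E) := by
      rw [Measure.restrict_apply hNm, sdiff_eq]
    rw [← this]
    exact hc
  have hsplit : μ E + μ (NX E \ E) ≤ μ (NX E) := by
    have h1 : μ E ≤ μ (NX E ∩ E) := by
      apply measure_mono_ae
      have hac : μ ≪ volume := withDensity_absolutelyContinuous _ _
      filter_upwards [hac.ae_le (ae_mem_NX hE hEt)] with x hx hxE
      exact ⟨hx hxE, hxE⟩
    calc μ E + μ (NX E \ E) ≤ μ (NX E ∩ E) + μ (NX E \ E) := by gcongr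
      _ = μ (NX E) := measure_inter_add_sdiff _ hE
  have hNt : μ (NX E) ≠ ⊤ := by
    have h1 := NX_subset hEt hEI
    refine ne_top_of_le_ne_top ?_ (measure_mono h1)
    rw [hμE _ measurableSet_Ioo]
    apply int_w_ne_top hp h
    have : 0 ≤ (volume E).toReal := ENNReal.toReal_nonneg
    linarith
  rw [← hμE _ hE, ← hμE _ hNm]
  have h5 : (2 * K + 1) * μ E + μ (NX E) ≤ 2 * K * μ (NX E) + μ (NX E) := by
    calc (2 * K + 1) * μ E + μ (NX E) ≤ (2 * K + 1) * μ E + 2 * K * μ (NX E \ E) := by gcongr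
      _ ≤ (2 * K + 1) * μ E + (2 * K + 1) * μ (NX E \ E) := by
          gcongr
          exact le_self_add
      _ = (2 * K + 1) * (μ E + μ (NX E \ E)) := by ring
      _ ≤ (2 * K + 1) * μ (NX E) := by gcongr
      _ = _ := by ring
  exact (ENNReal.add_le_add_iff_right hNt).1 h5

end Pool.Agent.TH280.MZ
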