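import Pool.Agent.TH280.MZ.Ainf

set_option autoImplicit false
open MeasureTheory Set Filter Topology
open scoped ENNReal NNReal

namespace Pool.Agent.TH280.MZ

variable {p : ℝ} {w : ℝ → ℝ≥0∞} {A : ℝ≥0∞}

/-- iterates of `NX` -/
def NXk (E : Set ℝ) : ℕ → Set ℝ
  | 0 => E
  | (k+1) => NX (NXk E k)

lemma NXk_meas {E : Set ℝ} (hE : MeasurableSet E) (k : ℕ) : MeasurableSet (NXk E k) := by
  cases k with
  | zero => exact hE
  | succ k => exact (isOpen_NX _).measurableSet

lemma NXk_vol {E : Set ℝ} (hE : MeasurableSet E) (k : ℕ) :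
    volume (NXk E k) ≤ 8 ^ k * volume E := by
  induction k with
  | zero => simp [NXk]
  | succ k ih =>
    calc volume (NXk E (k+1)) ≤ 8 * volume (NXk E k) := vol_NX (NXk_meas hE k)
      _ ≤ 8 * (8 ^ k * volume E) := by gcongr
      _ = _ := by rw [pow_succ]; ring

lemma NXk_subset {E : Set ℝ} (hE : MeasurableSet E) (hEt : volume E ≠ ⊤) {a b : ℝ}
    (hEI : E ⊆ Ioo a b) (k : ℕ) :
    NXk E k ⊆ Ioo (a - (8 ^ k - 1) * (volume E).toReal) (b + (8 ^ k - 1) * (volume E).toReal) := by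
  induction k with
  | zero => simpa [NXk] using hEI
  | succ k ih =>
    have h1 := NXk_vol hE k
    have hfin : (8 : ℝ≥0∞) ^ k * volume E ≠ ⊤ :=
      ENNReal.mul_ne_top (ENNReal.pow_ne_top (by norm_num)) hEt
    have ht : volume (NXk E k) ≠ ⊤ := ne_top_of_le_ne_top hfin h1
    have h2 := NX_subset ht ih
    refine h2.trans ?_
    have h3 : (volume (NXk E k)).toReal ≤ 8 ^ k * (volume E).toReal := by
      have := ENNReal.toReal_mono hfin h1
      rwa [ENNReal.toReal_mul, ENNReal.toReal_pow, ENNReal.toReal_ofNat] at this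
    have h4 : 0 ≤ (volume E).toReal := ENNReal.toReal_nonneg
    have h5 : (0:ℝ) < 8 ^ k := by positivity
    have h6 : 0 ≤ (8:ℝ) ^ k * (volume E).toReal := by positivity
    have h7 : (8 ^ (k+1) - 1) * (volume E).toReal =
      (8 ^ k - 1) * (volume E).toReal + 7 * (8 ^ k * (volume E).toReal) := by
      rw [pow_succ]; ring
    apply Ioo_subset_Ioo
    · rw [h7]; linarith
    · rw [h7]; linarith

lemma NXk_w (hp : 1 < p) (h : ApW p w A) {E : Set ℝ} (hE : MeasurableSet E) {a b : ℝ} (hab : a < b)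
    (hEI : E ⊆ Ioo a b) (k : ℕ) :
    (2 * (2 ^ p * A) + 1) ^ k * ∫⁻ x in E, w x ≤ (2 * (2 ^ p * A)) ^ k * ∫⁻ x in NXk E k, w x := by
  have hEt : volume E ≠ ⊤ := by
    refine ne_top_of_le_ne_top ?_ (measure_mono hEI)
    rw [Real.volume_Ioo]; exact ENNReal.ofReal_ne_top
  induction k with
  | zero => simp [NXk]
  | succ k ih =>
    have h4 : 0 ≤ (volume E).toReal := ENNReal.toReal_nonneg
    have h5 : (1:ℝ) ≤ 8 ^ k := one_le_pow₀ (by norm_num)
    have h6 : 0 ≤ ((8:ℝ) ^ k - 1) * (volume E).toReal := mul_nonneg (by linarith) h4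
    have hs := step hp h (NXk_meas hE k) (by linarith :
      a - (8 ^ k - 1) * (volume E).toReal < b + (8 ^ k - 1) * (volume E).toReal)
      (NXk_subset hE hEt hEI k)
    calc (2 * (2 ^ p * A) + 1) ^ (k+1) * ∫⁻ x in E, w x
        = (2 * (2 ^ p * A) + 1) * ((2 * (2 ^ p * A) + 1) ^ k * ∫⁻ x in E, w x) := by
          rw [pow_succ]; ring
      _ ≤ (2 * (2 ^ p * A) + 1) * ((2 * (2 ^ p * A)) ^ k * ∫⁻ x in NXk E k, w x) :=
          mul_le_mul' le_rfl ih
      _ = (2 * (2 ^ p * A)) ^ k * ((2 * (2 ^ p * A) + 1) * ∫⁻ x in NXk E k, w x) := by ring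
      _ ≤ (2 * (2 ^ p * A)) ^ k * ((2 * (2 ^ p * A)) * ∫⁻ x in NXk E (k+1), w x) :=
          mul_le_mul' le_rfl hs
      _ = _ := by rw [pow_succ]; ring

/-- the condition of the Coifman-Fefferman type inequality, for an `A_p` weight -/
theorem ainf (hp : 1 < p) {U : ℝ → ℝ} (hU0 : ∀ x, 0 ≤ U x)
    (h : ApW p (fun x => ENNReal.ofReal (U x)) A) :
    ∃ C : ℝ, 0 < C ∧ ∃ ε : ℝ, 0 < ε ∧
        ∀ a b : ℝ, a < b → ∀ E : Set ℝ, MeasurableSet E → E ⊆ Set.Ioo a b →
          ∫⁻ x in E, ENNReal.ofReal (U x) ≤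
            ENNReal.ofReal C * ENNReal.ofReal (((volume E).toReal / (b - a)) ^ ε) *
              ∫⁻ x, ENNReal.ofReal ((b - a) ^ p / ((b - a) ^ p + |x - (a + b) / 2| ^ p) * U x) := by
  have hp0 : 0 < p := by linarith
  set κ : ℝ := (2 * (2 ^ p * A)).toReal with hκ
  have hKt : 2 * (2 ^ p * A) ≠ ⊤ := by
    apply ENNReal.mul_ne_top (by norm_num)
    exact ENNReal.mul_ne_top (ENNReal.rpow_ne_top_of_nonneg hp0.le (by norm_num)) h.A_fin
  have hKe : 2 * (2 ^ p * A) = ENNReal.ofReal κ := (ENNReal.ofReal_toReal hKt).symm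
  have hκ0 : 0 ≤ κ := ENNReal.toReal_nonneg
  set β : ℝ := (κ + 1) / (κ + 2) with hβ
  have hβ0 : 0 < β := by positivity
  have hβ1 : β < 1 := by rw [hβ, div_lt_one (by linarith)]; linarith
  set ε : ℝ := - Real.log β / Real.log 8 with hε
  have hl8 : 0 < Real.log 8 := Real.log_pos (by norm_num)
  have hlβ : Real.log β < 0 := Real.log_neg hβ0 hβ1
  have hε0 : 0 < ε := div_pos (by linarith) hl8
  set D : ℝ := 1 + (3 / 2) ^ p with hD
  have hD0 : 0 < D := by positivity
  refine ⟨β⁻¹ * D, by positivity, ε, hε0, ?_⟩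
  intro a b hab E hE hEI
  have hL : 0 < b - a := by linarith
  have hEt : volume E ≠ ⊤ := by
    refine ne_top_of_le_ne_top ?_ (measure_mono hEI)
    rw [Real.volume_Ioo]; exact ENNReal.ofReal_ne_top
  rcases eq_or_ne (volume E) 0 with hE0 | hE0
  · rw [Measure.restrict_eq_zero.2 hE0, lintegral_zero_measure]
    exact bot_le
  set v := (volume E).toReal with hv
  have hv0 : 0 < v := ENNReal.toReal_pos hE0 hEt
  have hvL : v ≤ b - a := by
    have := ENNReal.toReal_mono (by rw [Real.volume_Ioo]; exact ENNReal.ofReal_ne_top)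
      (measure_mono hEI)
    rwa [Real.volume_Ioo, ENNReal.toReal_ofReal hL.le] at this
  set t := v / (b - a) with ht
  have ht0 : 0 < t := by positivity
  have ht1 : t ≤ 1 := by rw [ht, div_le_one hL]; exact hvL
  have hlt : Real.log t ≤ 0 := Real.log_nonpos ht0.le ht1
  set k := ⌊- Real.log t / Real.log 8⌋₊ with hk
  have hk1 : (k : ℝ) ≤ - Real.log t / Real.log 8 := Nat.floor_le (div_nonneg (by linarith) hl8.le)
  have hk2 : - Real.log t / Real.log 8 < k + 1 := Nat.lt_floor_add_one _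
  have h8 : (8:ℝ) ^ k * t ≤ 1 := by
    rw [← Real.log_nonpos_iff (by positivity), Real.log_mul (by positivity) ht0.ne', Real.log_pow]
    rw [le_div_iff₀ hl8] at hk1
    linarith
  have h8v : (8:ℝ) ^ k * v ≤ b - a := by
    have : (8:ℝ) ^ k * v = (8:ℝ) ^ k * t * (b - a) := by
      rw [ht]; field_simp
    rw [this]; nlinarith
  -- the power
  have hβk : β ^ k ≤ β⁻¹ * t ^ ε := by
    have h1 : β ^ (k + 1) ≤ t ^ ε := by
      rw [← Real.log_le_log_iff (by positivity) (by positivity), Real.log_pow, Real.log_rpow ht0]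
      rw [div_lt_iff₀ hl8] at hk2
      have e : ε * Real.log t = Real.log β * (- Real.log t / Real.log 8) := by
        rw [hε]; ring
      rw [e]
      have hk3 : - Real.log t / Real.log 8 ≤ k + 1 := by
        rw [div_le_iff₀ hl8]; exact hk2.le
      push_cast
      nlinarith
    rw [pow_succ] at h1
    rw [inv_mul_eq_div, le_div_iff₀ hβ0]
    exact h1
  -- the iteration
  have hw := NXk_w hp h hE hab hEI k
  have hsub : NXk E k ⊆ Ioo (a - (b - a)) (b + (b - a)) := by
    refine (NXk_subset hE hEt hEI k).trans ?_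
    have : (8 ^ k - 1) * v ≤ b - a := by nlinarith
    apply Ioo_subset_Ioo <;> linarith
  set wE := ∫⁻ x in E, ENNReal.ofReal (U x) with hwE
  set wI := ∫⁻ x in Ioo (a - (b - a)) (b + (b - a)), ENNReal.ofReal (U x) with hwI
  have h1 : wE ≤ ENNReal.ofReal (β ^ k) * wI := by
    have h2 : ENNReal.ofReal ((κ + 1) ^ k) * wE ≤ ENNReal.ofReal (κ ^ k) * wI := by
      rw [ENNReal.ofReal_pow (by positivity), ENNReal.ofReal_pow hκ0,
        ENNReal.ofReal_add hκ0 zero_le_one, ENNReal.ofReal_one, ← hKe]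
      refine hw.trans ?_
      gcongr
      exact lintegral_mono_set hsub
    have h3 : ENNReal.ofReal (κ ^ k) ≤ ENNReal.ofReal ((κ + 1) ^ k) * ENNReal.ofReal (β ^ k) := by
      rw [← ENNReal.ofReal_mul (by positivity), ← mul_pow]
      apply ENNReal.ofReal_le_ofReal
      apply pow_le_pow_left₀ hκ0
      rw [hβ, mul_div_assoc', le_div_iff₀ (by linarith)]
      nlinarith
    have h4 : ENNReal.ofReal ((κ + 1) ^ k) * wE ≤
        ENNReal.ofReal ((κ + 1) ^ k) * (ENNReal.ofReal (β ^ k) * wI) := by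
      rw [← mul_assoc]
      exact h2.trans (by gcongr)
    refine (ENNReal.mul_le_mul_iff_right ?_ ENNReal.ofReal_ne_top).1 h4
    rw [ne_eq, ENNReal.ofReal_eq_zero, not_le]
    positivity
  -- the tail weight
  have h5 : wI ≤ ENNReal.ofReal D *
      ∫⁻ x, ENNReal.ofReal ((b - a) ^ p / ((b - a) ^ p + |x - (a + b) / 2| ^ p) * U x) := by
    rw [← lintegral_const_mul' _ _ ENNReal.ofReal_ne_top]
    refine le_trans ?_ (setLIntegral_le_lintegral (Ioo (a - (b - a)) (b + (b - a))) _)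
    refine setLIntegral_mono' measurableSet_Ioo (fun x hx => ?_)
    rw [← ENNReal.ofReal_mul hD0.le]
    apply ENNReal.ofReal_le_ofReal
    have hx1 : |x - (a + b) / 2| ≤ 3 / 2 * (b - a) := by
      rw [abs_le]
      constructor
      · have := hx.1; linarith
      · have := hx.2; linarith
    have hx2 : |x - (a + b) / 2| ^ p ≤ (3 / 2) ^ p * (b - a) ^ p := by
      rw [← Real.mul_rpow (by norm_num) hL.le]
      exact Real.rpow_le_rpow (abs_nonneg _) hx1 hp0.le
    have hLp : 0 < (b - a) ^ p := Real.rpow_pos_of_pos hL _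
    have hxp : 0 ≤ |x - (a + b) / 2| ^ p := Real.rpow_nonneg (abs_nonneg _) _
    have h6 : 1 ≤ D * ((b - a) ^ p / ((b - a) ^ p + |x - (a + b) / 2| ^ p)) := by
      rw [mul_div_assoc', le_div_iff₀ (by linarith)]
      rw [hD]
      nlinarith
    calc U x = 1 * U x := (one_mul _).symm
      _ ≤ (D * ((b - a) ^ p / ((b - a) ^ p + |x - (a + b) / 2| ^ p))) * U x :=
          mul_le_mul_of_nonneg_right h6 (hU0 x)
      _ = _ := by ring
  calc wE ≤ ENNReal.ofReal (β ^ k) * wI := h1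
    _ ≤ ENNReal.ofReal (β⁻¹ * t ^ ε) * (ENNReal.ofReal D *
      ∫⁻ x, ENNReal.ofReal ((b - a) ^ p / ((b - a) ^ p + |x - (a + b) / 2| ^ p) * U x)) := by
        gcongr
    _ = _ := by
        rw [ENNReal.ofReal_mul (by positivity), ENNReal.ofReal_mul (by positivity)]
        ring

end Pool.Agent.TH280.MZ
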