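import Pool.Agent.TH280.MZ.Defs

set_option autoImplicit false
open MeasureTheory Set Filter Topology
open scoped ENNReal NNReal

namespace Pool.Agent.TH280.MZ

section
variable {E : Type} [NormedAddCommGroup E] [NormedSpace ℝ E]

lemma hilbert_eq {f : ℝ → E} {x : ℝ} {v : E} (h : HasPV f x v) : hilbert f x = v := by
  have hex : ∃ v, HasPV f x v := ⟨v, h⟩
  unfold hilbert
  rw [dif_pos hex]
  exact tendsto_nhds_unique hex.choose_spec h

lemma hilbert_eq_zero {f : ℝ → E} {x : ℝ} (h : ¬ ∃ v, HasPV f x v) : hilbert f x = 0 := by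
  unfold hilbert
  rw [dif_neg h]

lemma hasPV_hilbert {f : ℝ → E} {x : ℝ} (h : ∃ v, HasPV f x v) : HasPV f x (hilbert f x) := by
  obtain ⟨v, hv⟩ := h
  rw [hilbert_eq hv]
  exact hv

lemma measurableSet_far (δ x : ℝ) : MeasurableSet {y : ℝ | δ < |y - x|} :=
  measurableSet_lt measurable_const (by fun_prop)

lemma measurableSet_far' (δ x : ℝ) : MeasurableSet {y : ℝ | δ < |x - y|} :=
  measurableSet_lt measurable_const (by fun_prop)

lemma far_eq (δ x : ℝ) : {y : ℝ | δ < |y - x|} = {y : ℝ | δ < |x - y|} := by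
  ext y
  simp only [mem_ofPred_eq, abs_sub_comm]

/-- integrability of the truncated kernel against `g` with `g/(1+|y|)` integrable -/
lemma integrableOn_far {g : ℝ → E} (hg : Integrable (fun y => (1 + |y|)⁻¹ • g y)) {δ : ℝ}
    (hδ : 0 < δ) (x : ℝ) :
    IntegrableOn (fun y => (x - y)⁻¹ • g y) {y : ℝ | δ < |y - x|} := by
  have h1 : IntegrableOn (fun y => ((x - y)⁻¹ * (1 + |y|)) • ((1 + |y|)⁻¹ • g y))
      {y : ℝ | δ < |y - x|} := by
    have hm : Measurable (fun y : ℝ => (x - y)⁻¹ * (1 + |y|)) := by fun_prop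
    refine Integrable.bdd_smul hg.integrableOn (1 + (1 + |x|) / δ) hm.aestronglyMeasurable ?_
    refine (ae_restrict_iff' (measurableSet_far δ x)).2 (Eventually.of_forall (fun y hy => ?_))
    have hy' : δ < |y - x| := hy
    have hpos : 0 < |y - x| := hδ.trans hy'
    have h2 : |y| ≤ |x| + |y - x| := by
      have := abs_add_le x (y - x)
      rwa [add_sub_cancel] at this
    rw [norm_mul, norm_inv, Real.norm_eq_abs, Real.norm_eq_abs, abs_sub_comm,
      abs_of_nonneg (show 0 ≤ 1 + |y| by positivity), inv_mul_le_iff₀ hpos]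
    have h3 : 1 + |x| ≤ |y - x| * ((1 + |x|) / δ) := by
      rw [mul_div_assoc', le_div_iff₀ hδ]
      have : 0 ≤ 1 + |x| := by positivity
      nlinarith
    nlinarith
  refine h1.congr ?_
  refine Eventually.of_forall (fun y => ?_)
  have : (1 + |y|) ≠ 0 := by positivity
  simp only [smul_smul]
  rw [mul_assoc, mul_inv_cancel₀ this, mul_one]

lemma integrable_w_of_integrable {g : ℝ → E} (hg : Integrable g) :
    Integrable (fun y => (1 + |y|)⁻¹ • g y) := by
  have hm : Measurable (fun y : ℝ => (1 + |y|)⁻¹) := by fun_prop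
  refine Integrable.bdd_smul hg 1 hm.aestronglyMeasurable ?_
  refine Eventually.of_forall (fun y => ?_)
  rw [norm_inv, Real.norm_eq_abs, abs_of_nonneg (show 0 ≤ 1 + |y| by positivity)]
  apply inv_le_one_of_one_le₀
  have := abs_nonneg y
  linarith

lemma truncH_add {f g : ℝ → E} (hf : Integrable (fun y => (1 + |y|)⁻¹ • f y))
    (hg : Integrable (fun y => (1 + |y|)⁻¹ • g y)) {δ : ℝ} (hδ : 0 < δ) (x : ℝ) :
    truncH (fun y => f y + g y) δ x = truncH f δ x + truncH g δ x := by
  unfold truncH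
  rw [← smul_add, ← integral_add (integrableOn_far hf hδ x) (integrableOn_far hg hδ x)]
  simp only [smul_add]

lemma truncH_sub {f g : ℝ → E} (hf : Integrable (fun y => (1 + |y|)⁻¹ • f y))
    (hg : Integrable (fun y => (1 + |y|)⁻¹ • g y)) {δ : ℝ} (hδ : 0 < δ) (x : ℝ) :
    truncH (fun y => f y - g y) δ x = truncH f δ x - truncH g δ x := by
  unfold truncH
  rw [← smul_sub, ← integral_sub (integrableOn_far hf hδ x) (integrableOn_far hg hδ x)]
  simp only [smul_sub]

lemma HasPV.add' {f g : ℝ → E} (hf : Integrable (fun y => (1 + |y|)⁻¹ • f y))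
    (hg : Integrable (fun y => (1 + |y|)⁻¹ • g y)) {x : ℝ} {v w : E} (h1 : HasPV f x v)
    (h2 : HasPV g x w) : HasPV (fun y => f y + g y) x (v + w) := by
  unfold HasPV at *
  refine (h1.add h2).congr' ?_
  filter_upwards [self_mem_nhdsWithin] with δ hδ
  exact (truncH_add hf hg hδ x).symm

lemma HasPV.sub' {f g : ℝ → E} (hf : Integrable (fun y => (1 + |y|)⁻¹ • f y))
    (hg : Integrable (fun y => (1 + |y|)⁻¹ • g y)) {x : ℝ} {v w : E} (h1 : HasPV f x v)
    (h2 : HasPV g x w) : HasPV (fun y => f y - g y) x (v - w) := by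
  unfold HasPV at *
  refine (h1.sub h2).congr' ?_
  filter_upwards [self_mem_nhdsWithin] with δ hδ
  exact (truncH_sub hf hg hδ x).symm

/-- composing with a continuous linear map -/
lemma truncH_clm [CompleteSpace E] {F : Type} [NormedAddCommGroup F] [NormedSpace ℝ F]
    [CompleteSpace F] (T : E →L[ℝ] F)
    {f : ℝ → E} (hf : Integrable (fun y => (1 + |y|)⁻¹ • f y)) {δ : ℝ} (hδ : 0 < δ) (x : ℝ) :
    truncH (fun y => T (f y)) δ x = T (truncH f δ x) := by
  unfold truncH
  rw [map_smul, ← T.integral_comp_comm (integrableOn_far hf hδ x)]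
  simp only [map_smul]

lemma HasPV.clm [CompleteSpace E] {F : Type} [NormedAddCommGroup F] [NormedSpace ℝ F]
    [CompleteSpace F] (T : E →L[ℝ] F)
    {f : ℝ → E} (hf : Integrable (fun y => (1 + |y|)⁻¹ • f y)) {x : ℝ} {v : E}
    (h : HasPV f x v) : HasPV (fun y => T (f y)) x (T v) := by
  unfold HasPV at *
  refine ((T.continuous.tendsto v).comp h).congr' ?_
  filter_upwards [self_mem_nhdsWithin] with δ hδ
  exact (truncH_clm T hf hδ x).symm

/-- far from the support, the principal value is an ordinary integral -/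
lemma hasPV_of_far {f : ℝ → E} {x r : ℝ} (hr : 0 < r) (hf : ∀ y, |y - x| ≤ r → f y = 0) :
    HasPV f x ((1 / Real.pi) • ∫ y, (x - y)⁻¹ • f y) := by
  unfold HasPV
  refine tendsto_const_nhds.congr' ?_
  have : Iio r ∈ 𝓝[>] (0:ℝ) := mem_nhdsWithin_of_mem_nhds (Iio_mem_nhds hr)
  filter_upwards [this] with δ hδ
  unfold truncH
  congr 1
  symm
  apply setIntegral_eq_integral_of_forall_compl_eq_zero
  intro y hy
  have hy' : |y - x| ≤ δ := not_lt.1 hy
  rw [hf y (hy'.trans (le_of_lt hδ)), smul_zero]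

end

end Pool.Agent.TH280.MZ
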