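import Pool.Agent.TH280.MZ.Base
import Pool.Agent.TH280.MZ.Ainf2
import Pool.Agent.Helper107.HB9
import Pool.Agent.Helper458.Dav.P_upper
import Pool.Agent.Helper458.Dav.P_const_eq

set_option autoImplicit false
open MeasureTheory Set Filter Topology
open scoped ENNReal NNReal

namespace Pool.Agent.TH280.MZ

variable {p : ℝ} {A : ℝ≥0∞}

lemma truncH_eq_tr (f : ℝ → ℝ) (δ x : ℝ) :
    truncH f δ x = 1 / Real.pi * Pool.Agent.Helper107.HB.tr δ f x := by
  unfold truncH Pool.Agent.Helper107.HB.tr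
  rw [far_eq, smul_eq_mul]
  congr 1
  apply integral_congr_ae
  refine Eventually.of_forall (fun y => ?_)
  simp only [smul_eq_mul]
  rw [div_eq_inv_mul]

lemma truncH_eq_tr' (f : ℝ → ℝ) (δ x : ℝ) :
    truncH f δ x = 1 / Real.pi * ∫ y in {y : ℝ | δ < |x - y|}, f y / (x - y) := by
  unfold truncH
  rw [far_eq, smul_eq_mul]
  congr 1
  apply integral_congr_ae
  refine Eventually.of_forall (fun y => ?_)
  simp only [smul_eq_mul]
  rw [div_eq_inv_mul]

lemma smooth_pv {f : ℝ → ℝ} (hf : ContDiff ℝ ((⊤ : ℕ∞) : WithTop ℕ∞) f)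
    (hc : HasCompactSupport f) (x : ℝ) : ∃ v, HasPV f x v := by
  obtain ⟨v, hv⟩ := Pool.Agent.Helper107.HB.pv_exists f hf hc x
  refine ⟨1 / Real.pi * v, ?_⟩
  unfold HasPV
  exact (hv.const_mul (1 / Real.pi)).congr (fun δ => (truncH_eq_tr f δ x).symm)

lemma measurable_hilbert_smooth {f : ℝ → ℝ} (hf : ContDiff ℝ ((⊤ : ℕ∞) : WithTop ℕ∞) f)
    (hc : HasCompactSupport f) : Measurable (hilbert f) := by
  refine measurable_of_tendsto_metrizable (f := fun (k : ℕ) (x : ℝ) => truncH f (1 / ((k : ℝ) + 1)) x)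
    (fun k : ℕ => ?_) (tendsto_pi_nhds.2 (fun x => ?_))
  · have h1 := Pool.Agent.Helper107.HB.measurable_tr (1 / ((k : ℝ) + 1)) f hf.continuous.measurable
    have h2 : (fun x => truncH f (1 / ((k : ℝ) + 1)) x) =
        fun x => 1 / Real.pi * Pool.Agent.Helper107.HB.tr (1 / ((k : ℝ) + 1)) f x := by
      ext x
      exact truncH_eq_tr _ _ _
    rw [h2]
    exact h1.const_mul _
  · refine (hasPV_hilbert (smooth_pv hf hc x)).comp ?_
    rw [tendsto_nhdsWithin_iff]
    refine ⟨tendsto_one_div_add_atTop_nhds_zero_nat, Eventually.of_forall (fun n => ?_)⟩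
    show (0:ℝ) < 1 / ((n : ℝ) + 1)
    positivity

/-- the weighted inequality for smooth functions of compact support -/
theorem smooth_bound (hp : 1 < p) {U : ℝ → ℝ} (hU : Measurable U) (hU0 : ∀ x, 0 ≤ U x)
    (h : ApW p (fun x => ENNReal.ofReal (U x)) A) :
    ∃ C : ℝ≥0∞, C ≠ ⊤ ∧ ∀ f : ℝ → ℝ, ContDiff ℝ ((⊤ : ℕ∞) : WithTop ℕ∞) f → HasCompactSupport f →
      ∫⁻ x, ‖hilbert f x‖ₑ ^ p * ENNReal.ofReal (U x) ≤
        C * ∫⁻ x, ‖f x‖ₑ ^ p * ENNReal.ofReal (U x) := by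
  have hp0 : 0 < p := by linarith
  obtain ⟨K, hK, hmain⟩ := Pool.Agent.Helper107.HB.bounded_main p hp U hU hU0 (ainf hp hU0 h)
  obtain ⟨C, hC, hmu⟩ := muckenhoupt hp h
  refine ⟨ENNReal.ofReal K * C, ENNReal.mul_ne_top ENNReal.ofReal_ne_top hC, ?_⟩
  intro f hf hc
  obtain ⟨B, hB⟩ := hc.exists_bound_of_continuous hf.continuous
  have h1 := hmain f hf.continuous.measurable hc ⟨B, fun x => hB x⟩ (hilbert f) (by
    refine Eventually.of_forall (fun x => ?_)
    have h2 := hasPV_hilbert (smooth_pv hf hc x)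
    unfold HasPV at h2
    exact h2.congr (fun δ => truncH_eq_tr' f δ x))
  have e1 : ∀ x, ‖hilbert f x‖ₑ ^ p * ENNReal.ofReal (U x) =
      ENNReal.ofReal (|hilbert f x| ^ p * U x) := by
    intro x
    rw [ENNReal.ofReal_mul (Real.rpow_nonneg (abs_nonneg _) _),
      ← ENNReal.ofReal_rpow_of_nonneg (abs_nonneg _) hp0.le, Real.enorm_eq_ofReal_abs]
  simp only [e1]
  refine h1.trans ?_
  rw [mul_assoc]
  refine mul_le_mul' le_rfl ?_
  refine le_trans (le_of_eq ?_) (hmu (fun y => ‖f y‖ₑ) hf.continuous.measurable.enorm)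
  apply lintegral_congr
  intro x
  congr 2
  unfold MX
  refine iSup_congr (fun a => iSup_congr (fun b => iSup_congr (fun hab => ?_)))
  rw [Real.volume_Ioo, ENNReal.ofReal_inv_of_pos (by linarith [hab.1, hab.2]), mul_comm,
    ENNReal.div_eq_inv_mul, mul_comm]

/-- the weak type inequality, wherever the principal value exists -/
theorem weak_pv : ∃ C : ℝ≥0∞, C ≠ ⊤ ∧ ∀ k : ℝ → ℝ, Integrable k → ∀ l : ℝ, 0 < l →
    volume {x : ℝ | l < |hilbert k x|} ≤ C * (∫⁻ x, ‖k x‖ₑ) / ENNReal.ofReal l := by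
  have hU0 : 0 < Pool.Dav.U0 := Pool.Dav.const_eq.1
  have hU0' : ENNReal.ofReal Pool.Dav.U0 ≠ 0 := by
    rw [ne_eq, ENNReal.ofReal_eq_zero, not_le]; exact hU0
  refine ⟨(ENNReal.ofReal Pool.Dav.U0)⁻¹, ENNReal.inv_ne_top.2 hU0', ?_⟩
  intro k hk l hl
  have hkc : Integrable (fun y => (k y : ℂ)) := hk.ofReal
  have h1 := Pool.Dav.upper (fun y => (k y : ℂ)) hkc l hl
  have h2 : ENNReal.ofReal (∫ x, ‖(k x : ℂ)‖) = ∫⁻ x, ‖k x‖ₑ := by
    rw [ofReal_integral_eq_lintegral_ofReal hkc.norm (Eventually.of_forall fun x => norm_nonneg _)]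
    apply lintegral_congr
    intro x
    rw [Complex.norm_real, ofReal_norm]
  rw [h2] at h1
  have h3 : {x : ℝ | l < |hilbert k x|} ⊆
      {x : ℝ | l < ‖Pool.Dav.hilbert (fun y => (k y : ℂ)) x‖} := by
    intro x hx
    have hx' : l < |hilbert k x| := hx
    have hex : ∃ v, HasPV k x v := by
      by_contra hne
      rw [hilbert_eq_zero hne, abs_zero] at hx'
      linarith
    have hpv := hasPV_hilbert hex
    have hD : Pool.Dav.HasHilbert (fun y => (k y : ℂ)) x ((hilbert k x : ℝ) : ℂ) := by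
      unfold Pool.Dav.HasHilbert
      have h4 := (Complex.continuous_ofReal.tendsto _).comp hpv
      refine h4.congr (fun δ => ?_)
      simp only [Function.comp_apply]
      rw [truncH_eq_tr']
      unfold Pool.Dav.truncH
      rw [Complex.ofReal_mul, ← integral_complex_ofReal]
      push_cast
      rfl
    have hex2 : ∃ v, Pool.Dav.HasHilbert (fun y => (k y : ℂ)) x v := ⟨_, hD⟩
    have h5 : Pool.Dav.hilbert (fun y => (k y : ℂ)) x = ((hilbert k x : ℝ) : ℂ) := by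
      unfold Pool.Dav.hilbert
      rw [dif_pos hex2]
      exact tendsto_nhds_unique hex2.choose_spec hD
    show l < ‖Pool.Dav.hilbert (fun y => (k y : ℂ)) x‖
    rw [h5, Complex.norm_real]
    exact hx'
  have hl' : ENNReal.ofReal l ≠ 0 := by
    rw [ne_eq, ENNReal.ofReal_eq_zero, not_le]; exact hl
  refine (measure_mono h3).trans ?_
  rw [ENNReal.le_div_iff_mul_le (Or.inl hl') (Or.inl ENNReal.ofReal_ne_top)]
  set V := volume {x : ℝ | l < ‖Pool.Dav.hilbert (fun y => (k y : ℂ)) x‖}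
  calc V * ENNReal.ofReal l = (ENNReal.ofReal Pool.Dav.U0)⁻¹ *
        (ENNReal.ofReal Pool.Dav.U0 * (ENNReal.ofReal l * V)) := by
        rw [← mul_assoc, ENNReal.inv_mul_cancel hU0' ENNReal.ofReal_ne_top, one_mul, mul_comm]
    _ ≤ _ := mul_le_mul' le_rfl h1

end Pool.Agent.TH280.MZ
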