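import Pool.Agent.TH280.MZ.Base

set_option autoImplicit false
open MeasureTheory Set Filter Topology
open scoped ENNReal NNReal Convolution

namespace Pool.Agent.TH280.MZ

/-- a sequence of bumps -/
noncomputable def bmp (n : ℕ) : ContDiffBump (0 : ℝ) where
  rIn := 1 / (2 * ((n : ℝ) + 1))
  rOut := 1 / ((n : ℝ) + 1)
  rIn_pos := by positivity
  rIn_lt_rOut := by
    have : (0:ℝ) < (n : ℝ) + 1 := by positivity
    apply one_div_lt_one_div_of_lt this
    linarith

lemma exists_smooth_seq {b : ℝ → ℝ} (hb : Measurable b) {B R : ℝ} (hB : ∀ x, |b x| ≤ B)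
    (hR : ∀ x, R < |x| → b x = 0) :
    ∃ h : ℕ → ℝ → ℝ, (∀ n, ContDiff ℝ ((⊤ : ℕ∞) : WithTop ℕ∞) (h n) ∧ HasCompactSupport (h n) ∧
      (∀ x, |h n x| ≤ B) ∧ (∀ x, R + 1 < |x| → h n x = 0)) ∧
      ∀ᵐ x, Tendsto (fun n => h n x) atTop (𝓝 (b x)) := by
  have hcs : HasCompactSupport b := by
    refine HasCompactSupport.intro (K := Icc (-R) R) isCompact_Icc (fun x hx => ?_)
    apply hR
    by_contra h
    exact hx (abs_le.1 (not_lt.1 h))
  have hbi : Integrable b := by
    rw [← integrableOn_iff_integrable_of_support_subset (subset_tsupport b)]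
    refine Measure.integrableOn_of_bounded (M := B) hcs.isCompact.measure_lt_top.ne
      hb.aestronglyMeasurable (Eventually.of_forall (fun x => ?_))
    exact hB x
  refine ⟨fun n => ((bmp n).normed volume ⋆[ContinuousLinearMap.lsmul ℝ ℝ, volume] b), ?_, ?_⟩
  · intro n
    refine ⟨?_, ?_, ?_, ?_⟩
    · exact (bmp n).hasCompactSupport_normed.contDiff_convolution_left _ (bmp n).contDiff_normed
        hbi.locallyIntegrable
    · exact HasCompactSupport.convolution (L := ContinuousLinearMap.lsmul ℝ ℝ)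
        (bmp n).hasCompactSupport_normed hcs
    · intro x
      have h1 : Integrable (fun t => (bmp n).normed volume t * B) :=
        ((bmp n).integrable_normed).mul_const B
      have h2 : ‖∫ t, (ContinuousLinearMap.lsmul ℝ ℝ) ((bmp n).normed volume t) (b (x - t))‖ ≤
          ∫ t, (bmp n).normed volume t * B := by
        refine norm_integral_le_of_norm_le h1 (Eventually.of_forall (fun t => ?_))
        rw [ContinuousLinearMap.lsmul_apply, norm_smul,
          Real.norm_of_nonneg ((bmp n).nonneg_normed t)]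
        exact mul_le_mul_of_nonneg_left (hB _) ((bmp n).nonneg_normed t)
      rw [integral_mul_const, (bmp n).integral_normed, one_mul] at h2
      exact h2
    · intro x hx
      show ∫ t, (ContinuousLinearMap.lsmul ℝ ℝ) ((bmp n).normed volume t) (b (x - t)) = 0
      have h0 : ∀ t, (ContinuousLinearMap.lsmul ℝ ℝ) ((bmp n).normed volume t) (b (x - t)) = 0 := by
        intro t
        rw [ContinuousLinearMap.lsmul_apply]
        by_cases ht : t ∈ Function.support ((bmp n).normed volume)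
        · rw [(bmp n).support_normed_eq, Metric.mem_ball, dist_zero_right, Real.norm_eq_abs] at ht
          have h3 : (bmp n).rOut ≤ 1 := by
            show 1 / ((n : ℝ) + 1) ≤ 1
            rw [div_le_one (by positivity)]
            have : (0:ℝ) ≤ n := Nat.cast_nonneg n
            linarith
          have h4 : |x| ≤ |x - t| + |t| := by
            have := abs_add_le (x - t) t
            rwa [sub_add_cancel] at this
          rw [hR (x - t) (by linarith), smul_zero]
        · rw [Function.notMem_support.1 ht, zero_smul]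
      simp only [h0, integral_zero]
  · have h := ContDiffBump.ae_convolution_tendsto_right_of_locallyIntegrable (μ := volume)
      (φ := bmp) (l := atTop) (K := 2) ?_ ?_ hbi.locallyIntegrable
    · exact h
    · exact tendsto_one_div_add_atTop_nhds_zero_nat
    · refine Eventually.of_forall (fun n => ?_)
      show 1 / ((n : ℝ) + 1) ≤ 2 * (1 / (2 * ((n : ℝ) + 1)))
      apply le_of_eq
      field_simp

lemma dct {q B R : ℝ} (hq : 0 < q) {w : ℝ → ℝ≥0∞} (hwm : Measurable w) (hwt : ∀ x, w x ≠ ⊤)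
    (hw : ∫⁻ x in Icc (-R) R, w x ≠ ⊤) {b : ℝ → ℝ} {h : ℕ → ℝ → ℝ} (hb : Measurable b)
    (hh : ∀ n, Measurable (h n)) (hbB : ∀ x, |b x| ≤ B) (hhB : ∀ n x, |h n x| ≤ B)
    (hbR : ∀ x, R < |x| → b x = 0) (hhR : ∀ n x, R < |x| → h n x = 0)
    (hae : ∀ᵐ x, Tendsto (fun n => h n x) atTop (𝓝 (b x))) :
    Tendsto (fun n => ∫⁻ x, ‖b x - h n x‖ₑ ^ q * w x) atTop (𝓝 0) := by
  have h0 : ∫⁻ x : ℝ, (0 : ℝ≥0∞) = 0 := lintegral_zero
  rw [← h0]
  refine tendsto_lintegral_of_dominated_convergence'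
    (fun x => ENNReal.ofReal (2 * B) ^ q * (Icc (-R) R).indicator w x) (fun n => ?_) (fun n => ?_)
    ?_ ?_
  · exact (((hb.sub (hh n)).enorm.pow_const q).mul hwm).aemeasurable
  · refine Eventually.of_forall (fun x => ?_)
    beta_reduce
    by_cases hx : x ∈ Icc (-R) R
    · rw [indicator_of_mem hx]
      gcongr
      rw [Real.enorm_eq_ofReal_abs]
      apply ENNReal.ofReal_le_ofReal
      have := abs_sub (b x) (h n x)
      have := hbB x
      have := hhB n x
      linarith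
    · have hx' : R < |x| := by
        by_contra hc
        exact hx (abs_le.1 (not_lt.1 hc))
      rw [hbR x hx', hhR n x hx', sub_zero, enorm_zero, ENNReal.zero_rpow_of_pos hq, zero_mul]
      exact bot_le
  · rw [lintegral_const_mul _ (hwm.indicator measurableSet_Icc),
      lintegral_indicator measurableSet_Icc]
    exact ENNReal.mul_ne_top (ENNReal.rpow_ne_top_of_nonneg hq.le ENNReal.ofReal_ne_top) hw
  · filter_upwards [hae] with x hx
    have h1 : Tendsto (fun n => ‖b x - h n x‖ₑ) atTop (𝓝 0) := by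
      have h2 : Tendsto (fun n => b x - h n x) atTop (𝓝 0) := by
        have := (tendsto_const_nhds (x := b x)).sub hx
        rwa [sub_self] at this
      have h3 := h2.enorm
      rwa [enorm_zero] at h3
    have h4 : Tendsto (fun n => ‖b x - h n x‖ₑ ^ q) atTop (𝓝 0) := by
      have := h1.ennrpow_const q
      rwa [ENNReal.zero_rpow_of_pos hq] at this
    have h5 := ENNReal.Tendsto.mul_const h4 (Or.inr (hwt x))
    rwa [zero_mul] at h5

/-- cut off in space and in size -/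
noncomputable def cut (g : ℝ → ℝ) (n : ℕ) (x : ℝ) : ℝ :=
  if |x| ≤ n ∧ |g x| ≤ n then g x else 0

lemma measurable_cut {g : ℝ → ℝ} (hg : Measurable g) (n : ℕ) : Measurable (cut g n) := by
  unfold cut
  refine Measurable.ite ?_ hg measurable_const
  have h1 : Measurable (fun x : ℝ => |x|) := by fun_prop
  have h2 : Measurable (fun x : ℝ => |g x|) := hg.abs
  exact (measurableSet_le h1 measurable_const).inter (measurableSet_le h2 measurable_const)

lemma cut_eventually (g : ℝ → ℝ) (x : ℝ) : ∀ᶠ n in atTop, cut g n x = g x := by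
  obtain ⟨N, hN⟩ := exists_nat_ge (max |x| |g x|)
  filter_upwards [eventually_ge_atTop N] with n hn
  have hn' : (N : ℝ) ≤ n := by exact_mod_cast hn
  unfold cut
  rw [if_pos ⟨(le_max_left _ _).trans (hN.trans hn'), (le_max_right _ _).trans (hN.trans hn')⟩]

lemma cut_tendsto {q : ℝ} (hq : 0 < q) {w : ℝ → ℝ≥0∞} (hwm : Measurable w)
    {g : ℝ → ℝ} (hg : Measurable g) (hgw : ∫⁻ x, ‖g x‖ₑ ^ q * w x ≠ ⊤) :
    Tendsto (fun n => ∫⁻ x, ‖g x - cut g n x‖ₑ ^ q * w x) atTop (𝓝 0) := by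
  have h0 : ∫⁻ x : ℝ, (0 : ℝ≥0∞) = 0 := lintegral_zero
  rw [← h0]
  refine tendsto_lintegral_of_dominated_convergence'
    (fun x => ‖g x‖ₑ ^ q * w x) (fun n => ?_) (fun n => ?_)
    hgw ?_
  · exact (((hg.sub (measurable_cut hg n)).enorm.pow_const q).mul hwm).aemeasurable
  · refine Eventually.of_forall (fun x => ?_)
    have : ‖g x - cut g n x‖ₑ ≤ ‖g x‖ₑ := by
      unfold cut
      split_ifs
      · simp
      · simp
    beta_reduce
    gcongr
  · refine Eventually.of_forall (fun x => ?_)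
    refine tendsto_const_nhds.congr' ?_
    filter_upwards [cut_eventually g x] with n hn
    rw [hn, sub_self, enorm_zero, ENNReal.zero_rpow_of_pos hq, zero_mul]

theorem dens {p : ℝ} (hp : 1 < p) {w : ℝ → ℝ≥0∞} (hwm : Measurable w) (hwt : ∀ x, w x ≠ ⊤)
    (hw : ∀ R : ℝ, ∫⁻ x in Icc (-R) R, w x ≠ ⊤) {g : ℝ → ℝ} (hg : Measurable g)
    (hg1 : ∫⁻ x, ‖g x‖ₑ ^ p * w x ≠ ⊤)
    (hg2 : ∫⁻ x, ‖g x‖ₑ * ENNReal.ofReal (1 + |x|)⁻¹ ≠ ⊤) {ε : ℝ≥0∞} (hε : ε ≠ 0) :
    ∃ h : ℝ → ℝ, ContDiff ℝ ((⊤ : ℕ∞) : WithTop ℕ∞) h ∧ HasCompactSupport h ∧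
      ∫⁻ x, ‖g x - h x‖ₑ ^ p * w x ≤ ε ∧
      ∫⁻ x, ‖g x - h x‖ₑ * ENNReal.ofReal (1 + |x|)⁻¹ ≤ ε := by
  have hp0 : 0 < p := by linarith
  set v : ℝ → ℝ≥0∞ := fun x => ENNReal.ofReal (1 + |x|)⁻¹ with hv
  have hvm : Measurable v := by
    apply Measurable.ennreal_ofReal
    fun_prop
  have hvt : ∀ x, v x ≠ ⊤ := fun x => ENNReal.ofReal_ne_top
  have hvR : ∀ R : ℝ, ∫⁻ x in Icc (-R) R, v x ≠ ⊤ := by
    intro R
    have h1 : ∫⁻ x in Icc (-R) R, v x ≤ ∫⁻ x in Icc (-R) R, 1 := by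
      refine lintegral_mono (fun x => ?_)
      show ENNReal.ofReal (1 + |x|)⁻¹ ≤ 1
      rw [← ENNReal.ofReal_one]
      apply ENNReal.ofReal_le_ofReal
      apply inv_le_one_of_one_le₀
      have := abs_nonneg x
      linarith
    refine ne_top_of_le_ne_top ?_ h1
    rw [setLIntegral_one, Real.volume_Icc]
    exact ENNReal.ofReal_ne_top
  have hg2' : ∫⁻ x, ‖g x‖ₑ ^ (1:ℝ) * v x ≠ ⊤ := by
    simpa only [ENNReal.rpow_one] using hg2
  set η : ℝ≥0∞ := (2 ^ (p - 1))⁻¹ * (ε / 2) with hη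
  have h2p : (2 : ℝ≥0∞) ^ (p - 1) ≠ ⊤ := ENNReal.rpow_ne_top_of_nonneg (by linarith) (by norm_num)
  have h2p0 : (2 : ℝ≥0∞) ^ (p - 1) ≠ 0 := by
    intro h0
    rw [ENNReal.rpow_eq_zero_iff] at h0
    rcases h0 with h0 | h0
    · exact absurd h0.1 (by norm_num)
    · exact absurd h0.1 (by norm_num)
  have hε2 : ε / 2 ≠ 0 := by
    rw [ne_eq, ENNReal.div_eq_zero_iff]
    rintro (h | h)
    · exact hε h
    · exact absurd h (by norm_num)
  have hη0 : η ≠ 0 := mul_ne_zero (ENNReal.inv_ne_zero.2 h2p) hε2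
  have hηε : η ≤ ε / 2 := by
    have : ((2 : ℝ≥0∞) ^ (p - 1))⁻¹ ≤ 1 := by
      rw [ENNReal.inv_le_one]
      apply ENNReal.one_le_rpow (by norm_num) (by linarith)
    calc η ≤ 1 * (ε / 2) := by rw [hη]; gcongr
      _ = _ := one_mul _
  have hηpos : 0 < η := pos_iff_ne_zero.2 hη0
  -- cut
  have c1 := (cut_tendsto hp0 hwm hg hg1).eventually (ge_mem_nhds hηpos)
  have c2 := (cut_tendsto (q := 1) one_pos hvm hg hg2').eventually (ge_mem_nhds hηpos)
  obtain ⟨n, hn1, hn2⟩ := (c1.and c2).exists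
  -- mollify
  obtain ⟨h, hh1, hh2⟩ := exists_smooth_seq (b := cut g n) (measurable_cut hg n) (B := n) (R := n)
    (by
      intro x
      unfold cut
      split_ifs with hc
      · exact hc.2
      · rw [abs_zero]; exact Nat.cast_nonneg n)
    (by
      intro x hx
      unfold cut
      rw [if_neg]
      intro hc
      exact absurd hc.1 (not_le.2 hx))
  have hbB : ∀ x, |cut g n x| ≤ (n : ℝ) := by
    intro x
    unfold cut
    split_ifs with hc
    · exact hc.2
    · rw [abs_zero]; exact Nat.cast_nonneg n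
  have hbR : ∀ x, (n : ℝ) + 1 < |x| → cut g n x = 0 := by
    intro x hx
    unfold cut
    rw [if_neg]
    intro hc
    have := hc.1
    linarith
  have d1 := (dct hp0 hwm hwt (hw _) (measurable_cut hg n) (fun k => (hh1 k).1.continuous.measurable)
    hbB (fun k => (hh1 k).2.2.1) hbR (fun k => (hh1 k).2.2.2) hh2).eventually (ge_mem_nhds hηpos)
  have d2 := (dct (q := 1) one_pos hvm hvt (hvR _) (measurable_cut hg n)
    (fun k => (hh1 k).1.continuous.measurable)
    hbB (fun k => (hh1 k).2.2.1) hbR (fun k => (hh1 k).2.2.2) hh2).eventually (ge_mem_nhds hηpos)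
  obtain ⟨k, hk1, hk2⟩ := (d1.and d2).exists
  refine ⟨h k, (hh1 k).1, (hh1 k).2.1, ?_, ?_⟩
  · have hm1 : Measurable (fun x => ‖g x - cut g n x‖ₑ ^ p * w x) :=
      ((hg.sub (measurable_cut hg n)).enorm.pow_const p).mul hwm
    have key : ∀ x, ‖g x - h k x‖ₑ ^ p * w x ≤
        2 ^ (p - 1) * (‖g x - cut g n x‖ₑ ^ p * w x + ‖cut g n x - h k x‖ₑ ^ p * w x) := by
      intro x
      have h3 : ‖g x - h k x‖ₑ ≤ ‖g x - cut g n x‖ₑ + ‖cut g n x - h k x‖ₑ := by
        have := enorm_add_le (g x - cut g n x) (cut g n x - h k x)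
        rwa [sub_add_sub_cancel] at this
      calc ‖g x - h k x‖ₑ ^ p * w x
          ≤ (‖g x - cut g n x‖ₑ + ‖cut g n x - h k x‖ₑ) ^ p * w x := by gcongr
        _ ≤ (2 ^ (p - 1) * (‖g x - cut g n x‖ₑ ^ p + ‖cut g n x - h k x‖ₑ ^ p)) * w x := by
            gcongr
            exact ENNReal.rpow_add_le_mul_rpow_add_rpow _ _ hp.le
        _ = _ := by ring
    calc ∫⁻ x, ‖g x - h k x‖ₑ ^ p * w x
        ≤ ∫⁻ x, 2 ^ (p - 1) * (‖g x - cut g n x‖ₑ ^ p * w x + ‖cut g n x - h k x‖ₑ ^ p * w x) :=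
          lintegral_mono key
      _ = 2 ^ (p - 1) * ((∫⁻ x, ‖g x - cut g n x‖ₑ ^ p * w x) +
          (∫⁻ x, ‖cut g n x - h k x‖ₑ ^ p * w x)) := by
          rw [lintegral_const_mul' _ _ h2p, lintegral_add_left hm1]
      _ ≤ 2 ^ (p - 1) * (η + η) := by gcongr
      _ = ε := by
          rw [← two_mul, hη, ← mul_assoc, mul_comm (2 ^ (p-1) : ℝ≥0∞) 2, mul_assoc,
            ← mul_assoc ((2:ℝ≥0∞) ^ (p-1)), ENNReal.mul_inv_cancel h2p0 h2p, one_mul,
            ENNReal.mul_div_cancel (by norm_num) (by norm_num)]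
  · have hm1 : Measurable (fun x => ‖g x - cut g n x‖ₑ * v x) :=
      ((hg.sub (measurable_cut hg n)).enorm).mul hvm
    simp only [ENNReal.rpow_one] at hk2 hn2
    have key : ∀ x, ‖g x - h k x‖ₑ * v x ≤
        ‖g x - cut g n x‖ₑ * v x + ‖cut g n x - h k x‖ₑ * v x := by
      intro x
      have h3 : ‖g x - h k x‖ₑ ≤ ‖g x - cut g n x‖ₑ + ‖cut g n x - h k x‖ₑ := by
        have := enorm_add_le (g x - cut g n x) (cut g n x - h k x)
        rwa [sub_add_sub_cancel] at this
      rw [← add_mul]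
      gcongr
    calc ∫⁻ x, ‖g x - h k x‖ₑ * v x
        ≤ ∫⁻ x, (‖g x - cut g n x‖ₑ * v x + ‖cut g n x - h k x‖ₑ * v x) := lintegral_mono key
      _ = (∫⁻ x, ‖g x - cut g n x‖ₑ * v x) + (∫⁻ x, ‖cut g n x - h k x‖ₑ * v x) :=
          lintegral_add_left hm1 _
      _ ≤ ε / 2 + ε / 2 := add_le_add (hn2.trans hηε) (hk2.trans hηε)
      _ = ε := ENNReal.add_halves ε

end Pool.Agent.TH280.MZ
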