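import Pool.Agent.TH280.MZ.CF1
import Pool.Agent.TH280.MZ.Dens

set_option autoImplicit false
open MeasureTheory Set Filter Topology
open scoped ENNReal NNReal

namespace Pool.Agent.TH280.MZ

variable {p : ℝ} {A : ℝ≥0∞}

/-- the weighted `L¹` norm -/
noncomputable def JJ (d : ℝ → ℝ) : ℝ≥0∞ := ∫⁻ x, ‖d x‖ₑ * ENNReal.ofReal (1 + |x|)⁻¹

lemma JJ_eq {d : ℝ → ℝ} : JJ d = ∫⁻ y, ‖(1 + |y|)⁻¹ • d y‖ₑ := by
  unfold JJ
  apply lintegral_congr
  intro x
  rw [enorm_smul, mul_comm, Real.enorm_eq_ofReal (inv_nonneg.2 (by positivity))]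

lemma far_bound {N : ℝ} (hN : 1 ≤ N) {d : ℝ → ℝ} (hd : Integrable (fun y => (1 + |y|)⁻¹ • d y))
    {x : ℝ} (hx : |x| < N) :
    |(1 / Real.pi) • ∫ y, (x - y)⁻¹ • (Ioo (-(2 * N)) (2 * N))ᶜ.indicator d y| ≤
      2 * (JJ d).toReal := by
  have h1 : ‖∫ y, (x - y)⁻¹ • (Ioo (-(2 * N)) (2 * N))ᶜ.indicator d y‖ ≤
      ∫ y, 4 * ‖(1 + |y|)⁻¹ • d y‖ := by
    refine norm_integral_le_of_norm_le (hd.norm.const_mul 4) (Eventually.of_forall (fun y => ?_))
    by_cases hy : y ∈ (Ioo (-(2 * N)) (2 * N))ᶜ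
    · rw [indicator_of_mem hy, norm_smul, norm_smul, ← mul_assoc]
      apply mul_le_mul_of_nonneg_right _ (norm_nonneg _)
      have hy2 : 2 * N ≤ |y| := by
        by_contra hc
        exact hy (abs_lt.1 (not_le.1 hc))
      have h2 : |y| ≤ |x - y| + |x| := by
        have := abs_sub x (x - y)
        rw [sub_sub_cancel] at this
        linarith
      have h3 : (1 + |y|) / 4 ≤ |x - y| := by linarith
      rw [norm_inv, norm_inv, Real.norm_eq_abs, Real.norm_eq_abs,
        abs_of_nonneg (show 0 ≤ 1 + |y| by positivity)]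
      have h4 : (0:ℝ) < (1 + |y|) / 4 := by positivity
      calc |x - y|⁻¹ ≤ ((1 + |y|) / 4)⁻¹ := inv_anti₀ h4 h3
        _ = _ := by rw [inv_div]; rfl
    · rw [indicator_of_notMem hy, smul_zero, norm_zero]
      positivity
  rw [integral_const_mul, integral_norm_eq_lintegral_enorm hd.1, ← JJ_eq] at h1
  rw [smul_eq_mul, abs_mul, abs_of_pos (by positivity : 0 < 1 / Real.pi)]
  have h5 : (1 / Real.pi) ≤ 1 / 3 := by
    apply one_div_le_one_div_of_le (by norm_num) Real.pi_gt_three.le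
  have h6 : 0 ≤ (JJ d).toReal := ENNReal.toReal_nonneg
  rw [Real.norm_eq_abs] at h1
  calc (1 / Real.pi) * |∫ y, (x - y)⁻¹ • (Ioo (-(2 * N)) (2 * N))ᶜ.indicator d y|
      ≤ (1 / 3) * (4 * (JJ d).toReal) := by
        apply mul_le_mul h5 h1 (abs_nonneg _) (by norm_num)
    _ ≤ _ := by linarith

lemma local_split {N : ℝ} (hN : 1 ≤ N) {d : ℝ → ℝ}
    (hd : Integrable (fun y => (1 + |y|)⁻¹ • d y))
    {x : ℝ} (hx : |x| < N) (hpv : ∃ v, HasPV d x v) :
    |hilbert d x| ≤ |hilbert ((Ioo (-(2 * N)) (2 * N)).indicator d) x| + 2 * (JJ d).toReal := by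
  have h1 := hasPV_hilbert hpv
  set d2 := (Ioo (-(2 * N)) (2 * N))ᶜ.indicator d with hd2
  have h2 : HasPV d2 x ((1 / Real.pi) • ∫ y, (x - y)⁻¹ • d2 y) := by
    refine hasPV_of_far (r := N) (by linarith) (fun y hy => ?_)
    rw [hd2]
    apply indicator_of_notMem
    intro hc
    apply hc
    have := abs_lt.1 hx
    have := abs_le.1 hy
    constructor
    · linarith
    · linarith
  have hd2i : Integrable (fun y => (1 + |y|)⁻¹ • d2 y) := by
    have : (fun y => (1 + |y|)⁻¹ • d2 y) =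
        (Ioo (-(2 * N)) (2 * N))ᶜ.indicator (fun y => (1 + |y|)⁻¹ • d y) := by
      ext y
      rw [hd2]
      by_cases hy : y ∈ (Ioo (-(2 * N)) (2 * N))ᶜ
      · rw [indicator_of_mem hy, indicator_of_mem hy]
      · rw [indicator_of_notMem hy, indicator_of_notMem hy, smul_zero]
    rw [this]
    exact hd.indicator measurableSet_Ioo.compl
  have h3 := HasPV.sub' hd hd2i h1 h2
  have e : (fun y => d y - d2 y) = (Ioo (-(2 * N)) (2 * N)).indicator d := by
    ext y
    rw [hd2]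
    by_cases hy : y ∈ Ioo (-(2 * N)) (2 * N)
    · rw [indicator_of_notMem (by simpa using hy), indicator_of_mem hy, sub_zero]
    · rw [indicator_of_mem (by simpa using hy), indicator_of_notMem hy, sub_self]
  rw [e] at h3
  rw [hilbert_eq h3]
  have h4 := far_bound hN hd hx
  have h5 := abs_add_le (hilbert d x - (1 / Real.pi) • ∫ y, (x - y)⁻¹ • d2 y)
    ((1 / Real.pi) • ∫ y, (x - y)⁻¹ • d2 y)
  rw [sub_add_cancel] at h5
  linarith

lemma local_int {N : ℝ} (hN : 1 ≤ N) {d : ℝ → ℝ} :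
    ∫⁻ x, ‖(Ioo (-(2 * N)) (2 * N)).indicator d x‖ₑ ≤ ENNReal.ofReal (1 + 2 * N) * JJ d := by
  unfold JJ
  rw [← lintegral_const_mul' _ _ ENNReal.ofReal_ne_top]
  refine lintegral_mono (fun x => ?_)
  by_cases hx : x ∈ Ioo (-(2 * N)) (2 * N)
  · rw [indicator_of_mem hx]
    have h1 : (1 : ℝ≥0∞) ≤ ENNReal.ofReal (1 + 2 * N) * ENNReal.ofReal (1 + |x|)⁻¹ := by
      rw [← ENNReal.ofReal_mul (by linarith), ← ENNReal.ofReal_one]
      apply ENNReal.ofReal_le_ofReal
      rw [← div_eq_mul_inv, le_div_iff₀ (by positivity)]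
      have := abs_lt.2 hx
      linarith
    calc ‖d x‖ₑ = ‖d x‖ₑ * 1 := (mul_one _).symm
      _ ≤ ‖d x‖ₑ * (ENNReal.ofReal (1 + 2 * N) * ENNReal.ofReal (1 + |x|)⁻¹) := by gcongr
      _ = _ := by ring
  · rw [indicator_of_notMem hx, enorm_zero]
    exact bot_le

lemma local_integrable {N : ℝ} (hN : 1 ≤ N) {d : ℝ → ℝ} (hd : Measurable d) (hJ : JJ d ≠ ⊤) :
    Integrable ((Ioo (-(2 * N)) (2 * N)).indicator d) := by
  refine ⟨(hd.indicator measurableSet_Ioo).aestronglyMeasurable, ?_⟩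
  refine lt_of_le_of_lt (local_int hN) ?_
  exact ENNReal.mul_lt_top ENNReal.ofReal_lt_top hJ.lt_top

/-- a sequence small in the weighted `L¹` norm has principal values converging locally in
measure -/
lemma tim {N : ℝ} (hN : 1 ≤ N) {d : ℕ → ℝ → ℝ} (hd : ∀ n, Measurable (d n))
    (hJ : ∀ n, JJ (d n) ≤ ENNReal.ofReal (1 / ((n : ℝ) + 1))) {G : ℕ → ℝ → ℝ}
    (hG : ∀ n x, G n x = 0 ∨ ((∃ v, HasPV (d n) x v) ∧ G n x = hilbert (d n) x)) :
    TendstoInMeasure (volume.restrict (Ioo (-N) N)) G atTop (fun _ => 0) := by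
  obtain ⟨C, hC, hweak⟩ := weak_pv
  rw [tendstoInMeasure_iff_norm]
  intro ε hε
  have hJt : ∀ n, JJ (d n) ≠ ⊤ := fun n => ne_top_of_le_ne_top ENNReal.ofReal_ne_top (hJ n)
  have hlim : Tendsto (fun n : ℕ => C * (ENNReal.ofReal (1 + 2 * N) *
      ENNReal.ofReal (1 / ((n : ℝ) + 1))) / ENNReal.ofReal (ε / 4)) atTop (𝓝 0) := by
    have h1 : Tendsto (fun n : ℕ => ENNReal.ofReal (1 / ((n : ℝ) + 1))) atTop (𝓝 0) := by
      rw [← ENNReal.ofReal_zero]
      exact (ENNReal.continuous_ofReal.tendsto _).comp tendsto_one_div_add_atTop_nhds_zero_nat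
    have h2 := ENNReal.Tendsto.const_mul (a := ENNReal.ofReal (1 + 2 * N)) h1
      (Or.inr ENNReal.ofReal_ne_top)
    have h3 := ENNReal.Tendsto.const_mul (a := C) h2 (Or.inr hC)
    have h4 := ENNReal.Tendsto.div_const h3 (b := ENNReal.ofReal (ε / 4))
      (Or.inr (by rw [ne_eq, ENNReal.ofReal_eq_zero, not_le]; linarith))
    simpa using h4
  refine tendsto_of_tendsto_of_tendsto_of_le_of_le' tendsto_const_nhds hlim
    (Eventually.of_forall (fun n => bot_le)) ?_
  have hsm : ∀ᶠ n : ℕ in atTop, 2 * (1 / ((n : ℝ) + 1)) < ε / 2 := by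
    have h1 : Tendsto (fun n : ℕ => 2 * (1 / ((n : ℝ) + 1))) atTop (𝓝 (2 * 0)) :=
      tendsto_one_div_add_atTop_nhds_zero_nat.const_mul 2
    rw [mul_zero] at h1
    exact h1.eventually (gt_mem_nhds (by linarith))
  filter_upwards [hsm] with n hn
  rw [Measure.restrict_apply' measurableSet_Ioo]
  have hsub : {x | ε ≤ ‖G n x - 0‖} ∩ Ioo (-N) N ⊆
      {x | ε / 4 < |hilbert ((Ioo (-(2 * N)) (2 * N)).indicator (d n)) x|} := by
    rintro x ⟨hx1, hx2⟩
    have hx1' : ε ≤ ‖G n x - 0‖ := hx1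
    rw [sub_zero, Real.norm_eq_abs] at hx1'
    rcases hG n x with h0 | ⟨h1, h2⟩
    · rw [h0, abs_zero] at hx1'
      linarith
    · rw [h2] at hx1'
      have hxN : |x| < N := abs_lt.2 hx2
      have hdi : Integrable (fun y => (1 + |y|)⁻¹ • d n y) := by
        refine ⟨?_, ?_⟩
        · have hm : Measurable (fun y : ℝ => (1 + |y|)⁻¹) := by fun_prop
          exact (hm.smul (hd n)).aestronglyMeasurable
        · show ∫⁻ y, ‖(1 + |y|)⁻¹ • d n y‖ₑ < ⊤
          rw [← JJ_eq]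
          exact (hJt n).lt_top
      have h3 := local_split hN hdi hxN h1
      have h4 : (JJ (d n)).toReal ≤ 1 / ((n : ℝ) + 1) := by
        have := ENNReal.toReal_mono ENNReal.ofReal_ne_top (hJ n)
        rwa [ENNReal.toReal_ofReal (by positivity)] at this
      show ε / 4 < |hilbert ((Ioo (-(2 * N)) (2 * N)).indicator (d n)) x|
      linarith
  refine (measure_mono hsub).trans ?_
  refine (hweak _ (local_integrable hN (hd n) (hJt n)) (ε / 4) (by linarith)).trans ?_
  gcongr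
  refine (local_int hN).trans ?_
  gcongr
  exact hJ n

lemma hilbert_congr {f g : ℝ → ℝ} (h : f =ᵐ[volume] g) (x : ℝ) : hilbert f x = hilbert g x := by
  have ht : ∀ δ, truncH f δ x = truncH g δ x := by
    intro δ
    unfold truncH
    congr 1
    apply integral_congr_ae
    filter_upwards [ae_restrict_of_ae h] with y hy
    rw [hy]
  have hp : ∀ v, HasPV f x v ↔ HasPV g x v := by
    intro v
    unfold HasPV
    simp only [ht]
  by_cases hex : ∃ v, HasPV f x v
  · obtain ⟨v, hv⟩ := hex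
    rw [hilbert_eq hv, hilbert_eq ((hp v).1 hv)]
  · rw [hilbert_eq_zero hex, hilbert_eq_zero]
    rintro ⟨v, hv⟩
    exact hex ⟨v, (hp v).2 hv⟩

/-- Coifman-Fefferman, for the pointwise principal value, real functions -/
theorem cf_real (hp : 1 < p) {U : ℝ → ℝ} (hU : Measurable U) (hU0 : ∀ x, 0 ≤ U x)
    (h : ApW p (fun x => ENNReal.ofReal (U x)) A) :
    ∃ C : ℝ≥0∞, C ≠ ⊤ ∧ ∀ g : ℝ → ℝ, Integrable (fun y => (1 + |y|)⁻¹ • g y) →
      ∫⁻ x, ‖hilbert g x‖ₑ ^ p * ENNReal.ofReal (U x) ≤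
        C * ∫⁻ x, ‖g x‖ₑ ^ p * ENNReal.ofReal (U x) := by
  have hp0 : 0 < p := by linarith
  set w : ℝ → ℝ≥0∞ := fun x => ENNReal.ofReal (U x) with hw
  obtain ⟨C0, hC0, hsm⟩ := smooth_bound hp hU hU0 h
  have h2p : (2 : ℝ≥0∞) ^ (p - 1) ≠ ⊤ := ENNReal.rpow_ne_top_of_nonneg (by linarith) (by norm_num)
  refine ⟨C0 * 2 ^ (p - 1) + 1, ENNReal.add_ne_top.2 ⟨ENNReal.mul_ne_top hC0 h2p,
    ENNReal.one_ne_top⟩, ?_⟩
  -- measurable case first
  have main : ∀ g : ℝ → ℝ, Measurable g → Integrable (fun y => (1 + |y|)⁻¹ • g y) →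
      ∫⁻ x, ‖hilbert g x‖ₑ ^ p * w x ≤ (C0 * 2 ^ (p - 1) + 1) * ∫⁻ x, ‖g x‖ₑ ^ p * w x := by
    intro g hg hgi
    rcases eq_or_ne (∫⁻ x, ‖g x‖ₑ ^ p * w x) ⊤ with htop | htop
    · rw [htop, ENNReal.mul_top (by simp)]
      exact le_top
    have hJ : JJ g ≠ ⊤ := by
      rw [JJ_eq]; exact hgi.2.ne
    set I := ∫⁻ x, ‖g x‖ₑ ^ p * w x with hI
    have hwR : ∀ R : ℝ, ∫⁻ x in Icc (-R) R, w x ≠ ⊤ := by
      intro R
      have h1 : ∫⁻ x in Icc (-R) R, w x ≤ ∫⁻ x in Ioo (-|R| - 1) (|R| + 1), w x := by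
        apply lintegral_mono_set
        intro x hx
        have := le_abs_self R
        constructor
        · linarith [hx.1]
        · linarith [hx.2]
      refine ne_top_of_le_ne_top (int_w_ne_top hp h ?_) h1
      have := abs_nonneg R
      linarith
    have hex : ∀ n : ℕ, ∃ k : ℝ → ℝ, ContDiff ℝ ((⊤ : ℕ∞) : WithTop ℕ∞) k ∧ HasCompactSupport k ∧
      ∫⁻ x, ‖g x - k x‖ₑ ^ p * w x ≤ ENNReal.ofReal (1 / ((n : ℝ) + 1)) ∧
      ∫⁻ x, ‖g x - k x‖ₑ * ENNReal.ofReal (1 + |x|)⁻¹ ≤ ENNReal.ofReal (1 / ((n : ℝ) + 1)) := by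
      intro n
      refine dens hp h.meas h.fin hwR hg htop hJ ?_
      rw [ne_eq, ENNReal.ofReal_eq_zero, not_le]
      positivity
    choose k hk1 hk2 hk3 hk4 using hex
    have hkm : ∀ n, Measurable (k n) := fun n => (hk1 n).continuous.measurable
    have hki : ∀ n, Integrable (fun y => (1 + |y|)⁻¹ • k n y) := fun n =>
      integrable_w_of_integrable ((hk1 n).continuous.integrable_of_hasCompactSupport (hk2 n))
    -- bound for the approximants
    have hkb : ∀ n, ∫⁻ x, ‖hilbert (k n) x‖ₑ ^ p * w x ≤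
        C0 * (2 ^ (p - 1) * (I + ENNReal.ofReal (1 / ((n : ℝ) + 1)))) := by
      intro n
      refine (hsm (k n) (hk1 n) (hk2 n)).trans ?_
      refine mul_le_mul' le_rfl ?_
      have hm1 : Measurable (fun x => ‖g x‖ₑ ^ p * w x) := (hg.enorm.pow_const p).mul h.meas
      calc ∫⁻ x, ‖k n x‖ₑ ^ p * w x
          ≤ ∫⁻ x, 2 ^ (p - 1) * (‖g x‖ₑ ^ p * w x + ‖g x - k n x‖ₑ ^ p * w x) := by
            refine lintegral_mono (fun x => ?_)
            have h3 : ‖k n x‖ₑ ≤ ‖g x‖ₑ + ‖g x - k n x‖ₑ := by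
              have := enorm_sub_le (a := g x) (b := g x - k n x)
              rwa [sub_sub_cancel] at this
            calc ‖k n x‖ₑ ^ p * w x ≤ (‖g x‖ₑ + ‖g x - k n x‖ₑ) ^ p * w x := by gcongr
              _ ≤ (2 ^ (p - 1) * (‖g x‖ₑ ^ p + ‖g x - k n x‖ₑ ^ p)) * w x := by
                gcongr
                exact ENNReal.rpow_add_le_mul_rpow_add_rpow _ _ hp.le
              _ = _ := by ring
        _ = 2 ^ (p - 1) * (I + ∫⁻ x, ‖g x - k n x‖ₑ ^ p * w x) := by
            rw [lintegral_const_mul' _ _ h2p, lintegral_add_left hm1]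
        _ ≤ _ := by
            gcongr
            exact hk3 n
    -- local statement
    have hloc : ∀ N : ℕ, ∫⁻ x in Ioo (-((N : ℝ) + 1)) ((N : ℝ) + 1), ‖hilbert g x‖ₑ ^ p * w x ≤
        C0 * (2 ^ (p - 1) * I) := by
      intro N
      have hN : (1 : ℝ) ≤ (N : ℝ) + 1 := by
        have : (0 : ℝ) ≤ N := Nat.cast_nonneg N
        linarith
      classical
      have ht := tim hN (d := fun n y => g y - k n y) (fun n => hg.sub (hkm n)) (fun n => hk4 n)
        (G := fun n x => if ∃ v, HasPV g x v then hilbert g x - hilbert (k n) x else 0) (by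
          intro n x
          by_cases hx : ∃ v, HasPV g x v
          · right
            have h1 := HasPV.sub' hgi (hki n) (hasPV_hilbert hx)
              (hasPV_hilbert (smooth_pv (hk1 n) (hk2 n) x))
            refine ⟨⟨_, h1⟩, ?_⟩
            rw [if_pos hx, hilbert_eq h1]
          · left
            rw [if_neg hx])
      obtain ⟨ns, hns, hae⟩ := ht.exists_seq_tendsto_ae
      have h1 : ∫⁻ x in Ioo (-((N : ℝ) + 1)) ((N : ℝ) + 1), ‖hilbert g x‖ₑ ^ p * w x ≤
          ∫⁻ x in Ioo (-((N : ℝ) + 1)) ((N : ℝ) + 1),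
            liminf (fun i => ‖hilbert (k (ns i)) x‖ₑ ^ p * w x) atTop := by
        refine lintegral_mono_ae ?_
        filter_upwards [hae] with x hx
        by_cases hex : ∃ v, HasPV g x v
        · simp only [if_pos hex] at hx
          have h2 : Tendsto (fun i => hilbert (k (ns i)) x) atTop (𝓝 (hilbert g x)) := by
            have := (tendsto_const_nhds (x := hilbert g x)).sub hx
            simpa using this
          have h3 : Tendsto (fun i => ‖hilbert (k (ns i)) x‖ₑ ^ p * w x) atTop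
              (𝓝 (‖hilbert g x‖ₑ ^ p * w x)) :=
            ENNReal.Tendsto.mul_const (h2.enorm.ennrpow_const p) (Or.inr (h.fin x))
          rw [h3.liminf_eq]
        · rw [hilbert_eq_zero hex, enorm_zero, ENNReal.zero_rpow_of_pos hp0, zero_mul]
          exact bot_le
      refine h1.trans ((lintegral_liminf_le' (fun i => ?_)).trans ?_)
      · exact (((measurable_hilbert_smooth (hk1 _) (hk2 _)).enorm.pow_const p).mul
          h.meas).aemeasurable
      · have h4 : Tendsto (fun i => C0 * (2 ^ (p - 1) *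
            (I + ENNReal.ofReal (1 / (((ns i : ℕ) : ℝ) + 1))))) atTop
            (𝓝 (C0 * (2 ^ (p - 1) * (I + 0)))) := by
          have h5 : Tendsto (fun n : ℕ => ENNReal.ofReal (1 / ((n : ℝ) + 1))) atTop (𝓝 0) := by
            rw [← ENNReal.ofReal_zero]
            exact (ENNReal.continuous_ofReal.tendsto _).comp
              tendsto_one_div_add_atTop_nhds_zero_nat
          have h6 := h5.comp hns.tendsto_atTop
          exact ENNReal.Tendsto.const_mul (ENNReal.Tendsto.const_mul (h6.const_add I)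
            (Or.inr h2p)) (Or.inr hC0)
        rw [add_zero] at h4
        rw [← h4.liminf_eq]
        refine liminf_le_liminf (Eventually.of_forall (fun i => ?_))
        exact (setLIntegral_le_lintegral _ _).trans (hkb (ns i))
    have huniv : (univ : Set ℝ) = ⋃ N : ℕ, Ioo (-((N : ℝ) + 1)) ((N : ℝ) + 1) := by
      symm
      rw [eq_univ_iff_forall]
      intro x
      obtain ⟨n, hn⟩ := exists_nat_gt |x|
      refine mem_iUnion.2 ⟨n, ?_⟩
      have := abs_lt.1 hn
      constructor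
      · linarith [this.1]
      · linarith [this.2]
    have hdir : Directed (· ⊆ ·) (fun N : ℕ => Ioo (-((N : ℝ) + 1)) ((N : ℝ) + 1)) := by
      apply Monotone.directed_le
      intro a b hab
      have : (a : ℝ) ≤ b := by exact_mod_cast hab
      apply Ioo_subset_Ioo <;> linarith
    rw [← setLIntegral_univ, huniv, setLIntegral_iUnion_of_directed _ hdir]
    refine iSup_le (fun N => (hloc N).trans ?_)
    rw [← mul_assoc, add_mul]
    exact le_self_add
  intro g hg
  -- reduce to measurable g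
  have hgm : AEStronglyMeasurable g volume := by
    have hm : Measurable (fun y : ℝ => 1 + |y|) := by fun_prop
    have h1 : AEStronglyMeasurable (fun y => (1 + |y|) • ((1 + |y|)⁻¹ • g y)) volume :=
      hm.aestronglyMeasurable.smul hg.1
    refine h1.congr (Eventually.of_forall (fun y => ?_))
    have : (1 + |y|) ≠ 0 := by positivity
    simp only [smul_smul]
    rw [mul_inv_cancel₀ this, one_smul]
  have hmk := hgm.ae_eq_mk
  have h1 := main (hgm.mk g) hgm.stronglyMeasurable_mk.measurable (hg.congr (by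
    filter_upwards [hmk] with y hy
    rw [← hy]))
  have e1 : ∀ x, hilbert g x = hilbert (hgm.mk g) x := hilbert_congr hmk
  have e2 : ∫⁻ x, ‖g x‖ₑ ^ p * w x = ∫⁻ x, ‖hgm.mk g x‖ₑ ^ p * w x := by
    apply lintegral_congr_ae
    filter_upwards [hmk] with y hy
    rw [← hy]
  simp only [e1]
  rw [e2]
  exact h1

end Pool.Agent.TH280.MZ
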