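import Mathlib

set_option autoImplicit false
open MeasureTheory Set
open scoped ENNReal NNReal

namespace Pool.Agent.TH280.MZ

/-- the union of the intervals of a finite family -/
def UN (s : Finset (ℝ × ℝ)) : Set ℝ := ⋃ J ∈ s, Ioo J.1 J.2

lemma mem_UN {s : Finset (ℝ × ℝ)} {x : ℝ} : x ∈ UN s ↔ ∃ J ∈ s, x ∈ Ioo J.1 J.2 := by
  unfold UN
  simp only [mem_iUnion, exists_prop]

open Classical in
/-- every finite family of open intervals has a subfamily with the same union and overlap at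
most two -/
theorem exists_overlap_two (s : Finset (ℝ × ℝ)) :
    ∃ t ⊆ s, UN t = UN s ∧ ∀ x, (t.filter (fun J => x ∈ Ioo J.1 J.2)).card ≤ 2 := by
  have hne : (s.powerset.filter (fun t => UN t = UN s)).Nonempty :=
    ⟨s, by simp⟩
  obtain ⟨t, ht, hmin⟩ := Finset.exists_min_image _ (fun t => t.card) hne
  simp only [Finset.mem_filter, Finset.mem_powerset] at ht hmin
  refine ⟨t, ht.1, ht.2, fun x => ?_⟩
  by_contra hcard
  push Not at hcard
  set F := t.filter (fun J => x ∈ Ioo J.1 J.2) with hF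
  have hFne : F.Nonempty := Finset.card_pos.1 (by omega)
  obtain ⟨J1, hJ1, h1⟩ := Finset.exists_min_image F (fun J => J.1) hFne
  obtain ⟨J2, hJ2, h2⟩ := Finset.exists_max_image F (fun J => J.2) hFne
  have hex : ∃ J3 ∈ F, J3 ≠ J1 ∧ J3 ≠ J2 := by
    by_contra hcon
    push Not at hcon
    have hsub : F ⊆ {J1, J2} := by
      intro J hJ
      by_cases hJ' : J = J1
      · simp [hJ']
      · simp [hcon J hJ hJ']
    have := (Finset.card_le_card hsub).trans Finset.card_le_two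
    omega
  obtain ⟨J3, hJ3, h31, h32⟩ := hex
  have hJ1' := (Finset.mem_filter.1 hJ1)
  have hJ2' := (Finset.mem_filter.1 hJ2)
  have hJ3' := (Finset.mem_filter.1 hJ3)
  have hU : UN (t.erase J3) = UN s := by
    rw [← ht.2]
    ext y
    rw [mem_UN, mem_UN]
    constructor
    · rintro ⟨J, hJ, hy⟩
      exact ⟨J, Finset.mem_of_mem_erase hJ, hy⟩
    · rintro ⟨J, hJ, hy⟩
      by_cases hJ3e : J = J3
      · subst hJ3e
        rcases lt_or_ge y x with hyx | hyx
        · refine ⟨J1, Finset.mem_erase.2 ⟨h31.symm, hJ1'.1⟩, ?_, ?_⟩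
          · exact lt_of_le_of_lt (h1 J hJ3) hy.1
          · exact hyx.trans hJ1'.2.2
        · refine ⟨J2, Finset.mem_erase.2 ⟨h32.symm, hJ2'.1⟩, ?_, ?_⟩
          · exact lt_of_lt_of_le hJ2'.2.1 hyx
          · exact lt_of_lt_of_le hy.2 (h2 J hJ3)
      · exact ⟨J, Finset.mem_erase.2 ⟨hJ3e, hJ⟩, hy⟩
  have := hmin (t.erase J3) ⟨(Finset.erase_subset _ _).trans ht.1, hU⟩
  rw [Finset.card_erase_of_mem hJ3'.1] at this
  have hpos : 0 < t.card := Finset.card_pos.2 ⟨J3, hJ3'.1⟩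
  omega

lemma measurableSet_UN (s : Finset (ℝ × ℝ)) : MeasurableSet (UN s) :=
  Finset.measurableSet_biUnion _ fun _ _ => measurableSet_Ioo

theorem cov_fin {μ ν : Measure ℝ} {K : ℝ≥0∞} (s : Finset (ℝ × ℝ))
    (h : ∀ J ∈ s, μ (Ioo J.1 J.2) ≤ K * ν (Ioo J.1 J.2)) : μ (UN s) ≤ 2 * K * ν (UN s) := by
  classical
  obtain ⟨t, hts, hU, ht⟩ := exists_overlap_two s
  rw [← hU]
  have h1 : ∑ J ∈ t, ν (Ioo J.1 J.2) ≤ 2 * ν (UN t) := by
    calc ∑ J ∈ t, ν (Ioo J.1 J.2)
        = ∑ J ∈ t, ∫⁻ x, (Ioo J.1 J.2).indicator 1 x ∂ν := by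
          refine Finset.sum_congr rfl fun J _ => ?_
          rw [lintegral_indicator_one measurableSet_Ioo]
      _ = ∫⁻ x, ∑ J ∈ t, (Ioo J.1 J.2).indicator 1 x ∂ν := by
          rw [lintegral_finsetSum]
          intro J _
          exact measurable_one.indicator measurableSet_Ioo
      _ ≤ ∫⁻ x, 2 * (UN t).indicator 1 x ∂ν := by
          apply lintegral_mono
          intro x
          by_cases hx : x ∈ UN t
          · have e : ∑ J ∈ t, (Ioo J.1 J.2).indicator (1 : ℝ → ℝ≥0∞) x =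
                ((t.filter (fun J => x ∈ Ioo J.1 J.2)).card : ℝ≥0∞) := by
              rw [Finset.card_filter]
              push_cast
              refine Finset.sum_congr rfl fun J _ => ?_
              by_cases hJ : x ∈ Ioo J.1 J.2 <;> simp [indicator, hJ]
            simp only [e, indicator_of_mem hx, Pi.one_apply, mul_one]
            exact_mod_cast ht x
          · have e : ∑ J ∈ t, (Ioo J.1 J.2).indicator (1 : ℝ → ℝ≥0∞) x = 0 := by
              apply Finset.sum_eq_zero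
              intro J hJ
              apply indicator_of_notMem
              intro hJx
              exact hx (mem_UN.2 ⟨J, hJ, hJx⟩)
            simp [e]
      _ = 2 * ν (UN t) := by
          rw [lintegral_const_mul _ (measurable_one.indicator (measurableSet_UN t)),
            lintegral_indicator_one (measurableSet_UN t)]
  calc μ (UN t) ≤ ∑ J ∈ t, μ (Ioo J.1 J.2) := measure_biUnion_finset_le _ _
    _ ≤ ∑ J ∈ t, K * ν (Ioo J.1 J.2) := Finset.sum_le_sum fun J hJ => h J (hts hJ)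
    _ = K * ∑ J ∈ t, ν (Ioo J.1 J.2) := by rw [Finset.mul_sum]
    _ ≤ K * (2 * ν (UN t)) := by gcongr
    _ = 2 * K * ν (UN t) := by ring

/-- If `μ J ≤ K ν J` for all intervals `J` of a family, then `μ ≤ 2 K ν` on the union. -/
theorem cov {μ ν : Measure ℝ} {K : ℝ≥0∞} (T : Set (ℝ × ℝ))
    (h : ∀ J ∈ T, μ (Ioo J.1 J.2) ≤ K * ν (Ioo J.1 J.2)) :
    μ (⋃ J ∈ T, Ioo J.1 J.2) ≤ 2 * K * ν (⋃ J ∈ T, Ioo J.1 J.2) := by
  classical
  obtain ⟨S, hST, hSc, hSU⟩ := TopologicalSpace.isOpen_biUnion_countable T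
    (fun J : ℝ × ℝ => Ioo J.1 J.2) (fun _ _ => isOpen_Ioo)
  rw [← hSU]
  rcases S.eq_empty_or_nonempty with rfl | hne
  · simp
  obtain ⟨e, he⟩ := hSc.exists_eq_range hne
  have hU : (⋃ J ∈ S, Ioo J.1 J.2) = ⋃ n : ℕ, UN ((Finset.range (n + 1)).image e) := by
    ext x
    simp only [mem_iUnion, exists_prop, mem_UN, Finset.mem_image, Finset.mem_range]
    constructor
    · rintro ⟨J, hJ, hx⟩
      rw [he] at hJ
      obtain ⟨n, rfl⟩ := hJ
      exact ⟨n, e n, ⟨n, by omega, rfl⟩, hx⟩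
    · rintro ⟨n, J, ⟨k, _, rfl⟩, hx⟩
      exact ⟨e k, he ▸ mem_range_self k, hx⟩
  rw [hU]
  have hmono : Monotone (fun n : ℕ => UN ((Finset.range (n + 1)).image e)) := by
    intro m n hmn x hx
    obtain ⟨J, hJ, hx⟩ := mem_UN.1 hx
    refine mem_UN.2 ⟨J, Finset.image_subset_image ?_ hJ, hx⟩
    intro k hk
    rw [Finset.mem_range] at hk ⊢
    omega
  rw [hmono.measure_iUnion]
  refine iSup_le fun n => ?_
  refine (cov_fin (K := K) (ν := ν) _ ?_).trans ?_
  · intro J hJ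
    obtain ⟨k, _, rfl⟩ := Finset.mem_image.1 hJ
    exact h _ (hST (he ▸ mem_range_self k))
  · gcongr
    exact subset_iUnion (fun n : ℕ => UN ((Finset.range (n + 1)).image e)) n

end Pool.Agent.TH280.MZ
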