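import Mathlib

set_option autoImplicit false
open MeasureTheory Set Filter Topology
open scoped ENNReal NNReal

namespace Pool.Agent.TH280.MZ

section
variable {E : Type} [NormedAddCommGroup E] [NormedSpace ℝ E]

/-- The truncated Hilbert transform `(1/π) ∫_{|y-x|>δ} f(y)/(x-y) dy`. -/
noncomputable def truncH (f : ℝ → E) (δ x : ℝ) : E :=
  (1 / Real.pi) • ∫ y in {y : ℝ | δ < |y - x|}, (x - y)⁻¹ • f y

/-- The principal value defining `Hf(x)` exists and equals `v`. -/
def HasPV (f : ℝ → E) (x : ℝ) (v : E) : Prop :=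
  Tendsto (fun δ : ℝ => truncH f δ x) (𝓝[>] (0 : ℝ)) (𝓝 v)

open Classical in
/-- The Hilbert transform `Hf(x)`: the principal value at each point where it exists (that is
almost every point, for integrable `f`), and `0` at the remaining points. -/
noncomputable def hilbert (f : ℝ → E) (x : ℝ) : E :=
  if h : ∃ v, HasPV f x v then h.choose else 0

end

/-- A weight on the line. -/
structure IsWeight (U : ℝ → ℝ) : Prop where
  measurable : Measurable U
  nonneg : ∀ x, 0 ≤ U x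
  locInt : LocallyIntegrable U
  ne : ¬ U =ᵐ[volume] 0

/-- The weighted inequality `∫ |Hf|^p U ≤ C ∫ |f|^p U` for all integrable `f` of mean zero with
values in `E`. -/
def Admissible (E : Type) [NormedAddCommGroup E] [NormedSpace ℝ E] (p : ℝ) (U : ℝ → ℝ) : Prop :=
  ∃ C : ℝ≥0, ∀ f : ℝ → E, Integrable f → ∫ x, f x = 0 →
    ∫⁻ x, ‖hilbert f x‖ₑ ^ p * ENNReal.ofReal (U x) ≤
      C * ∫⁻ x, ‖f x‖ₑ ^ p * ENNReal.ofReal (U x)

/-- The Muckenhoupt class `A_p`. -/
def MemAp (p : ℝ) (W : ℝ → ℝ) : Prop :=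
  IsWeight W ∧ ∃ A : ℝ≥0, ∀ a b : ℝ, a < b →
    (∫⁻ x in Ioo a b, ENNReal.ofReal (W x)) / ENNReal.ofReal (b - a) *
      ((∫⁻ x in Ioo a b, ENNReal.ofReal (W x) ^ (-(1 / (p - 1)))) / ENNReal.ofReal (b - a)) ^ (p - 1)
      ≤ A

end Pool.Agent.TH280.MZ
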