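import Pool.Agent.TH280.MZ.Cov
import Pool.Agent.Helper865.TAP.J3

set_option autoImplicit false
open MeasureTheory Set
open scoped ENNReal NNReal

namespace Pool.Agent.TH280.MZ

/-- The uncentred maximal function with respect to a measure on the line. -/
noncomputable def MX (μ : Measure ℝ) (F : ℝ → ℝ≥0∞) (x : ℝ) : ℝ≥0∞ :=
  ⨆ (a : ℝ) (b : ℝ) (_ : a < x ∧ x < b), (∫⁻ y in Ioo a b, F y ∂μ) / μ (Ioo a b)

theorem lt_MX_iff {μ : Measure ℝ} (F : ℝ → ℝ≥0∞) {x : ℝ} {l : ℝ≥0∞} :
    l < MX μ F x ↔ ∃ a b : ℝ, (a < x ∧ x < b) ∧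
      l < (∫⁻ y in Ioo a b, F y ∂μ) / μ (Ioo a b) := by
  unfold MX
  simp only [lt_iSup_iff, exists_prop]

theorem le_MX (μ : Measure ℝ) (F : ℝ → ℝ≥0∞) {a b x : ℝ} (ha : a < x) (hb : x < b) :
    (∫⁻ y in Ioo a b, F y ∂μ) / μ (Ioo a b) ≤ MX μ F x :=
  le_iSup_of_le a (le_iSup_of_le b (le_iSup_of_le ⟨ha, hb⟩ le_rfl))

theorem isOpen_lt_MX {μ : Measure ℝ} (F : ℝ → ℝ≥0∞) (l : ℝ≥0∞) : IsOpen {x | l < MX μ F x} := by
  rw [isOpen_iff_mem_nhds]
  intro x hx
  obtain ⟨a, b, ⟨h1, h2⟩, h3⟩ := (lt_MX_iff F).1 hx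
  filter_upwards [Ioo_mem_nhds h1 h2] with y hy
  exact (lt_MX_iff F).2 ⟨a, b, hy, h3⟩

theorem measurable_MX (μ : Measure ℝ) (F : ℝ → ℝ≥0∞) : Measurable (MX μ F) :=
  measurable_of_Ioi fun l => (isOpen_lt_MX F l).measurableSet

/-- Weak type `(1,1)` for every measure. -/
theorem weak_MX {μ : Measure ℝ} (h0 : ∀ a b : ℝ, a < b → μ (Ioo a b) ≠ 0)
    (ht : ∀ a b : ℝ, a < b → μ (Ioo a b) ≠ ⊤) (F : ℝ → ℝ≥0∞) {l : ℝ≥0∞} (hl : l ≠ 0)
    (hlt : l ≠ ⊤) :
    μ {x | l < MX μ F x} ≤ 2 * l⁻¹ * ∫⁻ x, F x ∂μ := by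
  set T : Set (ℝ × ℝ) := {J | J.1 < J.2 ∧
    l < (∫⁻ y in Ioo J.1 J.2, F y ∂μ) / μ (Ioo J.1 J.2)} with hT
  have hsub : {x | l < MX μ F x} ⊆ ⋃ J ∈ T, Ioo J.1 J.2 := by
    intro x hx
    obtain ⟨a, b, h1, h2⟩ := (lt_MX_iff F).1 hx
    simp only [mem_iUnion, exists_prop]
    exact ⟨(a, b), ⟨h1.1.trans h1.2, h2⟩, h1⟩
  have hc := cov (μ := μ) (ν := μ.withDensity F) (K := l⁻¹) T (by
    rintro ⟨a, b⟩ ⟨hab, h⟩
    have h1 := (ENNReal.le_div_iff_mul_le (Or.inl (h0 a b hab)) (Or.inl (ht a b hab))).1 h.le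
    show μ (Ioo a b) ≤ l⁻¹ * μ.withDensity F (Ioo a b)
    rw [withDensity_apply _ measurableSet_Ioo]
    calc μ (Ioo a b) = l⁻¹ * (l * μ (Ioo a b)) := by
          rw [← mul_assoc, ENNReal.inv_mul_cancel hl hlt, one_mul]
      _ ≤ _ := by gcongr)
  refine (measure_mono hsub).trans (hc.trans ?_)
  gcongr
  calc (μ.withDensity F) (⋃ J ∈ T, Ioo J.1 J.2) ≤ μ.withDensity F univ := measure_mono (subset_univ _)
    _ = ∫⁻ x, F x ∂μ := by rw [withDensity_apply _ MeasurableSet.univ, Measure.restrict_univ]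

theorem MX_trunc {μ : Measure ℝ} (h0 : ∀ a b : ℝ, a < b → μ (Ioo a b) ≠ 0)
    (ht : ∀ a b : ℝ, a < b → μ (Ioo a b) ≠ ⊤) (F : ℝ → ℝ≥0∞) {l : ℝ} (hl : 0 < l) {x : ℝ}
    (h : ENNReal.ofReal l < MX μ F x) :
    ENNReal.ofReal (l / 2) < MX μ (fun s => if ENNReal.ofReal (l / 2) < F s then F s else 0) x := by
  obtain ⟨a, b, h1, h4⟩ := (lt_MX_iff F).1 h
  rw [lt_MX_iff]
  refine ⟨a, b, h1, ?_⟩
  have hab : a < b := h1.1.trans h1.2
  set G : ℝ → ℝ≥0∞ := fun s => if ENNReal.ofReal (l / 2) < F s then F s else 0 with hG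
  have h6 : (∫⁻ s in Ioo a b, F s ∂μ) / μ (Ioo a b) ≤
      (∫⁻ s in Ioo a b, G s ∂μ) / μ (Ioo a b) + ENNReal.ofReal (l / 2) := by
    have h7 : ∫⁻ s in Ioo a b, F s ∂μ ≤ (∫⁻ s in Ioo a b, G s ∂μ) +
        ENNReal.ofReal (l / 2) * μ (Ioo a b) := by
      calc ∫⁻ s in Ioo a b, F s ∂μ ≤ ∫⁻ s in Ioo a b, (G s + ENNReal.ofReal (l / 2)) ∂μ := by
            apply lintegral_mono
            intro s
            simp only [hG]
            split_ifs with h
            · exact le_self_add
            · rw [zero_add]; exact not_lt.1 h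
        _ = (∫⁻ s in Ioo a b, G s ∂μ) + ENNReal.ofReal (l / 2) * μ (Ioo a b) := by
            rw [lintegral_add_right _ measurable_const, lintegral_const,
              Measure.restrict_apply_univ]
    calc _ ≤ ((∫⁻ s in Ioo a b, G s ∂μ) +
        ENNReal.ofReal (l / 2) * μ (Ioo a b)) / μ (Ioo a b) :=
          ENNReal.div_le_div_right h7 _
      _ = _ := by
          rw [ENNReal.add_div, ENNReal.mul_div_cancel_right (h0 a b hab) (ht a b hab)]
  have h8 : ENNReal.ofReal l = ENNReal.ofReal (l / 2) + ENNReal.ofReal (l / 2) := by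
    rw [← ENNReal.ofReal_add (by positivity) (by positivity)]
    congr 1; ring
  have h9 := h4.trans_le h6
  rw [h8] at h9
  exact lt_of_add_lt_add_right h9

/-- Strong type `(q,q)` for every measure. -/
theorem strong_MX {q : ℝ} (hq : 1 < q) : ∃ C : ℝ≥0∞, C ≠ ⊤ ∧ ∀ (μ : Measure ℝ) [SigmaFinite μ],
    (∀ a b : ℝ, a < b → μ (Ioo a b) ≠ 0) → (∀ a b : ℝ, a < b → μ (Ioo a b) ≠ ⊤) →
    ∀ F : ℝ → ℝ≥0∞, Measurable F → ∫⁻ t, (MX μ F t) ^ q ∂μ ≤ C * ∫⁻ t, (F t) ^ q ∂μ := by
  refine ⟨ENNReal.ofReal (4 * q / (q - 1)) * 2 ^ (q - 1), ?_, ?_⟩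
  · exact ENNReal.mul_ne_top ENNReal.ofReal_ne_top
      (ENNReal.rpow_ne_top_of_nonneg (by linarith) (by norm_num))
  intro μ _ h0 ht F hF
  have hq0 : 0 < q := by linarith
  have hq1 : 0 < q - 1 := by linarith
  have hM := measurable_MX μ F
  calc ∫⁻ t, (MX μ F t) ^ q ∂μ
      = ∫⁻ t, (∫⁻ l in Ioi (0 : ℝ), ENNReal.ofReal (q * l ^ (q - 1)) *
        (if ENNReal.ofReal l < MX μ F t then 1 else 0)) ∂μ := by
        apply lintegral_congr; intro t; exact Pool.Agent.Helper865.TAP.J3.layer hq0 _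
    _ = ∫⁻ l in Ioi (0 : ℝ), ∫⁻ t, ENNReal.ofReal (q * l ^ (q - 1)) *
        (if ENNReal.ofReal l < MX μ F t then 1 else 0) ∂μ := by
        apply lintegral_lintegral_swap
        apply Measurable.aemeasurable
        apply Measurable.mul
        · fun_prop
        · refine Measurable.ite ?_ measurable_const measurable_const
          exact measurableSet_lt (by fun_prop) (hM.comp measurable_fst)
    _ = ∫⁻ l in Ioi (0 : ℝ), ENNReal.ofReal (q * l ^ (q - 1)) *
        μ {t | ENNReal.ofReal l < MX μ F t} := by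
        apply lintegral_congr; intro l
        rw [lintegral_const_mul' _ _ ENNReal.ofReal_ne_top]
        congr 1
        have hms : MeasurableSet {t | ENNReal.ofReal l < MX μ F t} :=
          measurableSet_lt measurable_const hM
        rw [← lintegral_indicator_one hms]
        apply lintegral_congr; intro t
        simp [indicator]
    _ ≤ ∫⁻ l in Ioi (0 : ℝ), ENNReal.ofReal (q * l ^ (q - 1)) *
        (ENNReal.ofReal (2 / (l / 2)) *
          ∫⁻ t, (if ENNReal.ofReal (l / 2) < F t then F t else 0) ∂μ) := by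
        apply setLIntegral_mono' measurableSet_Ioi
        intro l hl
        have hl0 : 0 < l := hl
        gcongr
        have e : ENNReal.ofReal (2 / (l / 2)) = 2 * (ENNReal.ofReal (l / 2))⁻¹ := by
          rw [div_eq_mul_inv, ENNReal.ofReal_mul (by norm_num), ENNReal.ofReal_inv_of_pos (by positivity)]
          norm_num
        rw [e]
        refine (measure_mono ?_).trans (weak_MX h0 ht
          (fun s => if ENNReal.ofReal (l / 2) < F s then F s else 0)
          (l := ENNReal.ofReal (l / 2)) (by simp; positivity) ENNReal.ofReal_ne_top)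
        intro t ht'
        exact MX_trunc h0 ht F hl0 ht'
    _ = ∫⁻ l in Ioi (0 : ℝ), ∫⁻ t, ENNReal.ofReal (4 * q / (q - 1)) *
        (F t * (ENNReal.ofReal ((q - 1) * l ^ (q - 1 - 1)) *
          (if ENNReal.ofReal l < 2 * F t then 1 else 0))) ∂μ := by
        apply setLIntegral_congr_fun measurableSet_Ioi
        intro l hl
        have hl0 : 0 < l := hl
        simp only
        rw [← lintegral_const_mul' _ _ ENNReal.ofReal_ne_top,
          ← lintegral_const_mul' _ _ ENNReal.ofReal_ne_top]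
        apply lintegral_congr
        intro t
        have hiff : ENNReal.ofReal (l / 2) < F t ↔ ENNReal.ofReal l < 2 * F t := by
          have e : ENNReal.ofReal l = 2 * ENNReal.ofReal (l / 2) := by
            rw [← ENNReal.ofReal_ofNat 2, ← ENNReal.ofReal_mul (by norm_num)]
            congr 1; ring
          rw [e]
          exact (ENNReal.mul_lt_mul_iff_right (by norm_num) (by norm_num)).symm
        by_cases h : ENNReal.ofReal (l / 2) < F t
        · have h' := hiff.1 h
          simp only [h, h', if_true, mul_one]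
          have e2 : ENNReal.ofReal (q * l ^ (q - 1)) * ENNReal.ofReal (2 / (l / 2)) =
              ENNReal.ofReal (4 * q / (q - 1)) * ENNReal.ofReal ((q - 1) * l ^ (q - 1 - 1)) := by
            rw [← ENNReal.ofReal_mul (by positivity), ← ENNReal.ofReal_mul (by positivity)]
            congr 1
            rw [Real.rpow_sub_one hl0.ne' (q - 1)]
            field_simp
            ring
          calc ENNReal.ofReal (q * l ^ (q - 1)) * (ENNReal.ofReal (2 / (l / 2)) * F t)
              = (ENNReal.ofReal (q * l ^ (q - 1)) * ENNReal.ofReal (2 / (l / 2))) * F t := by ring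
            _ = _ := by rw [e2]; ring
        · have h' : ¬ ENNReal.ofReal l < 2 * F t := fun hh => h (hiff.2 hh)
          simp [h, h']
    _ = ∫⁻ t, (∫⁻ l in Ioi (0 : ℝ), ENNReal.ofReal (4 * q / (q - 1)) *
        (F t * (ENNReal.ofReal ((q - 1) * l ^ (q - 1 - 1)) *
          (if ENNReal.ofReal l < 2 * F t then 1 else 0)))) ∂μ := by
        apply lintegral_lintegral_swap
        apply Measurable.aemeasurable
        apply Measurable.mul measurable_const
        apply Measurable.mul (hF.comp measurable_snd)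
        apply Measurable.mul
        · fun_prop
        · refine Measurable.ite ?_ measurable_const measurable_const
          exact measurableSet_lt (by fun_prop) ((hF.comp measurable_snd).const_mul 2)
    _ = ∫⁻ t, ENNReal.ofReal (4 * q / (q - 1)) * 2 ^ (q - 1) * F t ^ q ∂μ := by
        apply lintegral_congr
        intro t
        rw [lintegral_const_mul' _ _ ENNReal.ofReal_ne_top, mul_assoc]
        congr 1
        have hmeas : Measurable (fun l : ℝ => ENNReal.ofReal ((q - 1) * l ^ (q - 1 - 1)) *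
          (if ENNReal.ofReal l < 2 * F t then 1 else 0)) := by
          apply Measurable.mul
          · fun_prop
          · refine Measurable.ite ?_ measurable_const measurable_const
            exact measurableSet_lt (by fun_prop) measurable_const
        rw [lintegral_const_mul _ hmeas, ← Pool.Agent.Helper865.TAP.J3.layer hq1,
          ENNReal.mul_rpow_of_nonneg _ _ hq1.le]
        have e3 : F t * F t ^ (q - 1) = F t ^ q := by
          rcases eq_or_ne (F t) 0 with h0 | h0
          · rw [h0, zero_mul, ENNReal.zero_rpow_of_pos hq0]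
          rcases eq_or_ne (F t) ⊤ with h1 | h1
          · rw [h1, ENNReal.top_rpow_of_pos hq0, ENNReal.top_rpow_of_pos hq1, ENNReal.top_mul_top]
          · have := ENNReal.rpow_add 1 (q - 1) h0 h1
            rw [ENNReal.rpow_one, add_sub_cancel] at this
            exact this.symm
        calc F t * (2 ^ (q - 1) * F t ^ (q - 1)) = 2 ^ (q - 1) * (F t * F t ^ (q - 1)) := by ring
          _ = _ := by rw [e3]
    _ = _ := by
        rw [lintegral_const_mul _ (hF.pow_const q)]

end Pool.Agent.TH280.MZ
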