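import Pool.Agent.TH280.MZ.Base

set_option autoImplicit false
open MeasureTheory Set Filter Topology
open scoped ENNReal NNReal

namespace Pool.Agent.TH280.MZ

section
variable {E : Type} [NormedAddCommGroup E] [NormedSpace ℝ E]

lemma aesm_of_w {g : ℝ → E} (hg : Integrable (fun y => (1 + |y|)⁻¹ • g y)) :
    AEStronglyMeasurable g volume := by
  have hm : Measurable (fun y : ℝ => 1 + |y|) := by fun_prop
  have h1 : AEStronglyMeasurable (fun y => (1 + |y|) • ((1 + |y|)⁻¹ • g y)) volume :=
    hm.aestronglyMeasurable.smul hg.1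
  refine h1.congr (Eventually.of_forall (fun y => ?_))
  have : (1 + |y|) ≠ 0 := by positivity
  simp only [smul_smul]
  rw [mul_inv_cancel₀ this, one_smul]

lemma truncH_congr {f g : ℝ → E} (h : f =ᵐ[volume] g) (δ x : ℝ) : truncH f δ x = truncH g δ x := by
  unfold truncH
  congr 1
  apply integral_congr_ae
  filter_upwards [ae_restrict_of_ae h] with y hy
  rw [hy]

lemma sm_truncH {f : ℝ → E} (hf : AEStronglyMeasurable f volume) (δ : ℝ) :
    StronglyMeasurable (fun x => truncH f δ x) := by
  have e : (fun x => truncH f δ x) = fun x => truncH (hf.mk f) δ x := by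
    ext x
    exact truncH_congr hf.ae_eq_mk δ x
  rw [e]
  set g := hf.mk f with hg
  have hgm : StronglyMeasurable g := hf.stronglyMeasurable_mk
  have hs : MeasurableSet {q : ℝ × ℝ | δ < |q.2 - q.1|} :=
    measurableSet_lt measurable_const (by fun_prop)
  have h1 : StronglyMeasurable (Set.indicator {q : ℝ × ℝ | δ < |q.2 - q.1|}
      (fun q : ℝ × ℝ => (q.1 - q.2)⁻¹ • g q.2)) := by
    refine StronglyMeasurable.indicator ?_ hs
    have hm : Measurable (fun q : ℝ × ℝ => (q.1 - q.2)⁻¹) := by fun_prop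
    exact hm.stronglyMeasurable.smul (hgm.comp_measurable measurable_snd)
  have h2 := h1.integral_prod_right' (ν := volume)
  have h3 : (fun x => truncH g δ x) = fun x => (1 / Real.pi) • ∫ y,
      Set.indicator {q : ℝ × ℝ | δ < |q.2 - q.1|} (fun q : ℝ × ℝ => (q.1 - q.2)⁻¹ • g q.2) (x, y) := by
    ext x
    unfold truncH
    rw [← integral_indicator (measurableSet_far δ x)]
    rfl
  rw [h3]
  exact h2.const_smul _

lemma truncH_eq_ind (f : ℝ → E) (δ x : ℝ) : truncH f δ x = (1 / Real.pi) •
    ∫ y, {y : ℝ | δ < |y - x|}.indicator (fun y => (x - y)⁻¹ • f y) y := by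
  unfold truncH
  rw [integral_indicator (measurableSet_far δ x)]

/-- the truncation depends continuously on the cut -/
lemma continuousAt_truncH {f : ℝ → E} (hf : Integrable (fun y => (1 + |y|)⁻¹ • f y)) {δ : ℝ}
    (hδ : 0 < δ) (x : ℝ) : ContinuousAt (fun δ => truncH f δ x) δ := by
  have e : (fun δ => truncH f δ x) = fun δ => (1 / Real.pi) •
    ∫ y, {y : ℝ | δ < |y - x|}.indicator (fun y => (x - y)⁻¹ • f y) y := by
    ext δ
    exact truncH_eq_ind f δ x
  rw [e]
  refine ContinuousAt.const_smul ?_ _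
  have hi := integrableOn_far hf (half_pos hδ) x
  have hi' : Integrable ({y : ℝ | δ / 2 < |y - x|}.indicator (fun y => (x - y)⁻¹ • f y)) :=
    (integrable_indicator_iff (measurableSet_far _ _)).2 hi
  have hnear : Ioi (δ / 2) ∈ 𝓝 δ := Ioi_mem_nhds (by linarith)
  refine continuousAt_of_dominated
    (bound := fun y => ‖{y : ℝ | δ / 2 < |y - x|}.indicator (fun y => (x - y)⁻¹ • f y) y‖)
    ?_ ?_ hi'.norm ?_
  · filter_upwards [hnear] with η hη
    have hη0 : 0 < η := lt_trans (half_pos hδ) hη
    exact ((integrable_indicator_iff (measurableSet_far _ _)).2 (integrableOn_far hf hη0 x)).1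
  · filter_upwards [hnear] with η hη
    refine Eventually.of_forall (fun y => ?_)
    by_cases hy : y ∈ {y : ℝ | η < |y - x|}
    · have hη' : δ / 2 < η := hη
      have hy' : η < |y - x| := hy
      have hy2 : y ∈ {y : ℝ | δ / 2 < |y - x|} := hη'.trans hy'
      rw [indicator_of_mem hy, indicator_of_mem hy2]
    · rw [indicator_of_notMem hy, norm_zero]
      exact norm_nonneg _
  · have hne : ∀ᵐ y : ℝ, y ≠ x - δ ∧ y ≠ x + δ := by
      have h1 : ∀ᵐ y : ℝ, y ≠ x - δ := by simp [ae_iff, measure_singleton]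
      have h2 : ∀ᵐ y : ℝ, y ≠ x + δ := by simp [ae_iff, measure_singleton]
      filter_upwards [h1, h2] with y h3 h4
      exact ⟨h3, h4⟩
    filter_upwards [hne] with y hy
    have hne' : |y - x| ≠ δ := by
      intro hc
      rcases abs_eq hδ.le |>.1 hc with h | h
      · exact hy.2 (by linarith)
      · exact hy.1 (by linarith)
    rcases lt_or_gt_of_ne hne' with hlt | hgt
    · -- locally zero
      have : (fun _ : ℝ => (0 : E)) =ᶠ[𝓝 δ]
          (fun η => {y : ℝ | η < |y - x|}.indicator (fun y => (x - y)⁻¹ • f y) y) := by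
        filter_upwards [Ioi_mem_nhds hlt] with η hη
        have hη' : |y - x| < η := hη
        rw [indicator_of_notMem]
        exact not_lt.2 hη'.le
      exact continuousAt_const.congr this
    · have : (fun _ : ℝ => (x - y)⁻¹ • f y) =ᶠ[𝓝 δ]
          (fun η => {y : ℝ | η < |y - x|}.indicator (fun y => (x - y)⁻¹ • f y) y) := by
        filter_upwards [Iio_mem_nhds hgt] with η hη
        rw [indicator_of_mem]
        exact hη
      exact continuousAt_const.congr this

/-- along the rationals -/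
lemma hasPV_iff_rat {f : ℝ → E} (hf : Integrable (fun y => (1 + |y|)⁻¹ • f y)) (x : ℝ) (v : E) :
    HasPV f x v ↔ Tendsto (fun q : ℚ => truncH f q x) (comap (fun q : ℚ => (q : ℝ)) (𝓝[>] 0))
      (𝓝 v) := by
  constructor
  · intro h
    exact h.comp tendsto_comap
  · intro h
    unfold HasPV
    rw [Metric.tendsto_nhdsWithin_nhds]
    rw [Metric.tendsto_nhds] at h
    intro ε hε
    have h1 := h (ε / 2) (half_pos hε)
    rw [eventually_comap] at h1
    obtain ⟨r, hr, h2⟩ := mem_nhdsGT_iff_exists_Ioo_subset.1 h1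
    refine ⟨r, hr, ?_⟩
    intro δ hδ hδr
    have hδ0 : 0 < δ := hδ
    rw [Real.dist_eq, sub_zero, abs_of_pos hδ0] at hδr
    -- approximate by rationals
    have hc := continuousAt_truncH hf hδ0 x
    rw [Metric.continuousAt_iff] at hc
    obtain ⟨η, hη, hη2⟩ := hc (ε / 2) (half_pos hε)
    obtain ⟨q, hq1, hq2⟩ := exists_rat_btwn (show δ < min r (δ + η) by
      apply lt_min hδr; linarith)
    have h3 : dist (truncH f (q : ℝ) x) v < ε / 2 :=
      h2 (show (q : ℝ) ∈ Ioo 0 r from ⟨hδ0.trans hq1, hq2.trans_le (min_le_left _ _)⟩) q rfl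
    have h4 : dist (truncH f (q : ℝ) x) (truncH f δ x) < ε / 2 := by
      apply hη2
      rw [Real.dist_eq, abs_of_pos (by linarith)]
      have := hq2.trans_le (min_le_right _ _)
      linarith
    calc dist (truncH f δ x) v ≤ dist (truncH f δ x) (truncH f (q : ℝ) x) +
          dist (truncH f (q : ℝ) x) v := dist_triangle _ _ _
      _ < ε / 2 + ε / 2 := by
          rw [dist_comm]
          exact add_lt_add h4 h3
      _ = ε := by ring

instance : (comap (fun q : ℚ => (q : ℝ)) (𝓝[>] (0 : ℝ))).NeBot := by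
  rw [comap_neBot_iff]
  intro t ht
  obtain ⟨r, hr, h2⟩ := mem_nhdsGT_iff_exists_Ioo_subset.1 ht
  obtain ⟨q, hq1, hq2⟩ := exists_rat_btwn (show (0:ℝ) < r from hr)
  exact ⟨q, h2 ⟨hq1, hq2⟩⟩

/-- the Hilbert transform is measurable -/
theorem sm_hilbert [CompleteSpace E] {f : ℝ → E}
    (hf : Integrable (fun y => (1 + |y|)⁻¹ • f y)) : StronglyMeasurable (hilbert f) := by
  set l := comap (fun q : ℚ => (q : ℝ)) (𝓝[>] (0 : ℝ)) with hl
  have hsm : ∀ q : ℚ, StronglyMeasurable (fun x => truncH f q x) := fun q => sm_truncH (aesm_of_w hf) q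
  have h1 := MeasureTheory.StronglyMeasurable.measurableSet_exists_tendsto (l := l) hsm
  have h2 := MeasureTheory.StronglyMeasurable.limUnder (l := l) hsm
  have e : hilbert f = {x | ∃ c, Tendsto (fun q : ℚ => truncH f q x) l (𝓝 c)}.indicator
      (fun x => limUnder l (fun q : ℚ => truncH f q x)) := by
    ext x
    by_cases hx : ∃ v, HasPV f x v
    · obtain ⟨v, hv⟩ := hx
      have h3 := (hasPV_iff_rat hf x v).1 hv
      rw [indicator_of_mem (show x ∈ {x | ∃ c, Tendsto (fun q : ℚ => truncH f q x) l (𝓝 c)} from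
        ⟨v, h3⟩), hilbert_eq hv, h3.limUnder_eq]
    · rw [hilbert_eq_zero hx, indicator_of_notMem]
      rintro ⟨c, hc⟩
      exact hx ⟨c, (hasPV_iff_rat hf x c).2 hc⟩
  rw [e]
  exact h2.indicator h1

end

end Pool.Agent.TH280.MZ
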