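import Pool.Agent.TH280.MZ.Max

set_option autoImplicit false
open MeasureTheory Set
open scoped ENNReal NNReal

namespace Pool.Agent.TH280.MZ

/-- the dual weight `w^{-1/(p-1)}` -/
noncomputable def sg (p : ℝ) (w : ℝ → ℝ≥0∞) (x : ℝ) : ℝ≥0∞ := w x ^ (-(1 / (p - 1)))

/-- `A_p` weights with values in `[0, ∞)`, in integrated form -/
structure ApW (p : ℝ) (w : ℝ → ℝ≥0∞) (A : ℝ≥0∞) : Prop where
  meas : Measurable w
  fin : ∀ x, w x ≠ ⊤
  ne : ¬ w =ᵐ[volume] 0
  A_fin : A ≠ ⊤
  bd : ∀ a b : ℝ, a < b → (∫⁻ x in Ioo a b, w x) * (∫⁻ x in Ioo a b, sg p w x) ^ (p - 1) ≤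
    A * ENNReal.ofReal (b - a) ^ p

variable {p : ℝ} {w : ℝ → ℝ≥0∞} {A : ℝ≥0∞}

lemma sg_meas (hw : Measurable w) : Measurable (sg p w) := hw.pow_const _

lemma sg_ne_zero (hp : 1 < p) {x : ℝ} (hx : w x ≠ ⊤) : sg p w x ≠ 0 := by
  have h1 : 0 < 1 / (p - 1) := by
    have : 0 < p - 1 := by linarith
    positivity
  unfold sg
  rw [ENNReal.rpow_neg, ne_eq, ENNReal.inv_eq_zero]
  exact ENNReal.rpow_ne_top_of_nonneg h1.le hx

lemma int_sg_ne_zero (hp : 1 < p) (h : ApW p w A) {a b : ℝ} (hab : a < b) :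
    ∫⁻ x in Ioo a b, sg p w x ≠ 0 := by
  intro h0
  rw [lintegral_eq_zero_iff (sg_meas h.meas)] at h0
  have h1 : (volume.restrict (Ioo a b)) univ = 0 := by
    have : ∀ᵐ x ∂(volume.restrict (Ioo a b)), False := by
      filter_upwards [h0] with x hx
      exact sg_ne_zero hp (h.fin x) hx
    have h2 := ae_iff.1 this
    have e : {x : ℝ | ¬ False} = univ := by
      ext x
      constructor
      · intro _; trivial
      · intro _ hf; exact hf
    rwa [e] at h2
  rw [Measure.restrict_apply_univ, Real.volume_Ioo] at h1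
  have : 0 < b - a := by linarith
  simp only [ENNReal.ofReal_eq_zero] at h1
  linarith

lemma int_w_ne_top (hp : 1 < p) (h : ApW p w A) {a b : ℝ} (hab : a < b) :
    ∫⁻ x in Ioo a b, w x ≠ ⊤ := by
  intro h0
  have h1 := h.bd a b hab
  rw [h0, ENNReal.top_mul] at h1
  · have h2 : A * ENNReal.ofReal (b - a) ^ p ≠ ⊤ :=
      ENNReal.mul_ne_top h.A_fin (ENNReal.rpow_ne_top_of_nonneg (by linarith) ENNReal.ofReal_ne_top)
    exact h2 (top_le_iff.1 h1)
  · intro h3
    rw [ENNReal.rpow_eq_zero_iff] at h3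
    rcases h3 with h3 | h3
    · exact int_sg_ne_zero hp h hab h3.1
    · linarith [h3.2]

lemma int_w_ne_zero (hp : 1 < p) (h : ApW p w A) {a b : ℝ} (hab : a < b) :
    ∫⁻ x in Ioo a b, w x ≠ 0 := by
  intro h0
  have hp1 : 0 < p - 1 := by linarith
  rw [lintegral_eq_zero_iff h.meas] at h0
  have hsg : ∀ᵐ x ∂(volume.restrict (Ioo a b)), sg p w x = ⊤ := by
    filter_upwards [h0] with x hx
    have hx' : w x = 0 := hx
    unfold sg
    rw [hx', ENNReal.zero_rpow_of_neg]
    have : 0 < 1 / (p - 1) := by positivity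
    linarith
  have htop : ∫⁻ x in Ioo a b, sg p w x = ⊤ := by
    rw [lintegral_congr_ae hsg, lintegral_const, Measure.restrict_apply_univ, Real.volume_Ioo,
      ENNReal.top_mul]
    simp only [ne_eq, ENNReal.ofReal_eq_zero, not_le]
    linarith
  apply h.ne
  have hall : ∀ n : ℕ, ∀ᵐ x ∂(volume.restrict (Ioo (a - n) (b + n))), w x = 0 := by
    intro n
    have hn : (0 : ℝ) ≤ n := Nat.cast_nonneg n
    have h1 := h.bd (a - n) (b + n) (by linarith)
    have h2 : ∫⁻ x in Ioo (a - n) (b + n), sg p w x = ⊤ := by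
      apply top_le_iff.1
      rw [← htop]
      exact lintegral_mono_set (Ioo_subset_Ioo (by linarith) (by linarith))
    rw [h2, ENNReal.top_rpow_of_pos hp1] at h1
    have h3 : ∫⁻ x in Ioo (a - n) (b + n), w x = 0 := by
      by_contra hne
      rw [ENNReal.mul_top hne] at h1
      have h2 : A * ENNReal.ofReal ((b + n) - (a - n)) ^ p ≠ ⊤ :=
        ENNReal.mul_ne_top h.A_fin (ENNReal.rpow_ne_top_of_nonneg (by linarith)
          ENNReal.ofReal_ne_top)
      exact h2 (top_le_iff.1 h1)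
    exact (lintegral_eq_zero_iff h.meas).1 h3
  have hU : (univ : Set ℝ) = ⋃ n : ℕ, Ioo (a - n) (b + n) := by
    symm
    rw [eq_univ_iff_forall]
    intro x
    obtain ⟨n, hn⟩ := exists_nat_gt (max (a - x) (x - b))
    rw [mem_iUnion]
    refine ⟨n, ?_, ?_⟩
    · have := (le_max_left (a - x) (x - b)).trans_lt hn
      linarith
    · have := (le_max_right (a - x) (x - b)).trans_lt hn
      linarith
  have : ∀ᵐ x ∂(volume.restrict (⋃ n : ℕ, Ioo (a - n) (b + n))), w x = 0 := by
    rw [ae_restrict_iUnion_iff]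
    exact hall
  rw [← hU, Measure.restrict_univ] at this
  exact this

lemma int_sg_ne_top (hp : 1 < p) (h : ApW p w A) {a b : ℝ} (hab : a < b) :
    ∫⁻ x in Ioo a b, sg p w x ≠ ⊤ := by
  intro h0
  have hp1 : 0 < p - 1 := by linarith
  have h1 := h.bd a b hab
  rw [h0, ENNReal.top_rpow_of_pos hp1, ENNReal.mul_top (int_w_ne_zero hp h hab)] at h1
  have h2 : A * ENNReal.ofReal (b - a) ^ p ≠ ⊤ :=
    ENNReal.mul_ne_top h.A_fin (ENNReal.rpow_ne_top_of_nonneg (by linarith) ENNReal.ofReal_ne_top)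
  exact h2 (top_le_iff.1 h1)

lemma ae_of_Ioo {P : ℝ → Prop} (h : ∀ n : ℕ, ∀ᵐ x ∂(volume.restrict (Ioo (-(n : ℝ) - 1) (n + 1))), P x) :
    ∀ᵐ x, P x := by
  have hU : (univ : Set ℝ) = ⋃ n : ℕ, Ioo (-(n : ℝ) - 1) (n + 1) := by
    symm
    rw [eq_univ_iff_forall]
    intro x
    obtain ⟨n, hn⟩ := exists_nat_gt |x|
    rw [mem_iUnion]
    have := abs_lt.1 hn
    exact ⟨n, by linarith, by linarith⟩
  have : ∀ᵐ x ∂(volume.restrict (⋃ n : ℕ, Ioo (-(n : ℝ) - 1) (n + 1))), P x := by
    rw [ae_restrict_iUnion_iff]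
    exact h
  rwa [← hU, Measure.restrict_univ] at this

lemma ae_ne_zero (hp : 1 < p) (h : ApW p w A) : ∀ᵐ x, w x ≠ 0 := by
  have hp1 : 0 < p - 1 := by linarith
  apply ae_of_Ioo
  intro n
  have hn : (0 : ℝ) ≤ n := Nat.cast_nonneg n
  have h1 := ae_lt_top (sg_meas (p := p) h.meas)
    (int_sg_ne_top hp h (a := -(n : ℝ) - 1) (b := n + 1) (by linarith))
  filter_upwards [h1] with x hx hx0
  unfold sg at hx
  rw [hx0, ENNReal.zero_rpow_of_neg] at hx
  · exact lt_irrefl _ hx
  · have : 0 < 1 / (p - 1) := by positivity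
    linarith

/-- Muckenhoupt's theorem on the line. -/
theorem muckenhoupt (hp : 1 < p) (h : ApW p w A) : ∃ C : ℝ≥0∞, C ≠ ⊤ ∧ ∀ F : ℝ → ℝ≥0∞,
    Measurable F → ∫⁻ x, MX volume F x ^ p * w x ≤ C * ∫⁻ x, F x ^ p * w x := by
  have hp0 : 0 < p := by linarith
  have hp1 : 0 < p - 1 := by linarith
  set q : ℝ := p / (p - 1) with hq
  have hq1 : 1 < q := by rw [hq, lt_div_iff₀ hp1]; linarith
  have hq0 : 0 < q := by linarith
  obtain ⟨C1, hC1, h1⟩ := strong_MX hq1
  obtain ⟨C2, hC2, h2⟩ := strong_MX hp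
  set σ := sg p w with hσ
  have hσm : Measurable σ := sg_meas h.meas
  set μ : Measure ℝ := volume.withDensity w with hμ
  set ν : Measure ℝ := volume.withDensity σ with hν
  have hμI : ∀ a b : ℝ, μ (Ioo a b) = ∫⁻ x in Ioo a b, w x := fun a b =>
    withDensity_apply _ measurableSet_Ioo
  have hνI : ∀ a b : ℝ, ν (Ioo a b) = ∫⁻ x in Ioo a b, σ x := fun a b =>
    withDensity_apply _ measurableSet_Ioo
  have hμ0 : ∀ a b : ℝ, a < b → μ (Ioo a b) ≠ 0 := fun a b hab => by
    rw [hμI]; exact int_w_ne_zero hp h hab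
  have hμt : ∀ a b : ℝ, a < b → μ (Ioo a b) ≠ ⊤ := fun a b hab => by
    rw [hμI]; exact int_w_ne_top hp h hab
  have hν0 : ∀ a b : ℝ, a < b → ν (Ioo a b) ≠ 0 := fun a b hab => by
    rw [hνI]; exact int_sg_ne_zero hp h hab
  have hνt : ∀ a b : ℝ, a < b → ν (Ioo a b) ≠ ⊤ := fun a b hab => by
    rw [hνI]; exact int_sg_ne_top hp h hab
  have : SigmaFinite μ := by
    refine SigmaFinite.withDensity_of_ne_top ?_
    exact Filter.Eventually.of_forall h.fin
  have hσfin : ∀ᵐ x, σ x ≠ ⊤ := by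
    filter_upwards [ae_ne_zero hp h] with x hx
    rw [hσ]
    unfold sg
    exact ENNReal.rpow_ne_top_of_ne_zero hx (h.fin x)
  have : SigmaFinite ν := SigmaFinite.withDensity_of_ne_top hσfin
  refine ⟨A ^ q * C1 * C2, ENNReal.mul_ne_top (ENNReal.mul_ne_top
    (ENNReal.rpow_ne_top_of_nonneg hq0.le h.A_fin) hC1) hC2, ?_⟩
  intro F hF
  set f : ℝ → ℝ≥0∞ := fun x => F x / σ x with hf
  have hfm : Measurable f := hF.div hσm
  set G : ℝ → ℝ≥0∞ := fun x => MX ν f x ^ (p - 1) * (w x)⁻¹ with hG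
  have hGm : Measurable G := ((measurable_MX ν f).pow_const _).mul h.meas.inv
  -- pointwise inequality
  have key : ∀ x, MX volume F x ^ (p - 1) ≤ A * MX μ G x := by
    intro x
    have hkey : ∀ a b : ℝ, a < x → x < b →
        ((∫⁻ y in Ioo a b, F y) / volume (Ioo a b)) ^ (p - 1) ≤ A * MX μ G x := by
      intro a b ha hb
      have hab : a < b := ha.trans hb
      set L : ℝ≥0∞ := volume (Ioo a b) with hL
      have hL0 : L ≠ 0 := by
        rw [hL, Real.volume_Ioo]; simp only [ne_eq, ENNReal.ofReal_eq_zero, not_le]; linarith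
      have hLt : L ≠ ⊤ := by rw [hL, Real.volume_Ioo]; exact ENNReal.ofReal_ne_top
      set W := ∫⁻ x in Ioo a b, w x with hW
      set S := ∫⁻ x in Ioo a b, σ x with hS
      have hW0 : W ≠ 0 := int_w_ne_zero hp h hab
      have hWt : W ≠ ⊤ := int_w_ne_top hp h hab
      have hS0 : S ≠ 0 := int_sg_ne_zero hp h hab
      have hSt : S ≠ ⊤ := int_sg_ne_top hp h hab
      have hA : W * S ^ (p - 1) ≤ A * L ^ p := by
        rw [hL, Real.volume_Ioo]; exact h.bd a b hab
      -- ∫ F = ∫ f dν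
      have e1 : ∫⁻ y in Ioo a b, F y = ∫⁻ y in Ioo a b, f y ∂ν := by
        rw [hν, setLIntegral_withDensity_eq_setLIntegral_mul _ hσm hfm measurableSet_Ioo]
        apply lintegral_congr_ae
        filter_upwards [ae_restrict_of_ae hσfin] with y hy
        have hy0 : σ y ≠ 0 := sg_ne_zero hp (h.fin y)
        simp only [Pi.mul_apply, hf]
        rw [ENNReal.mul_div_cancel hy0 hy]
      set R : ℝ≥0∞ := (∫⁻ y in Ioo a b, F y) / S with hR
      have hRle : ∀ y ∈ Ioo a b, R ≤ MX ν f y := by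
        intro y hy
        have := le_MX ν f hy.1 hy.2
        rw [hνI, ← e1] at this
        exact this
      have e2 : (∫⁻ y in Ioo a b, F y) / L = (S / L) * R := by
        rw [hR, ENNReal.div_eq_inv_mul, ENNReal.div_eq_inv_mul, ENNReal.div_eq_inv_mul]
        rw [mul_assoc, ← mul_assoc S, ENNReal.mul_inv_cancel hS0 hSt, one_mul]
      have e3 : W * (R ^ (p - 1) * (L / W)) ≤ ∫⁻ y in Ioo a b, G y ∂μ := by
        rw [hμ, setLIntegral_withDensity_eq_setLIntegral_mul _ h.meas hGm measurableSet_Ioo]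
        have e4 : W * (R ^ (p - 1) * (L / W)) = ∫⁻ _ in Ioo a b, R ^ (p - 1) := by
          rw [lintegral_const, Measure.restrict_apply_univ, ← hL]
          calc W * (R ^ (p - 1) * (L / W)) = R ^ (p - 1) * (W * (L / W)) := by ring
            _ = R ^ (p - 1) * L := by rw [ENNReal.mul_div_cancel hW0 hWt]
        rw [e4]
        apply lintegral_mono_ae
        filter_upwards [ae_restrict_of_ae (ae_ne_zero hp h), ae_restrict_mem measurableSet_Ioo]
          with y hy hyI
        simp only [Pi.mul_apply, hG]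
        rw [mul_comm (w y), mul_assoc, ENNReal.inv_mul_cancel hy (h.fin y), mul_one]
        exact ENNReal.rpow_le_rpow (hRle y hyI) hp1.le
      have e5 : R ^ (p - 1) * (L / W) ≤ MX μ G x := by
        refine le_trans ?_ (le_MX μ G ha hb)
        rw [hμI, ← hW, ENNReal.le_div_iff_mul_le (Or.inl hW0) (Or.inl hWt), mul_comm]
        exact e3
      calc ((∫⁻ y in Ioo a b, F y) / L) ^ (p - 1) = (S / L) ^ (p - 1) * R ^ (p - 1) := by
            rw [e2, ENNReal.mul_rpow_of_nonneg _ _ hp1.le]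
        _ = ((S / L) ^ (p - 1) * (W / L)) * (R ^ (p - 1) * (L / W)) := by
            have : (W / L) * (L / W) = 1 := by
              rw [ENNReal.div_eq_inv_mul, ENNReal.div_eq_inv_mul]
              calc L⁻¹ * W * (W⁻¹ * L) = (L⁻¹ * L) * (W * W⁻¹) := by ring
                _ = 1 := by rw [ENNReal.inv_mul_cancel hL0 hLt, ENNReal.mul_inv_cancel hW0 hWt,
                  one_mul]
            calc (S / L) ^ (p - 1) * R ^ (p - 1)
                = (S / L) ^ (p - 1) * R ^ (p - 1) * ((W / L) * (L / W)) := by rw [this, mul_one]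
              _ = _ := by ring
        _ ≤ A * MX μ G x := by
            refine mul_le_mul' ?_ e5
            rw [ENNReal.div_rpow_of_nonneg _ _ hp1.le]
            have e6 : S ^ (p - 1) / L ^ (p - 1) * (W / L) = (W * S ^ (p - 1)) / L ^ p := by
              have : L ^ p = L ^ (p - 1) * L := by
                have := ENNReal.rpow_add (p - 1) 1 hL0 hLt
                rw [ENNReal.rpow_one, sub_add_cancel] at this
                exact this
              rw [this, ENNReal.div_eq_inv_mul, ENNReal.div_eq_inv_mul, ENNReal.div_eq_inv_mul,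
                ENNReal.mul_inv (Or.inr hLt) (Or.inr hL0)]
              ring
            rw [e6]
            apply ENNReal.div_le_of_le_mul
            exact hA
    by_cases hM : A * MX μ G x = ⊤
    · rw [hM]; exact le_top
    have h3 : MX volume F x ≤ (A * MX μ G x) ^ (1 / (p - 1)) := by
      unfold MX
      refine iSup_le fun a => iSup_le fun b => iSup_le fun hab => ?_
      have h4 := hkey a b hab.1 hab.2
      calc (∫⁻ y in Ioo a b, F y) / volume (Ioo a b)
          = (((∫⁻ y in Ioo a b, F y) / volume (Ioo a b)) ^ (p - 1)) ^ (1 / (p - 1)) := by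
            rw [← ENNReal.rpow_mul, mul_one_div_cancel hp1.ne', ENNReal.rpow_one]
        _ ≤ _ := ENNReal.rpow_le_rpow h4 (by positivity)
    calc MX volume F x ^ (p - 1) ≤ ((A * MX μ G x) ^ (1 / (p - 1))) ^ (p - 1) :=
          ENNReal.rpow_le_rpow h3 hp1.le
      _ = A * MX μ G x := by
          rw [← ENNReal.rpow_mul, one_div_mul_cancel hp1.ne', ENNReal.rpow_one]
  -- integrate
  calc ∫⁻ x, MX volume F x ^ p * w x
      ≤ ∫⁻ x, (A ^ q * MX μ G x ^ q) * w x := by
        apply lintegral_mono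
        intro x
        simp only
        gcongr
        calc MX volume F x ^ p = (MX volume F x ^ (p - 1)) ^ q := by
              rw [← ENNReal.rpow_mul, hq]
              congr 1
              field_simp
          _ ≤ (A * MX μ G x) ^ q := ENNReal.rpow_le_rpow (key x) hq0.le
          _ = _ := ENNReal.mul_rpow_of_nonneg _ _ hq0.le
    _ = A ^ q * ∫⁻ x, MX μ G x ^ q ∂μ := by
        rw [hμ, lintegral_withDensity_eq_lintegral_mul _ h.meas ((measurable_MX _ _).pow_const _),
          ← lintegral_const_mul _ (h.meas.mul ((measurable_MX _ _).pow_const _))]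
        apply lintegral_congr
        intro x
        simp only [Pi.mul_apply]
        ring
    _ ≤ A ^ q * (C1 * ∫⁻ x, G x ^ q ∂μ) := by
        gcongr
        exact h1 μ hμ0 hμt G hGm
    _ = A ^ q * (C1 * ∫⁻ x, MX ν f x ^ p ∂ν) := by
        congr 2
        rw [hμ, hν, lintegral_withDensity_eq_lintegral_mul _ h.meas (hGm.pow_const _),
          lintegral_withDensity_eq_lintegral_mul _ hσm ((measurable_MX _ _).pow_const _)]
        apply lintegral_congr_ae
        filter_upwards [ae_ne_zero hp h] with x hx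
        simp only [Pi.mul_apply, hG]
        rw [ENNReal.mul_rpow_of_nonneg _ _ hq0.le, ← ENNReal.rpow_mul]
        have e7 : (p - 1) * q = p := by rw [hq]; field_simp
        rw [e7]
        have e8 : w x * (w x)⁻¹ ^ q = σ x := by
          rw [hσ]
          unfold sg
          rw [ENNReal.inv_rpow, ← ENNReal.rpow_neg]
          have := ENNReal.rpow_add 1 (-q) hx (h.fin x)
          rw [ENNReal.rpow_one] at this
          rw [← this]
          congr 1
          rw [hq]; field_simp; ring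
        rw [← hν, ← e8]
        ring
    _ ≤ A ^ q * (C1 * (C2 * ∫⁻ x, f x ^ p ∂ν)) := by
        gcongr
        exact h2 ν hν0 hνt f hfm
    _ = A ^ q * C1 * C2 * ∫⁻ x, F x ^ p * w x := by
        have e9 : ∫⁻ x, f x ^ p ∂ν = ∫⁻ x, F x ^ p * w x := by
          rw [hν, lintegral_withDensity_eq_lintegral_mul _ hσm (hfm.pow_const _)]
          apply lintegral_congr_ae
          filter_upwards [ae_ne_zero hp h, hσfin] with x hx hx2
          have hx0 : σ x ≠ 0 := sg_ne_zero hp (h.fin x)
          simp only [Pi.mul_apply, hf]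
          rw [ENNReal.div_rpow_of_nonneg _ _ hp0.le]
          have e10 : w x = σ x / σ x ^ p := by
            have : σ x / σ x ^ p = σ x ^ (1 - p) := by
              rw [ENNReal.rpow_sub _ _ hx0 hx2, ENNReal.rpow_one]
            rw [this, hσ]
            unfold sg
            rw [← ENNReal.rpow_mul]
            have : -(1 / (p - 1)) * (1 - p) = 1 := by field_simp; ring
            rw [this, ENNReal.rpow_one]
          rw [e10, ENNReal.div_eq_inv_mul, ENNReal.div_eq_inv_mul]
          ring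
        rw [e9]
        ring

end Pool.Agent.TH280.MZ
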