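import Pool.Agent.TH280.MZ.Suf

set_option autoImplicit false
open MeasureTheory Set Filter Topology
open scoped ENNReal NNReal

namespace Pool.Agent.TH280.MZ

variable {p : ℝ}

lemma sg_mul_le (hp : 1 < p) {w : ℝ → ℝ≥0∞} {x : ℝ} (hx : w x ≠ ⊤) {s : ℝ≥0∞}
    (hs : s ≤ sg p w x) : s ^ (p - 1) * w x ≤ 1 := by
  have hp1 : 0 < p - 1 := by linarith
  rcases eq_or_ne (w x) 0 with h0 | h0
  · rw [h0, mul_zero]; exact bot_le
  · have h1 : (sg p w x) ^ (p - 1) = (w x)⁻¹ := by
      unfold sg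
      rw [← ENNReal.rpow_mul]
      have : -(1 / (p - 1)) * (p - 1) = -1 := by field_simp
      rw [this, ENNReal.rpow_neg_one]
    calc s ^ (p - 1) * w x ≤ (sg p w x) ^ (p - 1) * w x := by gcongr
      _ = 1 := by rw [h1, ENNReal.inv_mul_cancel h0 hx]

lemma pow_split (hp : 1 < p) {s : ℝ≥0∞} (hst : s ≠ ⊤) : s ^ p = s * s ^ (p - 1) := by
  rcases eq_or_ne s 0 with h0 | h0
  · rw [h0, zero_mul, ENNReal.zero_rpow_of_pos (by linarith)]
  · conv_lhs => rw [show p = 1 + (p - 1) by ring]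
    rw [ENNReal.rpow_add _ _ h0 hst, ENNReal.rpow_one]

lemma sg_pow_le (hp : 1 < p) {w : ℝ → ℝ≥0∞} {x : ℝ} (hx : w x ≠ ⊤) {s : ℝ≥0∞} (hst : s ≠ ⊤)
    (hs : s ≤ sg p w x) : s ^ p * w x ≤ s := by
  rw [pow_split hp hst, mul_assoc]
  calc s * (s ^ (p - 1) * w x) ≤ s * 1 := by
        gcongr
        exact sg_mul_le hp hx hs
    _ = s := mul_one _

/-- functions of integral one with small weighted norm, carried by a set of infinite dual mass -/
theorem conc (hp : 1 < p) {w : ℝ → ℝ≥0∞} (hw : Measurable w) (hwt : ∀ x, w x ≠ ⊤) {S : Set ℝ}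
    (hS : MeasurableSet S) (hinf : ∫⁻ x in S, sg p w x = ⊤) {η : ℝ≥0∞} (hη : η ≠ 0) :
    ∃ φ : ℝ → ℝ, Measurable φ ∧ (∀ x, 0 ≤ φ x) ∧ (∀ x, x ∉ S → φ x = 0) ∧ Integrable φ ∧
      ∫ x, φ x = 1 ∧ ∫⁻ x, ‖φ x‖ₑ ^ p * w x ≤ η := by
  have hp1 : 0 < p - 1 := by linarith
  have hp0 : 0 < p := by linarith
  have hsm : Measurable (sg p w) := sg_meas hw
  -- the truncations
  set F : ℕ → ℝ → ℝ≥0∞ := fun k => (S ∩ Icc (-(k : ℝ)) k).indicator
    (fun x => min (sg p w x) (k : ℝ≥0∞)) with hF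
  have hFm : ∀ k, Measurable (F k) := fun k =>
    (hsm.min measurable_const).indicator (hS.inter measurableSet_Icc)
  have hFle : ∀ k x, F k x ≤ (k : ℝ≥0∞) := by
    intro k x
    rw [hF]
    by_cases hx : x ∈ S ∩ Icc (-(k : ℝ)) k
    · simp only [indicator_of_mem hx]; exact min_le_right _ _
    · simp only [indicator_of_notMem hx]; exact bot_le
  have hFt : ∀ k x, F k x ≠ ⊤ := fun k x => ne_top_of_le_ne_top (ENNReal.natCast_ne_top k) (hFle k x)
  have hFsg : ∀ k x, F k x ≤ sg p w x := by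
    intro k x
    rw [hF]
    by_cases hx : x ∈ S ∩ Icc (-(k : ℝ)) k
    · simp only [indicator_of_mem hx]; exact min_le_left _ _
    · simp only [indicator_of_notMem hx]; exact bot_le
  have hmono : Monotone F := by
    intro k l hkl x
    have hkl' : (k : ℝ) ≤ l := by exact_mod_cast hkl
    by_cases hx : x ∈ S ∩ Icc (-(k : ℝ)) k
    · have hx2 : x ∈ S ∩ Icc (-(l : ℝ)) l :=
        ⟨hx.1, ⟨by linarith [hx.2.1], by linarith [hx.2.2]⟩⟩
      rw [hF]
      simp only [indicator_of_mem hx, indicator_of_mem hx2]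
      exact min_le_min le_rfl (by exact_mod_cast hkl)
    · rw [hF]
      simp only [indicator_of_notMem hx]
      exact bot_le
  have hsup : ∀ x ∈ S, ⨆ k, F k x = sg p w x := by
    intro x hx
    apply le_antisymm (iSup_le (fun k => hFsg k x))
    refine le_of_forall_lt (fun c hc => ?_)
    obtain ⟨n, hn⟩ := ENNReal.exists_nat_gt (ne_top_of_lt hc)
    obtain ⟨m, hm⟩ := exists_nat_ge |x|
    set k := max n m with hk
    have hnk : (n : ℝ≥0∞) ≤ (k : ℝ≥0∞) := by exact_mod_cast le_max_left n m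
    have hmk : (m : ℝ) ≤ k := by exact_mod_cast le_max_right n m
    have hxk : x ∈ S ∩ Icc (-(k : ℝ)) k := ⟨hx, abs_le.1 (hm.trans hmk)⟩
    refine lt_of_lt_of_le ?_ (le_iSup (fun k => F k x) k)
    show c < F k x
    rw [hF]
    simp only [indicator_of_mem hxk]
    exact lt_min hc (hn.trans_le hnk)
  have hlim : ⨆ k, ∫⁻ x, F k x = ⊤ := by
    rw [← lintegral_iSup hFm hmono, ← hinf, ← lintegral_indicator hS]
    apply lintegral_congr
    intro x
    by_cases hx : x ∈ S
    · rw [indicator_of_mem hx]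
      exact hsup x hx
    · rw [indicator_of_notMem hx]
      simp only [hF]
      rw [ENNReal.iSup_eq_zero]
      intro k
      exact indicator_of_notMem (fun h => hx h.1) _
  -- choose the level
  have hs_fin : ∀ k, ∫⁻ x, F k x ≠ ⊤ := by
    intro k
    have h1 : ∫⁻ x, F k x ≤ ∫⁻ x in Icc (-(k : ℝ)) k, (k : ℝ≥0∞) := by
      rw [← lintegral_indicator measurableSet_Icc]
      refine lintegral_mono (fun x => ?_)
      by_cases hx : x ∈ Icc (-(k : ℝ)) k
      · rw [indicator_of_mem hx]; exact hFle k x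
      · simp only [hF]
        rw [indicator_of_notMem (fun h => hx h.2), indicator_of_notMem hx]
    refine ne_top_of_le_ne_top ?_ h1
    rw [setLIntegral_const, Real.volume_Icc]
    exact ENNReal.mul_ne_top (ENNReal.natCast_ne_top k) ENNReal.ofReal_ne_top
  obtain ⟨T, hT0, hTt, hT⟩ : ∃ T : ℝ≥0∞, T ≠ 0 ∧ T ≠ ⊤ ∧ T ^ (1 - p) ≤ η := by
    rcases eq_or_ne η ⊤ with h | h
    · exact ⟨1, one_ne_zero, ENNReal.one_ne_top, by rw [h]; exact le_top⟩
    · refine ⟨η ^ (1 / (1 - p)), ?_, ?_, ?_⟩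
      · intro h0
        rw [ENNReal.rpow_eq_zero_iff] at h0
        rcases h0 with h0 | h0
        · exact hη h0.1
        · exact h h0.1
      · exact ENNReal.rpow_ne_top_of_ne_zero hη h
      · rw [← ENNReal.rpow_mul]
        have : 1 / (1 - p) * (1 - p) = 1 := by
          have : (1 - p) ≠ 0 := by linarith
          field_simp
        rw [this, ENNReal.rpow_one]
  obtain ⟨k, hk⟩ : ∃ k, T < ∫⁻ x, F k x := by
    have : T < ⨆ k, ∫⁻ x, F k x := by rw [hlim]; exact hTt.lt_top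
    exact lt_iSup_iff.1 this
  set s := ∫⁻ x, F k x with hs
  have hs0 : s ≠ 0 := (lt_of_le_of_lt bot_le hk).ne'
  have hst : s ≠ ⊤ := hs_fin k
  refine ⟨fun x => (F k x / s).toReal, ?_, fun x => ENNReal.toReal_nonneg, ?_, ?_, ?_, ?_⟩
  · exact ((hFm k).div_const s).ennreal_toReal
  · intro x hx
    have : F k x = 0 := by
      simp only [hF]
      exact indicator_of_notMem (fun h => hx h.1) _
    beta_reduce
    rw [this, ENNReal.zero_div, ENNReal.toReal_zero]
  · apply integrable_toReal_of_lintegral_ne_top ((hFm k).div_const s).aemeasurable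
    simp only [div_eq_mul_inv]
    rw [lintegral_mul_const _ (hFm k)]
    exact ENNReal.mul_ne_top hst (ENNReal.inv_ne_top.2 hs0)
  · rw [integral_toReal ((hFm k).div_const s).aemeasurable
      (Eventually.of_forall (fun x => (ENNReal.div_lt_top (hFt k x) hs0)))]
    simp only [div_eq_mul_inv]
    rw [lintegral_mul_const _ (hFm k), ENNReal.mul_inv_cancel hs0 hst, ENNReal.toReal_one]
  · have e : ∀ x, ‖(F k x / s).toReal‖ₑ = F k x * s⁻¹ := by
      intro x
      rw [Real.enorm_eq_ofReal ENNReal.toReal_nonneg,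
        ENNReal.ofReal_toReal (ENNReal.div_lt_top (hFt k x) hs0).ne, div_eq_mul_inv]
    simp only [e]
    calc ∫⁻ x, (F k x * s⁻¹) ^ p * w x = ∫⁻ x, (s⁻¹) ^ p * (F k x ^ p * w x) := by
          apply lintegral_congr
          intro x
          rw [ENNReal.mul_rpow_of_nonneg _ _ hp0.le]
          ring
      _ = (s⁻¹) ^ p * ∫⁻ x, F k x ^ p * w x := by
          have hm : Measurable (fun x => F k x ^ p * w x) := ((hFm k).pow_const p).mul hw
          rw [lintegral_const_mul _ hm]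
      _ ≤ (s⁻¹) ^ p * s := by
          gcongr
          exact lintegral_mono (fun x => sg_pow_le hp (hwt x) (hFt k x) (hFsg k x))
      _ = s ^ (1 - p) := by
          rw [ENNReal.inv_rpow, ← ENNReal.rpow_neg]
          nth_rewrite 2 [← ENNReal.rpow_one s]
          rw [← ENNReal.rpow_add _ _ hs0 hst]
          congr 1
          ring
      _ ≤ T ^ (1 - p) := by
          have : 1 - p = -(p - 1) := by ring
          rw [this, ENNReal.rpow_neg, ENNReal.rpow_neg]
          apply ENNReal.inv_le_inv.2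
          exact ENNReal.rpow_le_rpow hk.le hp1.le
      _ ≤ η := hT

/-- Holder's inequality against the dual weight -/
lemma holder_sg (hp : 1 < p) {w : ℝ → ℝ≥0∞} (hw : Measurable w) (hwt : ∀ x, w x ≠ ⊤)
    (hw0 : ∀ᵐ x, w x ≠ 0) {F : ℝ → ℝ≥0∞} (hF : Measurable F) :
    (∫⁻ x, F x) ^ p ≤ (∫⁻ x, F x ^ p * w x) * (∫⁻ x, sg p w x) ^ (p - 1) := by
  have hp0 : 0 < p := by linarith
  have hp1 : 0 < p - 1 := by linarith
  have hpq : p.HolderConjugate (p / (p - 1)) := Real.HolderConjugate.conjExponent hp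
  have hh := ENNReal.lintegral_mul_le_Lp_mul_Lq volume hpq
    (f := fun x => F x * w x ^ (1 / p)) (g := fun x => w x ^ (-(1 / p)))
    (hF.mul (hw.pow_const _)).aemeasurable (hw.pow_const _).aemeasurable
  have e1 : ∫⁻ x, ((fun x => F x * w x ^ (1 / p)) * fun x => w x ^ (-(1 / p))) x = ∫⁻ x, F x := by
    apply lintegral_congr_ae
    filter_upwards [hw0] with x hx
    simp only [Pi.mul_apply]
    rw [mul_assoc, ← ENNReal.rpow_add _ _ hx (hwt x)]
    simp
  have e2 : ∫⁻ x, (F x * w x ^ (1 / p)) ^ p = ∫⁻ x, F x ^ p * w x := by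
    apply lintegral_congr
    intro x
    rw [ENNReal.mul_rpow_of_nonneg _ _ hp0.le, ← ENNReal.rpow_mul, one_div_mul_cancel hp0.ne',
      ENNReal.rpow_one]
  have e3 : ∫⁻ x, (w x ^ (-(1 / p))) ^ (p / (p - 1)) = ∫⁻ x, sg p w x := by
    apply lintegral_congr
    intro x
    rw [← ENNReal.rpow_mul]
    unfold sg
    congr 1
    field_simp
  rw [e1, e2, e3] at hh
  calc (∫⁻ x, F x) ^ p ≤ ((∫⁻ x, F x ^ p * w x) ^ (1 / p) *
        (∫⁻ x, sg p w x) ^ (1 / (p / (p - 1)))) ^ p := ENNReal.rpow_le_rpow hh hp0.le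
    _ = _ := by
        rw [ENNReal.mul_rpow_of_nonneg _ _ hp0.le, ← ENNReal.rpow_mul, ← ENNReal.rpow_mul,
          one_div_mul_cancel hp0.ne', ENNReal.rpow_one]
        congr 2
        field_simp

/-- testing on adjacent intervals gives the `A_p` condition -/
theorem testing (hp : 1 < p) {w : ℝ → ℝ≥0∞} (hw : Measurable w) (hwt : ∀ x, w x ≠ ⊤)
    (hne : ¬ w =ᵐ[volume] 0) {K : ℝ≥0∞} (hK : K ≠ ⊤)
    (hr : ∀ a b : ℝ, a < b → ∀ g : ℝ → ℝ≥0∞, Measurable g →
      (∫⁻ x in Ioo a b, g x) ^ p * ∫⁻ x in Ioo b (b + (b - a)), w x ≤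
        K * ENNReal.ofReal (b - a) ^ p * ∫⁻ x in Ioo a b, g x ^ p * w x)
    (hl : ∀ a b : ℝ, a < b → ∀ g : ℝ → ℝ≥0∞, Measurable g →
      (∫⁻ x in Ioo a b, g x) ^ p * ∫⁻ x in Ioo (a - (b - a)) a, w x ≤
        K * ENNReal.ofReal (b - a) ^ p * ∫⁻ x in Ioo a b, g x ^ p * w x) :
    ApW p w (K * K) := by
  have hp0 : 0 < p := by linarith
  have hp1 : 0 < p - 1 := by linarith
  refine ⟨hw, hwt, hne, ENNReal.mul_ne_top hK hK, ?_⟩
  intro a b hab
  set L := ENNReal.ofReal (b - a) with hL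
  have hL0 : L ≠ 0 := by rw [hL, ne_eq, ENNReal.ofReal_eq_zero, not_le]; linarith
  have hLt : L ≠ ⊤ := ENNReal.ofReal_ne_top
  have hLp0 : L ^ p ≠ 0 := by
    intro h0
    rw [ENNReal.rpow_eq_zero_iff] at h0
    rcases h0 with h0 | h0
    · exact hL0 h0.1
    · exact hLt h0.1
  have hLpt : L ^ p ≠ ⊤ := ENNReal.rpow_ne_top_of_nonneg hp0.le hLt
  set I' := Ioo b (b + (b - a)) with hI'
  -- doubling from the right neighbour
  have hd : ∫⁻ x in Ioo a b, w x ≤ K * ∫⁻ x in I', w x := by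
    have h1 := hl b (b + (b - a)) (by linarith) (fun _ => 1) measurable_const
    simp only [setLIntegral_one, Real.volume_Ioo, ENNReal.one_rpow, one_mul] at h1
    have e1 : b + (b - a) - b = b - a := by ring
    have e2 : b - (b - a) = a := by ring
    rw [e1, e2, mul_comm, mul_comm K, mul_assoc, mul_comm (∫⁻ x in Ioo a b, w x)] at h1
    exact (ENNReal.mul_le_mul_iff_right hLp0 hLpt).1 h1
  -- the dual mass
  have hσ : (∫⁻ x in Ioo a b, sg p w x) ^ (p - 1) * ∫⁻ x in I', w x ≤ K * L ^ p := by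
    have hstep : ∀ k : ℕ, (∫⁻ x in Ioo a b, min (sg p w x) (k : ℝ≥0∞)) ^ (p - 1) *
        ∫⁻ x in I', w x ≤ K * L ^ p := by
      intro k
      set s := ∫⁻ x in Ioo a b, min (sg p w x) (k : ℝ≥0∞) with hs
      have hst : s ≠ ⊤ := by
        have : s ≤ ∫⁻ x in Ioo a b, (k : ℝ≥0∞) := lintegral_mono (fun x => min_le_right _ _)
        refine ne_top_of_le_ne_top ?_ this
        rw [setLIntegral_const, Real.volume_Ioo]
        exact ENNReal.mul_ne_top (ENNReal.natCast_ne_top k) ENNReal.ofReal_ne_top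
      rcases eq_or_ne s 0 with hs0 | hs0
      · rw [hs0, ENNReal.zero_rpow_of_pos hp1, zero_mul]; exact bot_le
      have h1 := hr a b hab (fun x => min (sg p w x) (k : ℝ≥0∞)) ((sg_meas hw).min measurable_const)
      have h2 : ∫⁻ x in Ioo a b, min (sg p w x) (k : ℝ≥0∞) ^ p * w x ≤ s := by
        refine lintegral_mono (fun x => ?_)
        exact sg_pow_le hp (hwt x) (ne_top_of_le_ne_top (ENNReal.natCast_ne_top k)
          (min_le_right _ _)) (min_le_left _ _)
      have h3 : s * (s ^ (p - 1) * ∫⁻ x in I', w x) ≤ s * (K * L ^ p) := by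
        rw [← mul_assoc, ← pow_split hp hst, mul_comm s]
        exact h1.trans (mul_le_mul' le_rfl h2)
      exact (ENNReal.mul_le_mul_iff_right hs0 hst).1 h3
    have hsup : ⨆ k : ℕ, ∫⁻ x in Ioo a b, min (sg p w x) (k : ℝ≥0∞) =
        ∫⁻ x in Ioo a b, sg p w x := by
      rw [← lintegral_iSup (fun k => (sg_meas hw).min measurable_const)]
      · apply lintegral_congr
        intro x
        apply le_antisymm (iSup_le (fun k => min_le_left _ _))
        refine le_of_forall_lt (fun c hc => ?_)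
        obtain ⟨n, hn⟩ := ENNReal.exists_nat_gt (ne_top_of_lt hc)
        exact lt_of_lt_of_le (lt_min hc hn) (le_iSup (fun k : ℕ => min (sg p w x) (k : ℝ≥0∞)) n)
      · intro k l hkl x
        exact min_le_min le_rfl (by exact_mod_cast hkl)
    have hmono : Monotone (fun k : ℕ => ∫⁻ x in Ioo a b, min (sg p w x) (k : ℝ≥0∞)) := by
      intro k l hkl
      exact lintegral_mono (fun x => min_le_min le_rfl (by exact_mod_cast hkl))
    have ht := tendsto_atTop_iSup hmono
    rw [hsup] at ht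
    have ht2 : Tendsto (fun k : ℕ => (∫⁻ x in Ioo a b, min (sg p w x) (k : ℝ≥0∞)) ^ (p - 1)) atTop
        (𝓝 ((∫⁻ x in Ioo a b, sg p w x) ^ (p - 1))) := ht.ennrpow_const _
    rcases eq_or_ne (∫⁻ x in I', w x) 0 with hz | hz
    · rw [hz, mul_zero]; exact bot_le
    · rcases eq_or_ne (∫⁻ x in I', w x) ⊤ with htp | htp
      · -- then the truncated integrals vanish
        have hz2 : ∀ k : ℕ, (∫⁻ x in Ioo a b, min (sg p w x) (k : ℝ≥0∞)) ^ (p - 1) = 0 := by
          intro k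
          by_contra hc
          have h1 := hstep k
          rw [htp, ENNReal.mul_top hc] at h1
          exact ENNReal.mul_ne_top hK hLpt (top_le_iff.1 h1)
        have h3 : (∫⁻ x in Ioo a b, sg p w x) ^ (p - 1) = 0 := by
          refine tendsto_nhds_unique ht2 ?_
          simp only [hz2]
          exact tendsto_const_nhds
        rw [h3, zero_mul]; exact bot_le
      · exact le_of_tendsto' (ENNReal.Tendsto.mul_const ht2 (Or.inr htp)) hstep
  calc (∫⁻ x in Ioo a b, w x) * (∫⁻ x in Ioo a b, sg p w x) ^ (p - 1)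
      ≤ (K * ∫⁻ x in I', w x) * (∫⁻ x in Ioo a b, sg p w x) ^ (p - 1) := by gcongr
    _ = K * ((∫⁻ x in Ioo a b, sg p w x) ^ (p - 1) * ∫⁻ x in I', w x) := by ring
    _ ≤ K * (K * L ^ p) := mul_le_mul' le_rfl hσ
    _ = _ := by ring

end Pool.Agent.TH280.MZ
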