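import Pool.Agent.TH280.MZ.Nec1

set_option autoImplicit false
open MeasureTheory Set Filter Topology
open scoped ENNReal NNReal

namespace Pool.Agent.TH280.MZ

variable {p : ℝ}

/-- off the support the kernel integral converges -/
lemma integrable_ker {g : ℝ → ℝ} (hg : Integrable g) {x r : ℝ} (hr : 0 < r)
    (h : ∀ y, |y - x| ≤ r → g y = 0) : Integrable (fun y => (x - y)⁻¹ * g y) := by
  have h1 := integrableOn_far (integrable_w_of_integrable hg) hr x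
  have h2 : (fun y => (x - y)⁻¹ * g y) =
      {y : ℝ | r < |y - x|}.indicator (fun y => (x - y)⁻¹ • g y) := by
    ext y
    by_cases hy : y ∈ {y : ℝ | r < |y - x|}
    · rw [indicator_of_mem hy, smul_eq_mul]
    · rw [indicator_of_notMem hy, h y (not_lt.1 hy), mul_zero]
  rw [h2]
  exact (integrable_indicator_iff (measurableSet_far r x)).2 h1

/-- the basic consequence of the inequality on functions of mean zero -/
theorem basicN (hp : 1 < p) {U : ℝ → ℝ} (hU : Measurable U) {C : ℝ≥0∞} (hCt : C ≠ ⊤)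
    (hC : ∀ f : ℝ → ℝ, Integrable f → ∫ x, f x = 0 →
      ∫⁻ x, ‖hilbert f x‖ₑ ^ p * ENNReal.ofReal (U x) ≤
        C * ∫⁻ x, ‖f x‖ₑ ^ p * ENNReal.ofReal (U x))
    {g : ℝ → ℝ} (hg : Integrable g) {E : Set ℝ} (hE : MeasurableSet E)
    (hgE : ∀ x ∈ E, ∃ r > 0, ∀ y, |y - x| ≤ r → g y = 0)
    {ψ : ℕ → ℝ → ℝ} (hψ : ∀ n, Integrable (ψ n)) (hψ1 : ∀ n, ∫ x, ψ n x = 1)
    (hψE : ∀ x ∈ E, ∀ᶠ n in atTop, ∃ r > 0, ∀ y, |y - x| ≤ r → ψ n y = 0)
    {κ : ℝ → ℝ} (hκ : ∀ x ∈ E, Tendsto (fun n => ∫ y, (x - y)⁻¹ * ψ n y) atTop (𝓝 (κ x)))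
    {e : ℕ → ℝ≥0∞} {e' : ℝ≥0∞} (he : ∀ n, ∫⁻ x, ‖ψ n x‖ₑ ^ p * ENNReal.ofReal (U x) ≤ e n)
    (he' : Tendsto e atTop (𝓝 e')) :
    ∫⁻ x in E, ‖(1 / Real.pi) * ((∫ y, (x - y)⁻¹ * g y) - (∫ y, g y) * κ x)‖ₑ ^ p *
        ENNReal.ofReal (U x) ≤
      C * (2 ^ (p - 1) * ((∫⁻ x, ‖g x‖ₑ ^ p * ENNReal.ofReal (U x)) + ‖∫ y, g y‖ₑ ^ p * e')) := by
  have hp0 : 0 < p := by linarith
  have h2p : (2 : ℝ≥0∞) ^ (p - 1) ≠ ⊤ := ENNReal.rpow_ne_top_of_nonneg (by linarith) (by norm_num)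
  set m := ∫ y, g y with hm
  set f : ℕ → ℝ → ℝ := fun n y => g y - m * ψ n y with hf
  have hfi : ∀ n, Integrable (f n) := fun n => hg.sub ((hψ n).const_mul m)
  have hf0 : ∀ n, ∫ y, f n y = 0 := by
    intro n
    simp only [hf]
    rw [integral_sub hg ((hψ n).const_mul m), integral_const_mul, hψ1, mul_one, ← hm, sub_self]
  have hval : ∀ x ∈ E, Tendsto (fun n => hilbert (f n) x) atTop
      (𝓝 ((1 / Real.pi) * ((∫ y, (x - y)⁻¹ * g y) - m * κ x))) := by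
    intro x hx
    have h1 : Tendsto (fun n => (1 / Real.pi) * ((∫ y, (x - y)⁻¹ * g y) -
        m * ∫ y, (x - y)⁻¹ * ψ n y)) atTop
        (𝓝 ((1 / Real.pi) * ((∫ y, (x - y)⁻¹ * g y) - m * κ x))) :=
      ((tendsto_const_nhds).sub ((hκ x hx).const_mul m)).const_mul _
    refine h1.congr' ?_
    obtain ⟨r, hr, hr2⟩ := hgE x hx
    filter_upwards [hψE x hx] with n hn
    obtain ⟨s, hs, hs2⟩ := hn
    have hpv : HasPV (f n) x ((1 / Real.pi) • ∫ y, (x - y)⁻¹ • f n y) := by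
      refine hasPV_of_far (r := min r s) (lt_min hr hs) (fun y hy => ?_)
      simp only [hf]
      rw [hr2 y (hy.trans (min_le_left _ _)), hs2 y (hy.trans (min_le_right _ _)), mul_zero,
        sub_zero]
    rw [hilbert_eq hpv, smul_eq_mul]
    congr 1
    rw [← integral_const_mul, ← integral_sub (integrable_ker hg hr hr2)
      ((integrable_ker (hψ n) hs hs2).const_mul m)]
    apply integral_congr_ae
    refine Eventually.of_forall (fun y => ?_)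
    simp only [hf, smul_eq_mul]
    ring
  set I := ∫⁻ x, ‖g x‖ₑ ^ p * ENNReal.ofReal (U x) with hI
  have hfb : ∀ n, ∫⁻ x, ‖f n x‖ₑ ^ p * ENNReal.ofReal (U x) ≤
      2 ^ (p - 1) * (I + ‖m‖ₑ ^ p * e n) := by
    intro n
    have hm1 : AEMeasurable (fun x => ‖g x‖ₑ ^ p * ENNReal.ofReal (U x)) :=
      (hg.1.enorm.pow_const p).mul hU.ennreal_ofReal.aemeasurable
    have hmt : ‖m‖ₑ ^ p ≠ ⊤ := ENNReal.rpow_ne_top_of_nonneg hp0.le enorm_ne_top
    calc ∫⁻ x, ‖f n x‖ₑ ^ p * ENNReal.ofReal (U x)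
        ≤ ∫⁻ x, 2 ^ (p - 1) * (‖g x‖ₑ ^ p * ENNReal.ofReal (U x) +
            ‖m‖ₑ ^ p * (‖ψ n x‖ₑ ^ p * ENNReal.ofReal (U x))) := by
          refine lintegral_mono (fun x => ?_)
          have h3 : ‖f n x‖ₑ ≤ ‖g x‖ₑ + ‖m‖ₑ * ‖ψ n x‖ₑ := by
            simp only [hf]
            rw [← enorm_mul]
            exact enorm_sub_le
          calc ‖f n x‖ₑ ^ p * ENNReal.ofReal (U x)
              ≤ (‖g x‖ₑ + ‖m‖ₑ * ‖ψ n x‖ₑ) ^ p * ENNReal.ofReal (U x) := by gcongr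
            _ ≤ (2 ^ (p - 1) * (‖g x‖ₑ ^ p + (‖m‖ₑ * ‖ψ n x‖ₑ) ^ p)) * ENNReal.ofReal (U x) := by
                gcongr
                exact ENNReal.rpow_add_le_mul_rpow_add_rpow _ _ hp.le
            _ = _ := by
                rw [ENNReal.mul_rpow_of_nonneg _ _ hp0.le]
                ring
      _ = 2 ^ (p - 1) * (I + ‖m‖ₑ ^ p * ∫⁻ x, ‖ψ n x‖ₑ ^ p * ENNReal.ofReal (U x)) := by
          rw [lintegral_const_mul' _ _ h2p, lintegral_add_left' hm1, lintegral_const_mul' _ _ hmt]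
      _ ≤ _ := by
          gcongr
          exact he n
  have hfat : ∫⁻ x in E, ‖(1 / Real.pi) * ((∫ y, (x - y)⁻¹ * g y) - m * κ x)‖ₑ ^ p *
        ENNReal.ofReal (U x) ≤
      ∫⁻ x in E, liminf (fun n => ‖hilbert (f n) x‖ₑ ^ p * ENNReal.ofReal (U x)) atTop := by
    refine setLIntegral_mono' hE (fun x hx => ?_)
    have h1 : Tendsto (fun n => ‖hilbert (f n) x‖ₑ ^ p * ENNReal.ofReal (U x)) atTop
        (𝓝 (‖(1 / Real.pi) * ((∫ y, (x - y)⁻¹ * g y) - m * κ x)‖ₑ ^ p *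
          ENNReal.ofReal (U x))) :=
      ENNReal.Tendsto.mul_const ((hval x hx).enorm.ennrpow_const p) (Or.inr ENNReal.ofReal_ne_top)
    rw [h1.liminf_eq]
  refine hfat.trans ((lintegral_liminf_le' (fun n => ?_)).trans ?_)
  · exact (((sm_hilbert (integrable_w_of_integrable (hfi n))).measurable.enorm.pow_const p).mul
      hU.ennreal_ofReal).aemeasurable
  · have hlim : Tendsto (fun n => C * (2 ^ (p - 1) * (I + ‖m‖ₑ ^ p * e n))) atTop
        (𝓝 (C * (2 ^ (p - 1) * (I + ‖m‖ₑ ^ p * e')))) := by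
      have hmt : ‖m‖ₑ ^ p ≠ ⊤ := ENNReal.rpow_ne_top_of_nonneg hp0.le enorm_ne_top
      exact ENNReal.Tendsto.const_mul (ENNReal.Tendsto.const_mul
        ((ENNReal.Tendsto.const_mul he' (Or.inr hmt)).const_add I) (Or.inr h2p)) (Or.inr hCt)
    rw [← hlim.liminf_eq]
    refine liminf_le_liminf (Eventually.of_forall (fun n => ?_))
    exact (setLIntegral_le_lintegral _ _).trans
      ((hC _ (hfi n) (hf0 n)).trans (mul_le_mul' le_rfl (hfb n)))

end Pool.Agent.TH280.MZ
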