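import Pool.Agent.TH280.MZ.Nec2

set_option autoImplicit false
open MeasureTheory Set Filter Topology
open scoped ENNReal NNReal

namespace Pool.Agent.TH280.MZ

variable {p : ℝ}

/-- the two neighbours of an interval -/
def Nb (a b : ℝ) (E : Set ℝ) : Prop := E = Ioo b (b + (b - a)) ∨ E = Ioo (a - (b - a)) a

lemma Nb.meas {a b : ℝ} {E : Set ℝ} (h : Nb a b E) : MeasurableSet E := by
  rcases h with h | h
  · rw [h]; exact measurableSet_Ioo
  · rw [h]; exact measurableSet_Ioo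

lemma Nb.far {a b : ℝ} {E : Set ℝ} (h : Nb a b E) {x : ℝ} (hx : x ∈ E) :
    ∃ r > 0, ∀ y, |y - x| ≤ r → y ∉ Ioo a b := by
  rcases h with h | h
  · rw [h] at hx
    refine ⟨x - b, sub_pos.2 hx.1, fun y hy hyI => ?_⟩
    have := (abs_le.1 hy).1
    linarith [hyI.2]
  · rw [h] at hx
    refine ⟨a - x, sub_pos.2 hx.2, fun y hy hyI => ?_⟩
    have := (abs_le.1 hy).2
    linarith [hyI.1]

lemma Nb.ker {a b : ℝ} (hab : a < b) {E : Set ℝ} (h : Nb a b E) {x : ℝ} (hx : x ∈ E) {g : ℝ → ℝ}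
    (hg : Integrable g) (hg0 : ∀ y, 0 ≤ g y) (hgI : ∀ y, y ∉ Ioo a b → g y = 0) :
    (2 * (b - a))⁻¹ * ∫ y, g y ≤ |∫ y, (x - y)⁻¹ * g y| := by
  obtain ⟨r, hr, hr2⟩ := h.far hx
  have hi := integrable_ker hg hr (fun y hy => hgI y (hr2 y hy))
  have hL : 0 < b - a := by linarith
  rcases h with h | h
  · rw [h] at hx
    refine le_trans ?_ (le_abs_self _)
    rw [← integral_const_mul]
    refine integral_mono (hg.const_mul _) hi (fun y => ?_)
    by_cases hy : y ∈ Ioo a b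
    · apply mul_le_mul_of_nonneg_right _ (hg0 y)
      apply inv_anti₀
      · linarith [hx.1, hy.2]
      · linarith [hx.2, hy.1]
    · simp only [hgI y hy, mul_zero, le_refl]
  · rw [h] at hx
    refine le_trans ?_ (neg_le_abs _)
    rw [← integral_const_mul, ← integral_neg]
    refine integral_mono (hg.const_mul _) hi.neg (fun y => ?_)
    by_cases hy : y ∈ Ioo a b
    · show (2 * (b - a))⁻¹ * g y ≤ -((x - y)⁻¹ * g y)
      rw [← neg_mul]
      apply mul_le_mul_of_nonneg_right _ (hg0 y)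
      rw [← inv_neg, neg_sub]
      apply inv_anti₀
      · linarith [hx.2, hy.1]
      · linarith [hx.1, hy.2]
    · simp only [hgI y hy, mul_zero, neg_zero, le_refl]

lemma iSup_rpow' (hp0 : 0 < p) (s : ℕ → ℝ≥0∞) : (⨆ n, s n) ^ p = ⨆ n, (s n) ^ p := by
  exact (ENNReal.orderIsoRpow p hp0).map_iSup s

lemma integrable_bdd_supp {g : ℝ → ℝ} (hg : Measurable g) {B : ℝ} (hB : ∀ y, |g y| ≤ B) {a b : ℝ}
    (hgI : ∀ y, y ∉ Ioo a b → g y = 0) : Integrable g := by
  have h1 : IntegrableOn g (Ioo a b) :=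
    Measure.integrableOn_of_bounded (M := B) (by rw [Real.volume_Ioo]; exact ENNReal.ofReal_ne_top)
      hg.aestronglyMeasurable (Eventually.of_forall (fun y => hB y))
  have h2 : g = (Ioo a b).indicator g := by
    ext y
    by_cases hy : y ∈ Ioo a b
    · rw [indicator_of_mem hy]
    · rw [indicator_of_notMem hy, hgI y hy]
  rw [h2]
  exact (integrable_indicator_iff measurableSet_Ioo).2 h1

/-- from bounded functions vanishing near a point to all functions -/
lemma reduce (hp : 1 < p) {w : ℝ → ℝ≥0∞} {K : ℝ≥0∞} {a b x₀ : ℝ} {E : Set ℝ}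
    (h : ∀ g : ℝ → ℝ, Measurable g → (∃ B, ∀ y, |g y| ≤ B) →
      (∀ y, 0 ≤ g y) → (∀ y, y ∉ Ioo a b → g y = 0) → (∃ r > 0, ∀ y, |y - x₀| < r → g y = 0) →
      ENNReal.ofReal (∫ y, g y) ^ p * ∫⁻ x in E, w x ≤ K * ∫⁻ y, ‖g y‖ₑ ^ p * w y)
    (G : ℝ → ℝ≥0∞) (hG : Measurable G) :
    (∫⁻ x in Ioo a b, G x) ^ p * ∫⁻ x in E, w x ≤ K * ∫⁻ x in Ioo a b, G x ^ p * w x := by
  have hp0 : 0 < p := by linarith
  set S : ℕ → Set ℝ := fun n => Ioo a b ∩ {y | 1 / ((n : ℝ) + 1) ≤ |y - x₀|} with hS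
  have hSm : ∀ n, MeasurableSet (S n) := fun n =>
    measurableSet_Ioo.inter (measurableSet_le measurable_const (by fun_prop))
  set F : ℕ → ℝ → ℝ≥0∞ := fun n => (S n).indicator (fun y => min (G y) (n : ℝ≥0∞)) with hF
  have hFm : ∀ n, Measurable (F n) := fun n => (hG.min measurable_const).indicator (hSm n)
  have hFle : ∀ n x, F n x ≤ (n : ℝ≥0∞) := by
    intro n x
    simp only [hF]
    by_cases hx : x ∈ S n
    · rw [indicator_of_mem hx]; exact min_le_right _ _
    · rw [indicator_of_notMem hx]; exact bot_le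
  have hFt : ∀ n x, F n x ≠ ⊤ := fun n x => ne_top_of_le_ne_top (ENNReal.natCast_ne_top n) (hFle n x)
  have hFG : ∀ n x, F n x ≤ G x := by
    intro n x
    simp only [hF]
    by_cases hx : x ∈ S n
    · rw [indicator_of_mem hx]; exact min_le_left _ _
    · rw [indicator_of_notMem hx]; exact bot_le
  have hF0 : ∀ n x, x ∉ Ioo a b → F n x = 0 := by
    intro n x hx
    simp only [hF]
    exact indicator_of_notMem (fun h => hx h.1) _
  have hSmono : ∀ k l : ℕ, k ≤ l → S k ⊆ S l := by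
    intro k l hkl y hy
    refine ⟨hy.1, ?_⟩
    have h1 : 1 / ((k : ℝ) + 1) ≤ |y - x₀| := hy.2
    have hkl' : (k : ℝ) ≤ l := by exact_mod_cast hkl
    have h2 : 1 / ((l : ℝ) + 1) ≤ 1 / ((k : ℝ) + 1) := by
      apply one_div_le_one_div_of_le (by positivity)
      linarith
    exact h2.trans h1
  have hmono : Monotone F := by
    intro k l hkl x
    simp only [hF]
    by_cases hx : x ∈ S k
    · rw [indicator_of_mem hx, indicator_of_mem (hSmono k l hkl hx)]
      exact min_le_min le_rfl (by exact_mod_cast hkl)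
    · rw [indicator_of_notMem hx]
      exact bot_le
  have hsup : ∀ x, x ≠ x₀ → ⨆ n, F n x = (Ioo a b).indicator G x := by
    intro x hx
    by_cases hxI : x ∈ Ioo a b
    · rw [indicator_of_mem hxI]
      apply le_antisymm (iSup_le (fun k => hFG k x))
      refine le_of_forall_lt (fun c hc => ?_)
      obtain ⟨n, hn⟩ := ENNReal.exists_nat_gt (ne_top_of_lt hc)
      obtain ⟨m, hm⟩ := exists_nat_one_div_lt (abs_pos.2 (sub_ne_zero.2 hx))
      set k := max n m with hk
      have hnk : (n : ℝ≥0∞) ≤ (k : ℝ≥0∞) := by exact_mod_cast le_max_left n m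
      have hxk : x ∈ S k := hSmono m k (le_max_right _ _) ⟨hxI, hm.le⟩
      refine lt_of_lt_of_le ?_ (le_iSup (fun k => F k x) k)
      show c < F k x
      simp only [hF]
      rw [indicator_of_mem hxk]
      exact lt_min hc (hn.trans_le hnk)
    · rw [indicator_of_notMem hxI, ENNReal.iSup_eq_zero]
      intro n
      exact hF0 n x hxI
  have hlim : ⨆ n, ∫⁻ x, F n x = ∫⁻ x in Ioo a b, G x := by
    rw [← lintegral_iSup hFm hmono, ← lintegral_indicator measurableSet_Ioo]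
    apply lintegral_congr_ae
    have hne : ∀ᵐ y : ℝ, y ≠ x₀ := by simp [ae_iff, measure_singleton]
    filter_upwards [hne] with x hx
    exact hsup x hx
  rw [← hlim, iSup_rpow' hp0, ENNReal.iSup_mul]
  refine iSup_le (fun n => ?_)
  have hgm : Measurable (fun y => (F n y).toReal) := (hFm n).ennreal_toReal
  have hgB : ∀ y, |(F n y).toReal| ≤ (n : ℝ) := by
    intro y
    rw [abs_of_nonneg ENNReal.toReal_nonneg]
    have := ENNReal.toReal_mono (ENNReal.natCast_ne_top n) (hFle n y)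
    rwa [ENNReal.toReal_natCast] at this
  have hgI : ∀ y, y ∉ Ioo a b → (F n y).toReal = 0 := by
    intro y hy
    rw [hF0 n y hy, ENNReal.toReal_zero]
  have h1 := h (fun y => (F n y).toReal) hgm ⟨n, hgB⟩ (fun y => ENNReal.toReal_nonneg) hgI (by
    refine ⟨1 / ((n : ℝ) + 1), by positivity, fun y hy => ?_⟩
    have : F n y = 0 := by
      simp only [hF]
      apply indicator_of_notMem
      intro hc
      exact absurd hc.2 (not_le.2 hy)
    rw [this, ENNReal.toReal_zero])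
  have hgi : Integrable (fun y => (F n y).toReal) := integrable_bdd_supp hgm hgB hgI
  have e1 : ENNReal.ofReal (∫ y, (F n y).toReal) = ∫⁻ x, F n x := by
    rw [ofReal_integral_eq_lintegral_ofReal hgi (Eventually.of_forall fun x =>
      ENNReal.toReal_nonneg)]
    apply lintegral_congr
    intro x
    exact ENNReal.ofReal_toReal (hFt n x)
  have e2 : ∀ y, ‖(F n y).toReal‖ₑ = F n y := by
    intro y
    rw [Real.enorm_eq_ofReal ENNReal.toReal_nonneg, ENNReal.ofReal_toReal (hFt n y)]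
  rw [e1] at h1
  simp only [e2] at h1
  refine h1.trans (mul_le_mul' le_rfl ?_)
  rw [← lintegral_indicator measurableSet_Ioo]
  refine lintegral_mono (fun x => ?_)
  by_cases hx : x ∈ Ioo a b
  · rw [indicator_of_mem hx]
    gcongr
    exact hFG n x
  · rw [hF0 n x hx, ENNReal.zero_rpow_of_pos hp0, zero_mul]
    exact bot_le

/-- A local estimate of the kernel integral on the neighbours gives the `A_p` condition. -/
theorem master (hp : 1 < p) {w : ℝ → ℝ≥0∞} (hw : Measurable w) (hwt : ∀ x, w x ≠ ⊤)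
    (hne : ¬ w =ᵐ[volume] 0) {K : ℝ≥0∞} (hK : K ≠ ⊤) (x₀ : ℝ)
    (h : ∀ a b : ℝ, a < b → ∀ E : Set ℝ, Nb a b E → ∀ g : ℝ → ℝ, Measurable g →
      (∃ B, ∀ y, |g y| ≤ B) → (∀ y, 0 ≤ g y) → (∀ y, y ∉ Ioo a b → g y = 0) →
      (∃ r > 0, ∀ y, |y - x₀| < r → g y = 0) →
      ∫⁻ x in E, ‖∫ y, (x - y)⁻¹ * g y‖ₑ ^ p * w x ≤ K * ∫⁻ y, ‖g y‖ₑ ^ p * w y) :
    ∃ A, ApW p w A := by
  have hp0 : 0 < p := by linarith
  have h2p : (2 : ℝ≥0∞) ^ p ≠ ⊤ := ENNReal.rpow_ne_top_of_nonneg (by linarith) (by norm_num)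
  have key : ∀ a b : ℝ, a < b → ∀ E : Set ℝ, Nb a b E → ∀ G : ℝ → ℝ≥0∞, Measurable G →
      (∫⁻ x in Ioo a b, G x) ^ p * ∫⁻ x in E, w x ≤
        (2 ^ p * K) * ENNReal.ofReal (b - a) ^ p * ∫⁻ x in Ioo a b, G x ^ p * w x := by
    intro a b hab E hE G hG
    have hL : 0 < b - a := by linarith
    refine reduce hp (x₀ := x₀) (fun g hg hB hg0 hgI hr => ?_) G hG
    have h1 := h a b hab E hE g hg hB hg0 hgI hr
    obtain ⟨B, hB⟩ := hB
    have hgi := integrable_bdd_supp hg hB hgI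
    set m := ∫ y, g y with hm
    have hm0 : 0 ≤ m := integral_nonneg hg0
    have h2 : ENNReal.ofReal ((2 * (b - a))⁻¹ * m) ^ p * ∫⁻ x in E, w x ≤
        ∫⁻ x in E, ‖∫ y, (x - y)⁻¹ * g y‖ₑ ^ p * w x := by
      rw [← lintegral_const_mul _ hw]
      refine setLIntegral_mono' hE.meas (fun x hx => ?_)
      gcongr
      rw [Real.enorm_eq_ofReal_abs]
      exact ENNReal.ofReal_le_ofReal (hE.ker hab hx hgi hg0 hgI)
    have h3 : ENNReal.ofReal m = ENNReal.ofReal (2 * (b - a)) *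
        ENNReal.ofReal ((2 * (b - a))⁻¹ * m) := by
      rw [← ENNReal.ofReal_mul (by linarith)]
      congr 1
      field_simp
    calc ENNReal.ofReal m ^ p * ∫⁻ x in E, w x
        = ENNReal.ofReal (2 * (b - a)) ^ p * (ENNReal.ofReal ((2 * (b - a))⁻¹ * m) ^ p *
            ∫⁻ x in E, w x) := by
          rw [h3, ENNReal.mul_rpow_of_nonneg _ _ hp0.le]
          ring
      _ ≤ ENNReal.ofReal (2 * (b - a)) ^ p * (K * ∫⁻ y, ‖g y‖ₑ ^ p * w y) :=
          mul_le_mul' le_rfl (h2.trans h1)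
      _ = _ := by
          rw [ENNReal.ofReal_mul (by norm_num), ENNReal.mul_rpow_of_nonneg _ _ hp0.le]
          norm_num
          ring
  refine ⟨_, testing hp hw hwt hne (ENNReal.mul_ne_top h2p hK)
    (fun a b hab g hg => key a b hab _ (Or.inl rfl) g hg)
    (fun a b hab g hg => key a b hab _ (Or.inr rfl) g hg)⟩

end Pool.Agent.TH280.MZ
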