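import Pool.Agent.TH280.MZ.Nec3

set_option autoImplicit false
open MeasureTheory Set Filter Topology
open scoped ENNReal NNReal

namespace Pool.Agent.TH280.MZ

variable {p : ℝ}

lemma avg_close {ψ : ℝ → ℝ} (hψ : Integrable ψ) (h0 : ∀ y, 0 ≤ ψ y) (h1 : ∫ y, ψ y = 1)
    {k : ℝ → ℝ} (hk : Integrable (fun y => k y * ψ y)) {c ε : ℝ}
    (h : ∀ y, ψ y ≠ 0 → |k y - c| ≤ ε) : |(∫ y, k y * ψ y) - c| ≤ ε := by
  have e1 : (∫ y, k y * ψ y) - c = ∫ y, (k y * ψ y - c * ψ y) := by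
    rw [integral_sub hk (hψ.const_mul c), integral_const_mul, h1, mul_one]
  rw [e1]
  have h2 : ‖∫ y, (k y * ψ y - c * ψ y)‖ ≤ ∫ y, ε * ψ y := by
    refine norm_integral_le_of_norm_le (hψ.const_mul ε) (Eventually.of_forall (fun y => ?_))
    rw [← sub_mul, norm_mul, Real.norm_eq_abs, Real.norm_of_nonneg (h0 y)]
    by_cases hy : ψ y = 0
    · rw [hy, mul_zero, mul_zero]
    · exact mul_le_mul_of_nonneg_right (h y hy) (h0 y)
  rw [integral_const_mul, h1, mul_one] at h2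
  exact h2

lemma tendsto_ofReal_inv : Tendsto (fun n : ℕ => ENNReal.ofReal (1 / ((n : ℝ) + 1))) atTop (𝓝 0) := by
  rw [← ENNReal.ofReal_zero]
  exact (ENNReal.continuous_ofReal.tendsto _).comp tendsto_one_div_add_atTop_nhds_zero_nat

/-- the first case: infinite dual mass at a point -/
theorem caseA (hp : 1 < p) {U : ℝ → ℝ} (hU : Measurable U) (hU0 : ∀ x, 0 ≤ U x)
    (hUne : ¬ U =ᵐ[volume] 0) {C : ℝ≥0∞} (hCt : C ≠ ⊤)
    (hC : ∀ f : ℝ → ℝ, Integrable f → ∫ x, f x = 0 →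
      ∫⁻ x, ‖hilbert f x‖ₑ ^ p * ENNReal.ofReal (U x) ≤
        C * ∫⁻ x, ‖f x‖ₑ ^ p * ENNReal.ofReal (U x)) {x₀ : ℝ}
    (hA : ∀ r > 0, ∫⁻ x in Ioo (x₀ - r) (x₀ + r), sg p (fun x => ENNReal.ofReal (U x)) x = ⊤) :
    ∃ A, ApW p (fun x => ENNReal.ofReal (U x / |x - x₀| ^ p)) A := by
  have hp0 : 0 < p := by linarith
  have h2p : (2 : ℝ≥0∞) ^ (p - 1) ≠ ⊤ := ENNReal.rpow_ne_top_of_nonneg (by linarith) (by norm_num)
  have hneq : ∀ᵐ y : ℝ, y ≠ x₀ := by simp [ae_iff, measure_singleton]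
  have hWm : Measurable (fun x => ENNReal.ofReal (U x / |x - x₀| ^ p)) := by
    apply Measurable.ennreal_ofReal
    apply hU.div
    have : Measurable (fun x : ℝ => |x - x₀|) := by fun_prop
    exact this.pow_const p
  have hconv : ∀ x : ℝ, x ≠ x₀ → ∀ T : ℝ, ‖T‖ₑ ^ p * ENNReal.ofReal (U x / |x - x₀| ^ p) =
      ‖(x - x₀)⁻¹ * T‖ₑ ^ p * ENNReal.ofReal (U x) := by
    intro x hx T
    have hpos : 0 < |x - x₀| := abs_pos.2 (sub_ne_zero.2 hx)
    have hpp : 0 < |x - x₀| ^ p := Real.rpow_pos_of_pos hpos _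
    rw [enorm_mul, ENNReal.mul_rpow_of_nonneg _ _ hp0.le, mul_comm (‖(x - x₀)⁻¹‖ₑ ^ p), mul_assoc]
    congr 1
    rw [Real.enorm_eq_ofReal_abs, abs_inv, ENNReal.ofReal_rpow_of_nonneg (inv_nonneg.2 hpos.le) hp0.le,
      Real.inv_rpow hpos.le, ← ENNReal.ofReal_mul (inv_nonneg.2 hpp.le)]
    congr 1
    rw [div_eq_inv_mul]
  have hWne : ¬ (fun x => ENNReal.ofReal (U x / |x - x₀| ^ p)) =ᵐ[volume] 0 := by
    intro h0
    apply hUne
    filter_upwards [h0, hneq] with x hx hx2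
    have hpos : 0 < |x - x₀| := abs_pos.2 (sub_ne_zero.2 hx2)
    have hpp : 0 < |x - x₀| ^ p := Real.rpow_pos_of_pos hpos _
    have hx' : ENNReal.ofReal (U x / |x - x₀| ^ p) = 0 := hx
    have h1 := ENNReal.ofReal_eq_zero.1 hx'
    have h2 : U x ≤ 0 := by
      rwa [div_le_iff₀ hpp, zero_mul] at h1
    exact le_antisymm h2 (hU0 x)
  have hKt : (ENNReal.ofReal Real.pi) ^ p * (C * 2 ^ (p - 1)) ≠ ⊤ :=
    ENNReal.mul_ne_top (ENNReal.rpow_ne_top_of_nonneg hp0.le ENNReal.ofReal_ne_top)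
      (ENNReal.mul_ne_top hCt h2p)
  refine master hp hWm (fun x => ENNReal.ofReal_ne_top) hWne hKt x₀ ?_
  rintro a b hab E hE g hg ⟨B, hB⟩ hg0 hgI ⟨r, hr, hgr⟩
  have hgi := integrable_bdd_supp hg hB hgI
  -- the test function
  set g₁ : ℝ → ℝ := fun y => (y - x₀)⁻¹ * g y with hg₁
  have hg₁m : Measurable g₁ := by
    have : Measurable (fun y : ℝ => (y - x₀)⁻¹) := by fun_prop
    exact this.mul hg
  have hg₁B : ∀ y, |g₁ y| ≤ r⁻¹ * B := by
    intro y
    simp only [hg₁]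
    rw [abs_mul, abs_inv]
    have hB0 : 0 ≤ B := (abs_nonneg _).trans (hB y)
    by_cases hy : |y - x₀| < r
    · rw [hgr y hy, abs_zero, mul_zero]
      positivity
    · rw [not_lt] at hy
      exact mul_le_mul (inv_anti₀ hr hy) (hB y) (abs_nonneg _) (by positivity)
  have hg₁I : ∀ y, y ∉ Ioo a b → g₁ y = 0 := by
    intro y hy
    simp only [hg₁]
    rw [hgI y hy, mul_zero]
  have hg₁i := integrable_bdd_supp hg₁m hg₁B hg₁I
  -- the concentrating functions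
  have hex : ∀ n : ℕ, ∃ φ : ℝ → ℝ, Measurable φ ∧ (∀ x, 0 ≤ φ x) ∧
      (∀ x, x ∉ Ioo (x₀ - 1 / ((n : ℝ) + 1)) (x₀ + 1 / ((n : ℝ) + 1)) → φ x = 0) ∧ Integrable φ ∧
      ∫ x, φ x = 1 ∧ ∫⁻ x, ‖φ x‖ₑ ^ p * ENNReal.ofReal (U x) ≤ ENNReal.ofReal (1 / ((n : ℝ) + 1)) := by
    intro n
    refine conc hp hU.ennreal_ofReal (fun x => ENNReal.ofReal_ne_top) measurableSet_Ioo
      (hA _ (by positivity)) ?_
    rw [ne_eq, ENNReal.ofReal_eq_zero, not_le]
    positivity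
  choose ψ hψm hψ0 hψS hψi hψ1 hψe using hex
  have hE' : MeasurableSet (E \ {x₀}) := hE.meas.diff (measurableSet_singleton x₀)
  have hnear : ∀ x ∈ E \ {x₀}, ∀ᶠ n : ℕ in atTop, 1 / ((n : ℝ) + 1) < |x - x₀| / 2 := by
    intro x hx
    have hpos : 0 < |x - x₀| / 2 := by
      have := abs_pos.2 (sub_ne_zero.2 (show x ≠ x₀ from hx.2))
      linarith
    exact tendsto_one_div_add_atTop_nhds_zero_nat.eventually (gt_mem_nhds hpos)
  have hfar : ∀ x ∈ E \ {x₀}, ∀ n : ℕ, 1 / ((n : ℝ) + 1) < |x - x₀| / 2 →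
      ∀ y, |y - x| ≤ |x - x₀| / 2 → ψ n y = 0 := by
    intro x hx n hn y hy
    apply hψS
    intro hyI
    have h1 : |y - x₀| < 1 / ((n : ℝ) + 1) := by
      rw [abs_lt]
      constructor
      · linarith [hyI.1]
      · linarith [hyI.2]
    have h2 : |x - x₀| ≤ |x - y| + |y - x₀| := by
      have := abs_add_le (x - y) (y - x₀)
      rwa [sub_add_sub_cancel] at this
    rw [abs_sub_comm] at hy
    linarith
  have hN := basicN hp hU hCt hC hg₁i hE' (fun x hx => by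
      obtain ⟨s, hs, hs2⟩ := hE.far hx.1
      exact ⟨s, hs, fun y hy => hg₁I y (hs2 y hy)⟩) hψi hψ1 (fun x hx => by
      filter_upwards [hnear x hx] with n hn
      refine ⟨|x - x₀| / 2, ?_, hfar x hx n hn⟩
      have := abs_pos.2 (sub_ne_zero.2 (show x ≠ x₀ from hx.2))
      linarith) (κ := fun x => (x - x₀)⁻¹) (fun x hx => by
      have hpos := abs_pos.2 (sub_ne_zero.2 (show x ≠ x₀ from hx.2))
      rw [tendsto_iff_dist_tendsto_zero]
      have hlim : Tendsto (fun n : ℕ => 1 / ((n : ℝ) + 1) * (2 / (|x - x₀| * |x - x₀|))) atTop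
          (𝓝 0) := by
        have := tendsto_one_div_add_atTop_nhds_zero_nat.mul_const (2 / (|x - x₀| * |x - x₀|))
        rwa [zero_mul] at this
      refine squeeze_zero' (Eventually.of_forall (fun n => dist_nonneg)) ?_ hlim
      filter_upwards [hnear x hx] with n hn
      rw [Real.dist_eq]
      refine avg_close (hψi n) (hψ0 n) (hψ1 n)
        (integrable_ker (hψi n) (half_pos hpos) (hfar x hx n hn)) (fun y hy => ?_)
      have hyI : y ∈ Ioo (x₀ - 1 / ((n : ℝ) + 1)) (x₀ + 1 / ((n : ℝ) + 1)) := by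
        by_contra hc
        exact hy (hψS n y hc)
      have h1 : |y - x₀| < 1 / ((n : ℝ) + 1) := by
        rw [abs_lt]
        constructor
        · linarith [hyI.1]
        · linarith [hyI.2]
      have h2 : |x - x₀| ≤ |x - y| + |y - x₀| := by
        have := abs_add_le (x - y) (y - x₀)
        rwa [sub_add_sub_cancel] at this
      have h3 : |x - x₀| / 2 ≤ |x - y| := by linarith
      have hxy : x - y ≠ 0 := by
        intro h0
        rw [h0, abs_zero] at h3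
        linarith
      have hxx : x - x₀ ≠ 0 := by
        intro h0
        rw [h0, abs_zero] at hpos
        exact lt_irrefl _ hpos
      have e : (x - y)⁻¹ - (x - x₀)⁻¹ = (y - x₀) / ((x - y) * (x - x₀)) := by
        field_simp
        ring
      rw [e, abs_div, abs_mul, div_eq_mul_inv]
      have h4 : (|x - y| * |x - x₀|)⁻¹ ≤ 2 / (|x - x₀| * |x - x₀|) := by
        rw [show 2 / (|x - x₀| * |x - x₀|) = ((|x - x₀| / 2) * |x - x₀|)⁻¹ by
          field_simp]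
        apply inv_anti₀ (by positivity)
        exact mul_le_mul_of_nonneg_right h3 hpos.le
      exact mul_le_mul h1.le h4 (by positivity) (by positivity)) hψe tendsto_ofReal_inv
  rw [mul_zero, add_zero] at hN
  set m := ∫ y, g₁ y with hm
  -- rewrite both sides
  have hL : ∫⁻ x in E, ‖∫ y, (x - y)⁻¹ * g y‖ₑ ^ p * ENNReal.ofReal (U x / |x - x₀| ^ p) =
      ENNReal.ofReal Real.pi ^ p * ∫⁻ x in E \ {x₀},
        ‖(1 / Real.pi) * ((∫ y, (x - y)⁻¹ * g₁ y) - m * (x - x₀)⁻¹)‖ₑ ^ p *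
          ENNReal.ofReal (U x) := by
    have hEE : (E \ {x₀} : Set ℝ) =ᵐ[volume] E := by
      apply sdiff_null_ae_eq_self
      exact measure_singleton x₀
    rw [← lintegral_const_mul' _ _ (ENNReal.rpow_ne_top_of_nonneg hp0.le ENNReal.ofReal_ne_top),
      ← setLIntegral_congr hEE]
    refine setLIntegral_congr_fun hE' (fun x hx => ?_)
    have hxx : x - x₀ ≠ 0 := sub_ne_zero.2 (show x ≠ x₀ from hx.2)
    obtain ⟨s, hs, hs2⟩ := hE.far hx.1
    have hk1 := integrable_ker hg₁i hs (fun y hy => hg₁I y (hs2 y hy))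
    have e1 : (∫ y, (x - y)⁻¹ * g₁ y) - m * (x - x₀)⁻¹ = (x - x₀)⁻¹ * ∫ y, (x - y)⁻¹ * g y := by
      rw [hm, ← integral_mul_const, ← integral_sub hk1 (hg₁i.mul_const _), ← integral_const_mul]
      apply integral_congr_ae
      refine Eventually.of_forall (fun y => ?_)
      simp only [hg₁]
      by_cases hy : y ∈ Ioo a b
      · by_cases hy2 : |y - x₀| < r
        · rw [hgr y hy2]; ring
        · have hy3 : y - x₀ ≠ 0 := by
            intro h0
            rw [h0, abs_zero] at hy2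
            exact hy2 hr
          have hxy : x - y ≠ 0 := by
            intro h0
            have : y = x := by linarith
            rw [this] at hy
            exact hs2 x (by rw [sub_self, abs_zero]; exact hs.le) hy
          field_simp
          ring
      · rw [hgI y hy]; ring
    show ‖∫ y, (x - y)⁻¹ * g y‖ₑ ^ p * ENNReal.ofReal (U x / |x - x₀| ^ p) =
      ENNReal.ofReal Real.pi ^ p *
        (‖(1 / Real.pi) * ((∫ y, (x - y)⁻¹ * g₁ y) - m * (x - x₀)⁻¹)‖ₑ ^ p * ENNReal.ofReal (U x))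
    rw [hconv x hx.2, e1, ← mul_assoc, ← ENNReal.mul_rpow_of_nonneg _ _ hp0.le]
    congr 2
    have hpi : ENNReal.ofReal Real.pi = ‖Real.pi‖ₑ := by
      rw [Real.enorm_eq_ofReal Real.pi_pos.le]
    rw [hpi, ← enorm_mul]
    congr 1
    field_simp
  have hR : ∫⁻ x, ‖g₁ x‖ₑ ^ p * ENNReal.ofReal (U x) =
      ∫⁻ y, ‖g y‖ₑ ^ p * ENNReal.ofReal (U y / |y - x₀| ^ p) := by
    apply lintegral_congr_ae
    filter_upwards [hneq] with y hy
    rw [hconv y hy]
  rw [hL, ← hR]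
  calc _ ≤ ENNReal.ofReal Real.pi ^ p * (C * (2 ^ (p - 1) *
        ∫⁻ x, ‖g₁ x‖ₑ ^ p * ENNReal.ofReal (U x))) := mul_le_mul' le_rfl hN
    _ = _ := by ring

/-- the second case: infinite dual mass at infinity -/
theorem caseB (hp : 1 < p) {U : ℝ → ℝ} (hU : Measurable U) (hU0 : ∀ x, 0 ≤ U x)
    (hUne : ¬ U =ᵐ[volume] 0) {C : ℝ≥0∞} (hCt : C ≠ ⊤)
    (hC : ∀ f : ℝ → ℝ, Integrable f → ∫ x, f x = 0 →
      ∫⁻ x, ‖hilbert f x‖ₑ ^ p * ENNReal.ofReal (U x) ≤
        C * ∫⁻ x, ‖f x‖ₑ ^ p * ENNReal.ofReal (U x))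
    (hB : ∀ n : ℕ, ∫⁻ x in (Icc (-(n : ℝ)) n)ᶜ, sg p (fun x => ENNReal.ofReal (U x)) x = ⊤) :
    ∃ A, ApW p (fun x => ENNReal.ofReal (U x)) A := by
  have hp0 : 0 < p := by linarith
  have h2p : (2 : ℝ≥0∞) ^ (p - 1) ≠ ⊤ := ENNReal.rpow_ne_top_of_nonneg (by linarith) (by norm_num)
  have hWne : ¬ (fun x => ENNReal.ofReal (U x)) =ᵐ[volume] 0 := by
    intro h0
    apply hUne
    filter_upwards [h0] with x hx
    have hx' : ENNReal.ofReal (U x) = 0 := hx
    exact le_antisymm (ENNReal.ofReal_eq_zero.1 hx') (hU0 x)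
  have hKt : (ENNReal.ofReal Real.pi) ^ p * (C * 2 ^ (p - 1)) ≠ ⊤ :=
    ENNReal.mul_ne_top (ENNReal.rpow_ne_top_of_nonneg hp0.le ENNReal.ofReal_ne_top)
      (ENNReal.mul_ne_top hCt h2p)
  refine master hp hU.ennreal_ofReal (fun x => ENNReal.ofReal_ne_top) hWne hKt 0 ?_
  rintro a b hab E hE g hg ⟨B, hB'⟩ hg0 hgI -
  have hgi := integrable_bdd_supp hg hB' hgI
  have hex : ∀ n : ℕ, ∃ φ : ℝ → ℝ, Measurable φ ∧ (∀ x, 0 ≤ φ x) ∧
      (∀ x, x ∉ (Icc (-(n : ℝ)) n)ᶜ → φ x = 0) ∧ Integrable φ ∧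
      ∫ x, φ x = 1 ∧ ∫⁻ x, ‖φ x‖ₑ ^ p * ENNReal.ofReal (U x) ≤ ENNReal.ofReal (1 / ((n : ℝ) + 1)) := by
    intro n
    refine conc hp hU.ennreal_ofReal (fun x => ENNReal.ofReal_ne_top) measurableSet_Icc.compl
      (hB n) ?_
    rw [ne_eq, ENNReal.ofReal_eq_zero, not_le]
    positivity
  choose ψ hψm hψ0 hψS hψi hψ1 hψe using hex
  have hfar : ∀ x : ℝ, ∀ n : ℕ, |x| + 1 < n → ∀ y, |y - x| ≤ 1 → ψ n y = 0 := by
    intro x n hn y hy
    apply hψS
    rw [notMem_compl_iff]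
    have h1 : |y| ≤ |y - x| + |x| := by
      have := abs_add_le (y - x) x
      rwa [sub_add_cancel] at this
    exact abs_le.1 (by linarith)
  have hN := basicN hp hU hCt hC hgi hE.meas (fun x hx => by
      obtain ⟨s, hs, hs2⟩ := hE.far hx
      exact ⟨s, hs, fun y hy => hgI y (hs2 y hy)⟩) hψi hψ1 (fun x hx => by
      obtain ⟨N, hN⟩ := exists_nat_gt (|x| + 1)
      filter_upwards [eventually_ge_atTop N] with n hn
      have hn' : (N : ℝ) ≤ n := by exact_mod_cast hn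
      exact ⟨1, one_pos, hfar x n (by linarith)⟩) (κ := fun x => 0) (fun x hx => by
      rw [tendsto_iff_dist_tendsto_zero]
      obtain ⟨N, hN⟩ := exists_nat_gt (|x| + 1)
      have hlim : Tendsto (fun n : ℕ => ((n : ℝ) - |x|)⁻¹) atTop (𝓝 0) := by
        apply Tendsto.inv_tendsto_atTop
        exact tendsto_atTop_add_const_right _ _ tendsto_natCast_atTop_atTop
      refine squeeze_zero' (Eventually.of_forall (fun n => dist_nonneg)) ?_ hlim
      filter_upwards [eventually_ge_atTop N] with n hn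
      have hn' : (N : ℝ) ≤ n := by exact_mod_cast hn
      rw [Real.dist_eq]
      refine avg_close (hψi n) (hψ0 n) (hψ1 n)
        (integrable_ker (hψi n) one_pos (hfar x n (by linarith))) (fun y hy => ?_)
      have hyI : y ∈ (Icc (-(n : ℝ)) n)ᶜ := by
        by_contra hc
        exact hy (hψS n y hc)
      have h1 : (n : ℝ) < |y| := by
        by_contra hc
        exact hyI (abs_le.1 (not_lt.1 hc))
      have h2 : |y| ≤ |x - y| + |x| := by
        have := abs_sub x (x - y)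
        rw [sub_sub_cancel] at this
        linarith
      rw [sub_zero, abs_inv]
      apply inv_anti₀
      · linarith
      · linarith) hψe tendsto_ofReal_inv
  simp only [mul_zero, add_zero, sub_zero] at hN
  have hL : ∫⁻ x in E, ‖∫ y, (x - y)⁻¹ * g y‖ₑ ^ p * ENNReal.ofReal (U x) =
      ENNReal.ofReal Real.pi ^ p * ∫⁻ x in E,
        ‖(1 / Real.pi) * (∫ y, (x - y)⁻¹ * g y)‖ₑ ^ p *
          ENNReal.ofReal (U x) := by
    rw [← lintegral_const_mul' _ _ (ENNReal.rpow_ne_top_of_nonneg hp0.le ENNReal.ofReal_ne_top)]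
    refine setLIntegral_congr_fun hE.meas (fun x hx => ?_)
    show ‖∫ y, (x - y)⁻¹ * g y‖ₑ ^ p * ENNReal.ofReal (U x) =
      ENNReal.ofReal Real.pi ^ p *
        (‖(1 / Real.pi) * (∫ y, (x - y)⁻¹ * g y)‖ₑ ^ p * ENNReal.ofReal (U x))
    rw [← mul_assoc, ← ENNReal.mul_rpow_of_nonneg _ _ hp0.le]
    congr 2
    have hpi : ENNReal.ofReal Real.pi = ‖Real.pi‖ₑ := by
      rw [Real.enorm_eq_ofReal Real.pi_pos.le]
    rw [hpi, ← enorm_mul]
    congr 1
    field_simp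
  rw [hL]
  calc _ ≤ ENNReal.ofReal Real.pi ^ p * (C * (2 ^ (p - 1) *
        ∫⁻ x, ‖g x‖ₑ ^ p * ENNReal.ofReal (U x))) := mul_le_mul' le_rfl hN
    _ = _ := by ring

end Pool.Agent.TH280.MZ
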