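import Pool.Agent.TH280.MZ.Nec4

set_option autoImplicit false
open MeasureTheory Set Filter Topology
open scoped ENNReal NNReal

namespace Pool.Agent.TH280.MZ

variable {p : ℝ}

lemma meas_ker {f : ℝ → ℝ} (hf : Measurable f) : Measurable (fun x => ∫ y, (x - y)⁻¹ * f y) := by
  have h1 : Measurable (fun q : ℝ × ℝ => (q.1 - q.2)⁻¹ * f q.2) := by
    have : Measurable (fun q : ℝ × ℝ => (q.1 - q.2)⁻¹) := by fun_prop
    exact this.mul (hf.comp measurable_snd)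
  exact (h1.stronglyMeasurable.integral_prod_right' (ν := volume)).measurable

lemma lower_dip {x : ℝ} (hx : 1 < |x|) :
    (3 * x ^ 2)⁻¹ ≤ ∫ y in Icc (-1 : ℝ) 1, (x - y)⁻¹ * y := by
  have hx2 : 1 < x ^ 2 := by
    rw [← sq_abs]; nlinarith
  have hx0 : x ≠ 0 := by
    intro h0
    rw [h0, abs_zero] at hx
    linarith
  have hpos : ∀ y ∈ Icc (-1 : ℝ) 1, 0 < x * (x - y) := by
    intro y hy
    have h1 : |x * y| ≤ |x| := by
      rw [abs_mul]
      have : |y| ≤ 1 := abs_le.2 hy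
      nlinarith [abs_nonneg x]
    have h2 := (abs_le.1 h1).2
    have h3 : |x| < x ^ 2 := by rw [← sq_abs]; nlinarith
    nlinarith
  have hle : ∀ y ∈ Icc (-1 : ℝ) 1, x * (x - y) ≤ 2 * x ^ 2 := by
    intro y hy
    have h1 : |x * y| ≤ |x| := by
      rw [abs_mul]
      have : |y| ≤ 1 := abs_le.2 hy
      nlinarith [abs_nonneg x]
    have h2 := (abs_le.1 h1).1
    have h3 : |x| < x ^ 2 := by rw [← sq_abs]; nlinarith
    nlinarith
  have hne : ∀ y ∈ Icc (-1 : ℝ) 1, x - y ≠ 0 := by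
    intro y hy h0
    have := hpos y hy
    rw [h0, mul_zero] at this
    exact lt_irrefl _ this
  have hc1 : ContinuousOn (fun y : ℝ => (x - y)⁻¹) (Icc (-1) 1) :=
    (continuousOn_const.sub continuousOn_id).inv₀ hne
  have hi1 : IntegrableOn (fun y : ℝ => x⁻¹ * y) (Icc (-1) 1) :=
    (Continuous.continuousOn (by fun_prop)).integrableOn_Icc
  have hi2 : IntegrableOn (fun y : ℝ => x⁻¹ * (x - y)⁻¹ * y ^ 2) (Icc (-1) 1) :=
    ((continuousOn_const.mul hc1).mul (Continuous.continuousOn (by fun_prop))).integrableOn_Icc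
  have hi3 : IntegrableOn (fun y : ℝ => (2 * x ^ 2)⁻¹ * y ^ 2) (Icc (-1) 1) :=
    (Continuous.continuousOn (by fun_prop)).integrableOn_Icc
  have e0 : ∫ y in Icc (-1 : ℝ) 1, x⁻¹ * y = 0 := by
    rw [integral_const_mul, integral_Icc_eq_integral_Ioc, ← intervalIntegral.integral_of_le
      (by norm_num), integral_id]
    norm_num
  have e3 : ∫ y in Icc (-1 : ℝ) 1, (2 * x ^ 2)⁻¹ * y ^ 2 = (3 * x ^ 2)⁻¹ := by
    rw [integral_const_mul, integral_Icc_eq_integral_Ioc, ← intervalIntegral.integral_of_le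
      (by norm_num), integral_pow]
    field_simp
    norm_num
  have e1 : ∫ y in Icc (-1 : ℝ) 1, (x - y)⁻¹ * y =
      (∫ y in Icc (-1 : ℝ) 1, x⁻¹ * y) + ∫ y in Icc (-1 : ℝ) 1, x⁻¹ * (x - y)⁻¹ * y ^ 2 := by
    rw [← integral_add hi1 hi2]
    refine setIntegral_congr_fun measurableSet_Icc (fun y hy => ?_)
    have := hne y hy
    field_simp
    ring
  rw [e1, e0, zero_add, ← e3]
  refine setIntegral_mono_on hi3 hi2 measurableSet_Icc (fun y hy => ?_)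
  apply mul_le_mul_of_nonneg_right _ (sq_nonneg y)
  rw [← mul_inv]
  exact inv_anti₀ (hpos y hy) (hle y hy)

/-- the weight is not too large at infinity -/
lemma tail_fin (hp : 1 < p) {U : ℝ → ℝ} (hUl : ∀ R : ℝ, ∫⁻ x in Icc (-R) R, ENNReal.ofReal (U x) ≠ ⊤)
    {C : ℝ≥0∞} (hCt : C ≠ ⊤)
    (hC : ∀ f : ℝ → ℝ, Integrable f → ∫ x, f x = 0 →
      ∫⁻ x, ‖hilbert f x‖ₑ ^ p * ENNReal.ofReal (U x) ≤
        C * ∫⁻ x, ‖f x‖ₑ ^ p * ENNReal.ofReal (U x)) :
    ∫⁻ x, ENNReal.ofReal (1 + x ^ 2)⁻¹ ^ p * ENNReal.ofReal (U x) ≠ ⊤ := by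
  have hp0 : 0 < p := by linarith
  set f : ℝ → ℝ := (Icc (-1 : ℝ) 1).indicator (fun y => y) with hf
  have hfi : Integrable f := by
    rw [hf, integrable_indicator_iff measurableSet_Icc]
    exact continuousOn_id.integrableOn_Icc
  have hf0 : ∫ y, f y = 0 := by
    rw [hf, integral_indicator measurableSet_Icc, integral_Icc_eq_integral_Ioc,
      ← intervalIntegral.integral_of_le (by norm_num), integral_id]
    norm_num
  have h1 := hC f hfi hf0
  have hU1 := hUl 1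
  have hfb : ∫⁻ x, ‖f x‖ₑ ^ p * ENNReal.ofReal (U x) ≤
      ∫⁻ x in Icc (-1 : ℝ) 1, ENNReal.ofReal (U x) := by
    rw [← lintegral_indicator measurableSet_Icc]
    refine lintegral_mono (fun x => ?_)
    by_cases hx : x ∈ Icc (-1 : ℝ) 1
    · rw [indicator_of_mem hx]
      have h2 : ‖f x‖ₑ ^ p ≤ 1 := by
        rw [hf, indicator_of_mem hx]
        apply ENNReal.rpow_le_one _ hp0.le
        rw [Real.enorm_eq_ofReal_abs, ← ENNReal.ofReal_one]
        exact ENNReal.ofReal_le_ofReal (abs_le.2 hx)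
      calc ‖f x‖ₑ ^ p * ENNReal.ofReal (U x) ≤ 1 * ENNReal.ofReal (U x) := by gcongr
        _ = _ := one_mul _
    · rw [hf, indicator_of_notMem hx, enorm_zero, ENNReal.zero_rpow_of_pos hp0, zero_mul]
      exact bot_le
  have hval : ∀ x ∈ (Icc (-1 : ℝ) 1)ᶜ, ENNReal.ofReal (1 + x ^ 2)⁻¹ ≤
      ENNReal.ofReal (3 * Real.pi) * ‖hilbert f x‖ₑ := by
    intro x hx
    have hx1 : 1 < |x| := by
      by_contra hc
      exact hx (abs_le.1 (not_lt.1 hc))
    have hpv : HasPV f x ((1 / Real.pi) • ∫ y, (x - y)⁻¹ • f y) := by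
      refine hasPV_of_far (r := (|x| - 1) / 2) (by linarith) (fun y hy => ?_)
      rw [hf]
      apply indicator_of_notMem
      intro hyI
      have h2 : |y| ≤ 1 := abs_le.2 hyI
      have h3 : |x| ≤ |y - x| + |y| := by
        have := abs_sub y (y - x)
        rw [sub_sub_cancel] at this
        linarith
      linarith
    have e1 : ∫ y, (x - y)⁻¹ • f y = ∫ y in Icc (-1 : ℝ) 1, (x - y)⁻¹ * y := by
      rw [← integral_indicator measurableSet_Icc]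
      congr 1
      ext y
      rw [hf]
      by_cases hy : y ∈ Icc (-1 : ℝ) 1
      · rw [indicator_of_mem hy, indicator_of_mem hy, smul_eq_mul]
      · rw [indicator_of_notMem hy, indicator_of_notMem hy, smul_zero]
    have h4 := lower_dip hx1
    have hx2 : 0 < x ^ 2 := by
      have : x ≠ 0 := by
        intro h0
        rw [h0, abs_zero] at hx1
        linarith
      positivity
    rw [hilbert_eq hpv, e1, Real.enorm_eq_ofReal_abs, ← ENNReal.ofReal_mul (by positivity)]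
    apply ENNReal.ofReal_le_ofReal
    rw [smul_eq_mul, abs_mul, abs_of_pos (by positivity : 0 < 1 / Real.pi)]
    have h5 : (3 * x ^ 2)⁻¹ ≤ |∫ y in Icc (-1 : ℝ) 1, (x - y)⁻¹ * y| := h4.trans (le_abs_self _)
    calc (1 + x ^ 2)⁻¹ ≤ (x ^ 2)⁻¹ := inv_anti₀ hx2 (by linarith)
      _ = 3 * (3 * x ^ 2)⁻¹ := by field_simp
      _ ≤ 3 * |∫ y in Icc (-1 : ℝ) 1, (x - y)⁻¹ * y| := by linarith
      _ = _ := by
          have := Real.pi_pos.ne'
          field_simp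
  rw [← lintegral_add_compl _ (measurableSet_Icc (a := (-1 : ℝ)) (b := 1))]
  refine ENNReal.add_ne_top.2 ⟨?_, ?_⟩
  · refine ne_top_of_le_ne_top hU1 (lintegral_mono (fun x => ?_))
    have h2 : ENNReal.ofReal (1 + x ^ 2)⁻¹ ^ p ≤ 1 := by
      apply ENNReal.rpow_le_one _ hp0.le
      rw [← ENNReal.ofReal_one]
      apply ENNReal.ofReal_le_ofReal
      apply inv_le_one_of_one_le₀
      nlinarith [sq_nonneg x]
    calc ENNReal.ofReal (1 + x ^ 2)⁻¹ ^ p * ENNReal.ofReal (U x) ≤ 1 * ENNReal.ofReal (U x) := by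
          gcongr
      _ = _ := one_mul _
  · have h3 : ∫⁻ x in (Icc (-1 : ℝ) 1)ᶜ, ENNReal.ofReal (1 + x ^ 2)⁻¹ ^ p * ENNReal.ofReal (U x) ≤
        ENNReal.ofReal (3 * Real.pi) ^ p * (C * ∫⁻ x in Icc (-1 : ℝ) 1, ENNReal.ofReal (U x)) := by
      calc ∫⁻ x in (Icc (-1 : ℝ) 1)ᶜ, ENNReal.ofReal (1 + x ^ 2)⁻¹ ^ p * ENNReal.ofReal (U x)
          ≤ ∫⁻ x in (Icc (-1 : ℝ) 1)ᶜ, ENNReal.ofReal (3 * Real.pi) ^ p *
              (‖hilbert f x‖ₑ ^ p * ENNReal.ofReal (U x)) := by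
            refine setLIntegral_mono' measurableSet_Icc.compl (fun x hx => ?_)
            rw [← mul_assoc, ← ENNReal.mul_rpow_of_nonneg _ _ hp0.le]
            gcongr
            exact hval x hx
        _ = ENNReal.ofReal (3 * Real.pi) ^ p * ∫⁻ x in (Icc (-1 : ℝ) 1)ᶜ,
              ‖hilbert f x‖ₑ ^ p * ENNReal.ofReal (U x) :=
            lintegral_const_mul' _ _ (ENNReal.rpow_ne_top_of_nonneg hp0.le ENNReal.ofReal_ne_top)
        _ ≤ _ := by
            refine mul_le_mul' le_rfl ?_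
            exact (setLIntegral_le_lintegral _ _).trans (h1.trans (mul_le_mul' le_rfl hfb))
    refine ne_top_of_le_ne_top ?_ h3
    exact ENNReal.mul_ne_top (ENNReal.rpow_ne_top_of_nonneg hp0.le ENNReal.ofReal_ne_top)
      (ENNReal.mul_ne_top hCt hU1)

/-- the estimate away from a fixed interval -/
lemma est_J (hp : 1 < p) {U : ℝ → ℝ} (hU : Measurable U)
    (hUl : ∀ R : ℝ, ∫⁻ x in Icc (-R) R, ENNReal.ofReal (U x) ≠ ⊤)
    (hU1 : ∀ᵐ x, ENNReal.ofReal (U x) ≠ 0)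
    {C : ℝ≥0∞} (hCt : C ≠ ⊤)
    (hC : ∀ f : ℝ → ℝ, Integrable f → ∫ x, f x = 0 →
      ∫⁻ x, ‖hilbert f x‖ₑ ^ p * ENNReal.ofReal (U x) ≤
        C * ∫⁻ x, ‖f x‖ₑ ^ p * ENNReal.ofReal (U x))
    (hσ : ∫⁻ x, sg p (fun x => ENNReal.ofReal (U x)) x ≠ ⊤) {c : ℝ} (hc0 : 0 ≤ c) (hc4 : c ≤ 4) :
    ∃ K : ℝ≥0∞, K ≠ ⊤ ∧ ∀ g : ℝ → ℝ, Measurable g → Integrable g → ∀ E : Set ℝ, MeasurableSet E →
      (∀ x ∈ E, ∃ r > 0, ∀ y, |y - x| ≤ r → g y = 0) → (∀ x ∈ E, x ≤ c - 1 ∨ c + 2 ≤ x) →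
      ∫⁻ x in E, ‖(1 / Real.pi) * ((∫ y, (x - y)⁻¹ * g y) - (∫ y, g y) * (x / (1 + x ^ 2)))‖ₑ ^ p *
        ENNReal.ofReal (U x) ≤ K * ∫⁻ x, ‖g x‖ₑ ^ p * ENNReal.ofReal (U x) := by
  have hp0 : 0 < p := by linarith
  have hp1 : 0 < p - 1 := by linarith
  have h2p : (2 : ℝ≥0∞) ^ (p - 1) ≠ ⊤ := ENNReal.rpow_ne_top_of_nonneg (by linarith) (by norm_num)
  set h : ℝ → ℝ := (Ioo c (c + 1)).indicator (fun _ => (1 : ℝ)) with hh
  have hhi : Integrable h := by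
    rw [hh, integrable_indicator_iff measurableSet_Ioo]
    have hv : volume (Ioo c (c + 1)) ≠ ⊤ := by
      rw [Real.volume_Ioo]; exact ENNReal.ofReal_ne_top
    have hn : ‖(1 : ℝ)‖ₑ ≠ ⊤ := enorm_ne_top
    exact integrableOn_const hv hn
  have hh1 : ∫ y, h y = 1 := by
    rw [hh, integral_indicator measurableSet_Ioo, setIntegral_const, measureReal_def,
      Real.volume_Ioo, ENNReal.toReal_ofReal (by linarith), smul_eq_mul]
    ring
  have hh0 : ∀ y, 0 ≤ h y := by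
    intro y
    rw [hh]
    exact indicator_nonneg (fun _ _ => zero_le_one) y
  set e := ∫⁻ x, ‖h x‖ₑ ^ p * ENNReal.ofReal (U x) with he
  have het : e ≠ ⊤ := by
    have h1 : e ≤ ∫⁻ x in Icc (-5 : ℝ) 5, ENNReal.ofReal (U x) := by
      rw [he, ← lintegral_indicator measurableSet_Icc]
      refine lintegral_mono (fun x => ?_)
      by_cases hx : x ∈ Ioo c (c + 1)
      · have hx2 : x ∈ Icc (-5 : ℝ) 5 := ⟨by linarith [hx.1], by linarith [hx.2]⟩
        rw [indicator_of_mem hx2, hh, indicator_of_mem hx]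
        simp
      · rw [hh, indicator_of_notMem hx, enorm_zero, ENNReal.zero_rpow_of_pos hp0, zero_mul]
        exact bot_le
    exact ne_top_of_le_ne_top (hUl 5) h1
  set Q := ∫⁻ x, ENNReal.ofReal (1 + x ^ 2)⁻¹ ^ p * ENNReal.ofReal (U x) with hQ
  have hQt : Q ≠ ⊤ := tail_fin hp hUl hCt hC
  set s := (∫⁻ x, sg p (fun x => ENNReal.ofReal (U x)) x) ^ (p - 1) with hs
  have hst : s ≠ ⊤ := ENNReal.rpow_ne_top_of_nonneg hp1.le hσ
  have h31 : ENNReal.ofReal 31 ^ p ≠ ⊤ := ENNReal.rpow_ne_top_of_nonneg hp0.le ENNReal.ofReal_ne_top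
  refine ⟨2 ^ (p - 1) * (C * (2 ^ (p - 1) * (1 + s * e)) + s * (ENNReal.ofReal 31 ^ p * Q)), ?_, ?_⟩
  · refine ENNReal.mul_ne_top h2p (ENNReal.add_ne_top.2 ⟨?_, ?_⟩)
    · exact ENNReal.mul_ne_top hCt (ENNReal.mul_ne_top h2p (ENNReal.add_ne_top.2
        ⟨ENNReal.one_ne_top, ENNReal.mul_ne_top hst het⟩))
    · exact ENNReal.mul_ne_top hst (ENNReal.mul_ne_top h31 hQt)
  intro g hg hgi E hE hgE hEc
  set m := ∫ y, g y with hm
  set I := ∫⁻ x, ‖g x‖ₑ ^ p * ENNReal.ofReal (U x) with hI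
  -- the mean
  have hmb : ‖m‖ₑ ^ p ≤ I * s := by
    have h1 : ‖m‖ₑ ≤ ∫⁻ y, ‖g y‖ₑ := enorm_integral_le_lintegral_enorm _
    calc ‖m‖ₑ ^ p ≤ (∫⁻ y, ‖g y‖ₑ) ^ p := by gcongr
      _ ≤ _ := holder_sg hp hU.ennreal_ofReal (fun x => ENNReal.ofReal_ne_top) hU1 hg.enorm
  have hmt : ‖m‖ₑ ^ p ≠ ⊤ := ENNReal.rpow_ne_top_of_nonneg hp0.le enorm_ne_top
  -- distance from the interval
  have hdist : ∀ x ∈ E, ∀ y ∈ Ioo c (c + 1), 1 ≤ |x - y| := by
    intro x hx y hy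
    rcases hEc x hx with h1 | h1
    · rw [abs_sub_comm]
      exact le_trans (by linarith [hy.1]) (le_abs_self _)
    · exact le_trans (by linarith [hy.2]) (le_abs_self _)
  have hhfar : ∀ x ∈ E, ∀ y, |y - x| ≤ 1 / 2 → h y = 0 := by
    intro x hx y hy
    rw [hh]
    apply indicator_of_notMem
    intro hyI
    have := hdist x hx y hyI
    rw [abs_sub_comm] at this
    linarith
  have hN := basicN hp hU hCt hC hgi hE hgE (ψ := fun _ => h) (fun _ => hhi) (fun _ => hh1)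
    (fun x hx => Eventually.of_forall (fun n => ⟨1 / 2, by norm_num, hhfar x hx⟩))
    (κ := fun x => ∫ y, (x - y)⁻¹ * h y) (fun x hx => tendsto_const_nhds)
    (e := fun _ => e) (e' := e) (fun n => le_rfl) tendsto_const_nhds
  -- comparison of the kernels
  have hκ : ∀ x ∈ E, |(∫ y, (x - y)⁻¹ * h y) - x / (1 + x ^ 2)| ≤ 31 * (1 + x ^ 2)⁻¹ := by
    intro x hx
    refine avg_close hhi hh0 hh1 (integrable_ker hhi (by norm_num) (hhfar x hx)) (fun y hy => ?_)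
    have hyI : y ∈ Ioo c (c + 1) := by
      by_contra hc
      apply hy
      rw [hh]
      exact indicator_of_notMem hc _
    have h1 := hdist x hx y hyI
    have hxy : x - y ≠ 0 := by
      intro h0
      rw [h0, abs_zero] at h1
      linarith
    have hx1 : 0 < 1 + x ^ 2 := by positivity
    have e1 : (x - y)⁻¹ - x / (1 + x ^ 2) = ((1 + y ^ 2) * (x - y)⁻¹ + y) * (1 + x ^ 2)⁻¹ := by
      field_simp
      ring
    rw [e1, abs_mul, abs_of_pos (inv_pos.2 hx1)]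
    apply mul_le_mul_of_nonneg_right _ (inv_pos.2 hx1).le
    have hy5 : |y| ≤ 5 := abs_le.2 ⟨by linarith [hyI.1], by linarith [hyI.2]⟩
    have hy25 : 1 + y ^ 2 ≤ 26 := by
      rw [← sq_abs]; nlinarith [abs_nonneg y]
    have h2 : |(1 + y ^ 2) * (x - y)⁻¹| ≤ 26 := by
      rw [abs_mul, abs_inv, abs_of_pos (by positivity : 0 < 1 + y ^ 2)]
      have h3 : |x - y|⁻¹ ≤ 1 := inv_le_one_of_one_le₀ h1
      calc (1 + y ^ 2) * |x - y|⁻¹ ≤ 26 * 1 := mul_le_mul hy25 h3 (by positivity) (by norm_num)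
        _ = 26 := by norm_num
    have := abs_add_le ((1 + y ^ 2) * (x - y)⁻¹) y
    linarith
  have hpt : ∀ x ∈ E,
      ‖(1 / Real.pi) * ((∫ y, (x - y)⁻¹ * g y) - m * (x / (1 + x ^ 2)))‖ₑ ≤
      ‖(1 / Real.pi) * ((∫ y, (x - y)⁻¹ * g y) - m * ∫ y, (x - y)⁻¹ * h y)‖ₑ +
        ‖m‖ₑ * (ENNReal.ofReal 31 * ENNReal.ofReal (1 + x ^ 2)⁻¹) := by
    intro x hx
    have hpi : 1 / Real.pi ≤ 1 := by
      rw [div_le_one Real.pi_pos]
      linarith [Real.pi_gt_three]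
    have e1 : (1 / Real.pi) * ((∫ y, (x - y)⁻¹ * g y) - m * (x / (1 + x ^ 2))) =
        (1 / Real.pi) * ((∫ y, (x - y)⁻¹ * g y) - m * ∫ y, (x - y)⁻¹ * h y) +
        m * ((1 / Real.pi) * ((∫ y, (x - y)⁻¹ * h y) - x / (1 + x ^ 2))) := by ring
    rw [e1]
    refine (enorm_add_le _ _).trans ?_
    gcongr
    rw [enorm_mul]
    gcongr
    rw [← ENNReal.ofReal_mul (by norm_num), Real.enorm_eq_ofReal_abs]
    apply ENNReal.ofReal_le_ofReal
    rw [abs_mul, abs_of_pos (by positivity : 0 < 1 / Real.pi)]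
    calc (1 / Real.pi) * |(∫ y, (x - y)⁻¹ * h y) - x / (1 + x ^ 2)|
        ≤ 1 * (31 * (1 + x ^ 2)⁻¹) := mul_le_mul hpi (hκ x hx) (abs_nonneg _) zero_le_one
      _ = _ := one_mul _
  have hmeas2 : Measurable (fun x : ℝ => ‖m‖ₑ ^ p * (ENNReal.ofReal 31 ^ p *
      (ENNReal.ofReal (1 + x ^ 2)⁻¹ ^ p * ENNReal.ofReal (U x)))) := by
    have h1 : Measurable (fun x : ℝ => ENNReal.ofReal (1 + x ^ 2)⁻¹) := by
      apply Measurable.ennreal_ofReal
      fun_prop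
    exact (((h1.pow_const p).mul hU.ennreal_ofReal).const_mul _).const_mul _
  calc ∫⁻ x in E, ‖(1 / Real.pi) * ((∫ y, (x - y)⁻¹ * g y) - m * (x / (1 + x ^ 2)))‖ₑ ^ p *
        ENNReal.ofReal (U x)
      ≤ ∫⁻ x in E, 2 ^ (p - 1) *
          (‖(1 / Real.pi) * ((∫ y, (x - y)⁻¹ * g y) - m * ∫ y, (x - y)⁻¹ * h y)‖ₑ ^ p *
            ENNReal.ofReal (U x) + ‖m‖ₑ ^ p * (ENNReal.ofReal 31 ^ p *
              (ENNReal.ofReal (1 + x ^ 2)⁻¹ ^ p * ENNReal.ofReal (U x)))) := by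
        refine setLIntegral_mono' hE (fun x hx => ?_)
        calc _ ≤ (‖(1 / Real.pi) * ((∫ y, (x - y)⁻¹ * g y) - m * ∫ y, (x - y)⁻¹ * h y)‖ₑ +
              ‖m‖ₑ * (ENNReal.ofReal 31 * ENNReal.ofReal (1 + x ^ 2)⁻¹)) ^ p *
                ENNReal.ofReal (U x) := by
              gcongr
              exact hpt x hx
          _ ≤ (2 ^ (p - 1) *
              (‖(1 / Real.pi) * ((∫ y, (x - y)⁻¹ * g y) - m * ∫ y, (x - y)⁻¹ * h y)‖ₑ ^ p +
              (‖m‖ₑ * (ENNReal.ofReal 31 * ENNReal.ofReal (1 + x ^ 2)⁻¹)) ^ p)) *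
                ENNReal.ofReal (U x) := by
              gcongr
              exact ENNReal.rpow_add_le_mul_rpow_add_rpow _ _ hp.le
          _ = _ := by
              rw [ENNReal.mul_rpow_of_nonneg _ _ hp0.le, ENNReal.mul_rpow_of_nonneg _ _ hp0.le]
              ring
    _ = 2 ^ (p - 1) * ((∫⁻ x in E,
          ‖(1 / Real.pi) * ((∫ y, (x - y)⁻¹ * g y) - m * ∫ y, (x - y)⁻¹ * h y)‖ₑ ^ p *
            ENNReal.ofReal (U x)) + (∫⁻ x in E, ‖m‖ₑ ^ p * (ENNReal.ofReal 31 ^ p *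
              (ENNReal.ofReal (1 + x ^ 2)⁻¹ ^ p * ENNReal.ofReal (U x))))) := by
        rw [lintegral_const_mul' _ _ h2p, lintegral_add_right _ hmeas2]
    _ ≤ 2 ^ (p - 1) * (C * (2 ^ (p - 1) * (I + (I * s) * e)) +
          (I * s) * (ENNReal.ofReal 31 ^ p * Q)) := by
        gcongr
        · refine hN.trans ?_
          gcongr
        · rw [lintegral_const_mul' _ _ hmt, lintegral_const_mul' _ _ h31]
          gcongr
          exact setLIntegral_le_lintegral _ _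
    _ = _ := by ring

end Pool.Agent.TH280.MZ
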