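import Pool.Agent.TH280.MZ.Nec5

set_option autoImplicit false
open MeasureTheory Set Filter Topology
open scoped ENNReal NNReal

namespace Pool.Agent.TH280.MZ

variable {p : ℝ}

/-- the estimate with the model kernel at infinity, for all sets off the support -/
lemma est_all (hp : 1 < p) {U : ℝ → ℝ} (hU : Measurable U)
    (hUl : ∀ R : ℝ, ∫⁻ x in Icc (-R) R, ENNReal.ofReal (U x) ≠ ⊤)
    (hU1 : ∀ᵐ x, ENNReal.ofReal (U x) ≠ 0)
    {C : ℝ≥0∞} (hCt : C ≠ ⊤)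
    (hC : ∀ f : ℝ → ℝ, Integrable f → ∫ x, f x = 0 →
      ∫⁻ x, ‖hilbert f x‖ₑ ^ p * ENNReal.ofReal (U x) ≤
        C * ∫⁻ x, ‖f x‖ₑ ^ p * ENNReal.ofReal (U x))
    (hσ : ∫⁻ x, sg p (fun x => ENNReal.ofReal (U x)) x ≠ ⊤) :
    ∃ K : ℝ≥0∞, K ≠ ⊤ ∧ ∀ g : ℝ → ℝ, Measurable g → Integrable g → ∀ E : Set ℝ, MeasurableSet E →
      (∀ x ∈ E, ∃ r > 0, ∀ y, |y - x| ≤ r → g y = 0) →
      ∫⁻ x in E, ‖(1 / Real.pi) * ((∫ y, (x - y)⁻¹ * g y) - (∫ y, g y) * (x / (1 + x ^ 2)))‖ₑ ^ p *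
        ENNReal.ofReal (U x) ≤ K * ∫⁻ x, ‖g x‖ₑ ^ p * ENNReal.ofReal (U x) := by
  obtain ⟨K0, hK0, h0⟩ := est_J hp hU hUl hU1 hCt hC hσ (c := 0) le_rfl (by norm_num)
  obtain ⟨K4, hK4, h4⟩ := est_J hp hU hUl hU1 hCt hC hσ (c := 4) (by norm_num) le_rfl
  refine ⟨K0 + K4, ENNReal.add_ne_top.2 ⟨hK0, hK4⟩, ?_⟩
  intro g hg hgi E hE hgE
  have e : E = (E ∩ Ici 2) ∪ (E ∩ Iio 2) := by
    rw [← inter_union_distrib_left]
    ext x
    constructor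
    · intro hx
      exact ⟨hx, le_or_gt 2 x⟩
    · intro hx
      exact hx.1
  have h1 := h0 g hg hgi (E ∩ Ici 2) (hE.inter measurableSet_Ici) (fun x hx => hgE x hx.1)
    (fun x hx => Or.inr (by have : (2 : ℝ) ≤ x := hx.2; linarith))
  have h2 := h4 g hg hgi (E ∩ Iio 2) (hE.inter measurableSet_Iio) (fun x hx => hgE x hx.1)
    (fun x hx => Or.inl (by have : x < (2 : ℝ) := hx.2; linarith))
  rw [e]
  refine (lintegral_union_le _ _ _).trans ?_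
  rw [add_mul]
  exact add_le_add h1 h2

/-- the third case: finite dual mass -/
theorem caseC (hp : 1 < p) {U : ℝ → ℝ} (hU : Measurable U) (hU0 : ∀ x, 0 ≤ U x)
    (hUne : ¬ U =ᵐ[volume] 0)
    (hUl : ∀ R : ℝ, ∫⁻ x in Icc (-R) R, ENNReal.ofReal (U x) ≠ ⊤)
    (hU1 : ∀ᵐ x, ENNReal.ofReal (U x) ≠ 0)
    {C : ℝ≥0∞} (hCt : C ≠ ⊤)
    (hC : ∀ f : ℝ → ℝ, Integrable f → ∫ x, f x = 0 →
      ∫⁻ x, ‖hilbert f x‖ₑ ^ p * ENNReal.ofReal (U x) ≤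
        C * ∫⁻ x, ‖f x‖ₑ ^ p * ENNReal.ofReal (U x))
    (hσ : ∫⁻ x, sg p (fun x => ENNReal.ofReal (U x)) x ≠ ⊤) :
    ∃ A, ApW p (fun x => ENNReal.ofReal (U x / (1 + |x|) ^ p)) A := by
  have hp0 : 0 < p := by linarith
  have hp1 : 0 < p - 1 := by linarith
  have h2p : (2 : ℝ≥0∞) ^ (p - 1) ≠ ⊤ := ENNReal.rpow_ne_top_of_nonneg (by linarith) (by norm_num)
  have h2pp : (2 : ℝ≥0∞) ^ p ≠ ⊤ := ENNReal.rpow_ne_top_of_nonneg (by linarith) (by norm_num)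
  have hπt : ENNReal.ofReal Real.pi ^ p ≠ ⊤ :=
    ENNReal.rpow_ne_top_of_nonneg hp0.le ENNReal.ofReal_ne_top
  obtain ⟨K, hK, hest⟩ := est_all hp hU hUl hU1 hCt hC hσ
  set Q := ∫⁻ x, ENNReal.ofReal (1 + x ^ 2)⁻¹ ^ p * ENNReal.ofReal (U x) with hQ
  have hQt : Q ≠ ⊤ := tail_fin hp hUl hCt hC
  set s := (∫⁻ x, sg p (fun x => ENNReal.ofReal (U x)) x) ^ (p - 1) with hs
  have hst : s ≠ ⊤ := ENNReal.rpow_ne_top_of_nonneg hp1.le hσ
  have hposx : ∀ x : ℝ, 0 < 1 + |x| := fun x => by positivity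
  have hWm : Measurable (fun x => ENNReal.ofReal (U x / (1 + |x|) ^ p)) := by
    apply Measurable.ennreal_ofReal
    apply hU.div
    have : Measurable (fun x : ℝ => 1 + |x|) := by fun_prop
    exact this.pow_const p
  have hconv : ∀ x : ℝ, ENNReal.ofReal (U x / (1 + |x|) ^ p) =
      ENNReal.ofReal (1 + |x|)⁻¹ ^ p * ENNReal.ofReal (U x) := by
    intro x
    have hpp : 0 < (1 + |x|) ^ p := Real.rpow_pos_of_pos (hposx x) _
    rw [ENNReal.ofReal_rpow_of_nonneg (inv_nonneg.2 (hposx x).le) hp0.le,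
      Real.inv_rpow (hposx x).le, ← ENNReal.ofReal_mul (inv_nonneg.2 hpp.le), div_eq_inv_mul]
  have hWne : ¬ (fun x => ENNReal.ofReal (U x / (1 + |x|) ^ p)) =ᵐ[volume] 0 := by
    intro h0
    apply hUne
    filter_upwards [h0] with x hx
    have hpp : 0 < (1 + |x|) ^ p := Real.rpow_pos_of_pos (hposx x) _
    have hx' : ENNReal.ofReal (U x / (1 + |x|) ^ p) = 0 := hx
    have h1 := ENNReal.ofReal_eq_zero.1 hx'
    have h2 : U x ≤ 0 := by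
      rwa [div_le_iff₀ hpp, zero_mul] at h1
    exact le_antisymm h2 (hU0 x)
  set K' : ℝ≥0∞ := ENNReal.ofReal Real.pi ^ p * (2 ^ (p - 1) * (2 ^ (p - 1) * (K * (2 ^ p + 2 ^ p)) +
    (2 ^ (p - 1) * ((2 ^ p + 2 ^ p) * s)) * Q)) with hK'
  have hKt : K' ≠ ⊤ := by
    refine ENNReal.mul_ne_top hπt (ENNReal.mul_ne_top h2p (ENNReal.add_ne_top.2 ⟨?_, ?_⟩))
    · exact ENNReal.mul_ne_top h2p (ENNReal.mul_ne_top hK (ENNReal.add_ne_top.2 ⟨h2pp, h2pp⟩))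
    · exact ENNReal.mul_ne_top (ENNReal.mul_ne_top h2p (ENNReal.mul_ne_top
        (ENNReal.add_ne_top.2 ⟨h2pp, h2pp⟩) hst)) hQt
  refine master hp hWm (fun x => ENNReal.ofReal_ne_top) hWne hKt 0 ?_
  rintro a b hab E hE g hg ⟨B, hB⟩ hg0 hgI -
  have hgi := integrable_bdd_supp hg hB hgI
  have hB0 : 0 ≤ B := (abs_nonneg _).trans (hB 0)
  -- the two test functions
  have hpos2 : ∀ y : ℝ, 0 < 1 + y ^ 2 := fun y => by positivity
  set f₁ : ℝ → ℝ := fun y => y * (1 + y ^ 2)⁻¹ * g y with hf₁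
  set f₂ : ℝ → ℝ := fun y => (1 + y ^ 2)⁻¹ * g y with hf₂
  have hf₁m : Measurable f₁ := by
    have : Measurable (fun y : ℝ => y * (1 + y ^ 2)⁻¹) := by fun_prop
    exact this.mul hg
  have hf₂m : Measurable f₂ := by
    have : Measurable (fun y : ℝ => (1 + y ^ 2)⁻¹) := by fun_prop
    exact this.mul hg
  have hc1 : ∀ y : ℝ, |y * (1 + y ^ 2)⁻¹| ≤ 2 * (1 + |y|)⁻¹ := by
    intro y
    rw [abs_mul, abs_inv, abs_of_pos (hpos2 y), ← div_eq_mul_inv, ← div_eq_mul_inv,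
      div_le_div_iff₀ (hpos2 y) (hposx y)]
    have h1 : y ^ 2 = |y| ^ 2 := (sq_abs y).symm
    rw [h1]
    nlinarith [sq_nonneg (|y| - 1), abs_nonneg y]
  have hc2 : ∀ y : ℝ, |(1 + y ^ 2)⁻¹| ≤ 2 * (1 + |y|)⁻¹ := by
    intro y
    rw [abs_inv, abs_of_pos (hpos2 y), ← div_eq_mul_inv, ← one_div,
      div_le_div_iff₀ (hpos2 y) (hposx y)]
    have h1 : y ^ 2 = |y| ^ 2 := (sq_abs y).symm
    rw [h1]
    nlinarith [sq_nonneg (|y| - 1), abs_nonneg y]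
  have hinv1 : ∀ y : ℝ, (1 + |y|)⁻¹ ≤ 1 := fun y => by
    apply inv_le_one_of_one_le₀
    have := abs_nonneg y
    linarith
  have hf₁B : ∀ y, |f₁ y| ≤ 2 * B := by
    intro y
    simp only [hf₁]
    rw [abs_mul]
    refine mul_le_mul ?_ (hB y) (abs_nonneg _) (by norm_num)
    have := hc1 y
    have := hinv1 y
    linarith
  have hf₂B : ∀ y, |f₂ y| ≤ 2 * B := by
    intro y
    simp only [hf₂]
    rw [abs_mul]
    refine mul_le_mul ?_ (hB y) (abs_nonneg _) (by norm_num)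
    have := hc2 y
    have := hinv1 y
    linarith
  have hf₁I : ∀ y, y ∉ Ioo a b → f₁ y = 0 := by
    intro y hy
    simp only [hf₁]
    rw [hgI y hy, mul_zero]
  have hf₂I : ∀ y, y ∉ Ioo a b → f₂ y = 0 := by
    intro y hy
    simp only [hf₂]
    rw [hgI y hy, mul_zero]
  have hf₁i := integrable_bdd_supp hf₁m hf₁B hf₁I
  have hf₂i := integrable_bdd_supp hf₂m hf₂B hf₂I
  set m₁ := ∫ y, f₁ y with hm₁
  set m₂ := ∫ y, f₂ y with hm₂
  set I₁ := ∫⁻ x, ‖f₁ x‖ₑ ^ p * ENNReal.ofReal (U x) with hI₁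
  set I₂ := ∫⁻ x, ‖f₂ x‖ₑ ^ p * ENNReal.ofReal (U x) with hI₂
  set J := ∫⁻ y, ‖g y‖ₑ ^ p * ENNReal.ofReal (U y / (1 + |y|) ^ p) with hJ
  have hIgen : ∀ k : ℝ → ℝ, (∀ y, |k y| ≤ 2 * (1 + |y|)⁻¹) →
      ∫⁻ x, ‖k x * g x‖ₑ ^ p * ENNReal.ofReal (U x) ≤ 2 ^ p * J := by
    intro k hk
    rw [hJ, ← lintegral_const_mul' _ _ h2pp]
    refine lintegral_mono (fun x => ?_)
    rw [hconv x, enorm_mul]
    have h1 : ‖k x‖ₑ ≤ 2 * ENNReal.ofReal (1 + |x|)⁻¹ := by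
      rw [Real.enorm_eq_ofReal_abs]
      refine (ENNReal.ofReal_le_ofReal (hk x)).trans ?_
      rw [ENNReal.ofReal_mul (by norm_num)]
      norm_num
    calc (‖k x‖ₑ * ‖g x‖ₑ) ^ p * ENNReal.ofReal (U x)
        ≤ ((2 * ENNReal.ofReal (1 + |x|)⁻¹) * ‖g x‖ₑ) ^ p * ENNReal.ofReal (U x) := by gcongr
      _ = _ := by
          rw [ENNReal.mul_rpow_of_nonneg _ _ hp0.le, ENNReal.mul_rpow_of_nonneg _ _ hp0.le]
          ring
  have hI₁J : I₁ ≤ 2 ^ p * J := hIgen _ hc1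
  have hI₂J : I₂ ≤ 2 ^ p * J := hIgen _ hc2
  have hmgen : ∀ f : ℝ → ℝ, Measurable f →
      ‖∫ y, f y‖ₑ ^ p ≤ (∫⁻ x, ‖f x‖ₑ ^ p * ENNReal.ofReal (U x)) * s := by
    intro f hf
    have h1 : ‖∫ y, f y‖ₑ ≤ ∫⁻ y, ‖f y‖ₑ := enorm_integral_le_lintegral_enorm _
    calc ‖∫ y, f y‖ₑ ^ p ≤ (∫⁻ y, ‖f y‖ₑ) ^ p := by gcongr
      _ ≤ _ := holder_sg hp hU.ennreal_ofReal (fun x => ENNReal.ofReal_ne_top) hU1 hf.enorm
  have hM : (‖m₁‖ₑ + ‖m₂‖ₑ) ^ p ≤ 2 ^ (p - 1) * (((2 ^ p + 2 ^ p) * s) * J) := by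
    calc (‖m₁‖ₑ + ‖m₂‖ₑ) ^ p ≤ 2 ^ (p - 1) * (‖m₁‖ₑ ^ p + ‖m₂‖ₑ ^ p) :=
          ENNReal.rpow_add_le_mul_rpow_add_rpow _ _ hp.le
      _ ≤ 2 ^ (p - 1) * ((2 ^ p * J) * s + (2 ^ p * J) * s) := by
          gcongr
          · exact (hmgen f₁ hf₁m).trans (mul_le_mul' hI₁J le_rfl)
          · exact (hmgen f₂ hf₂m).trans (mul_le_mul' hI₂J le_rfl)
      _ = _ := by ring
  set A₁ : ℝ → ℝ := fun x => (1 / Real.pi) * ((∫ y, (x - y)⁻¹ * f₁ y) - m₁ * (x / (1 + x ^ 2)))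
    with hA₁
  set A₂ : ℝ → ℝ := fun x => (1 / Real.pi) * ((∫ y, (x - y)⁻¹ * f₂ y) - m₂ * (x / (1 + x ^ 2)))
    with hA₂
  have hk : Measurable (fun x : ℝ => x / (1 + x ^ 2)) := by fun_prop
  have hA₁m : Measurable A₁ := ((meas_ker hf₁m).sub (hk.const_mul _)).const_mul _
  have hA₂m : Measurable A₂ := ((meas_ker hf₂m).sub (hk.const_mul _)).const_mul _
  have hE1 : ∫⁻ x in E, ‖A₁ x‖ₑ ^ p * ENNReal.ofReal (U x) ≤ K * I₁ :=
    hest f₁ hf₁m hf₁i E hE.meas (fun x hx => by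
      obtain ⟨r, hr, hr2⟩ := hE.far hx
      exact ⟨r, hr, fun y hy => hf₁I y (hr2 y hy)⟩)
  have hE2 : ∫⁻ x in E, ‖A₂ x‖ₑ ^ p * ENNReal.ofReal (U x) ≤ K * I₂ :=
    hest f₂ hf₂m hf₂i E hE.meas (fun x hx => by
      obtain ⟨r, hr, hr2⟩ := hE.far hx
      exact ⟨r, hr, fun y hy => hf₂I y (hr2 y hy)⟩)
  -- the pointwise identity
  have hid : ∀ x ∈ E, (1 / Real.pi) * (∫ y, (x - y)⁻¹ * g y) =
      x * A₁ x + A₂ x - (1 / Real.pi) * m₁ * (1 + x ^ 2)⁻¹ +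
        (1 / Real.pi) * m₂ * (x / (1 + x ^ 2)) := by
    intro x hx
    obtain ⟨r, hr, hr2⟩ := hE.far hx
    have hk1 := integrable_ker hf₁i hr (fun y hy => hf₁I y (hr2 y hy))
    have hk2 := integrable_ker hf₂i hr (fun y hy => hf₂I y (hr2 y hy))
    have hk3 := integrable_ker hgi hr (fun y hy => hgI y (hr2 y hy))
    have e1 : x * (∫ y, (x - y)⁻¹ * f₁ y) + (∫ y, (x - y)⁻¹ * f₂ y) =
        (∫ y, (x - y)⁻¹ * g y) + m₁ := by
      rw [hm₁, ← integral_const_mul, ← integral_add (hk1.const_mul x) hk2,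
        ← integral_add hk3 hf₁i]
      apply integral_congr_ae
      refine Eventually.of_forall (fun y => ?_)
      simp only [hf₁, hf₂]
      by_cases hy : y ∈ Ioo a b
      · have hxy : x - y ≠ 0 := by
          intro h0
          have : y = x := by linarith
          rw [this] at hy
          exact hr2 x (by rw [sub_self, abs_zero]; exact hr.le) hy
        have h1 := (hpos2 y).ne'
        field_simp
        ring
      · rw [hgI y hy]; ring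
    simp only [hA₁, hA₂]
    have h1 := (hpos2 x).ne'
    have h2 := Real.pi_pos.ne'
    have e2 : (∫ y, (x - y)⁻¹ * g y) =
        x * (∫ y, (x - y)⁻¹ * f₁ y) + (∫ y, (x - y)⁻¹ * f₂ y) - m₁ := by linarith
    rw [e2]
    field_simp
    ring
  have hreal : ∀ x ∈ E, |(1 / Real.pi) * (∫ y, (x - y)⁻¹ * g y)| * (1 + |x|)⁻¹ ≤
      |A₁ x| + |A₂ x| + (|m₁| + |m₂|) * (1 + x ^ 2)⁻¹ := by
    intro x hx
    rw [hid x hx]
    have hpi0 : 0 < 1 / Real.pi := by positivity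
    have hpi : 1 / Real.pi ≤ 1 := by
      rw [div_le_one Real.pi_pos]
      linarith [Real.pi_gt_three]
    have hq : 0 < (1 + x ^ 2)⁻¹ := inv_pos.2 (hpos2 x)
    have hω0 : 0 < (1 + |x|)⁻¹ := inv_pos.2 (hposx x)
    have hω1 := hinv1 x
    have hωx : |x| * (1 + |x|)⁻¹ ≤ 1 := by
      rw [← div_eq_mul_inv, div_le_one (hposx x)]
      linarith
    have t1 : |x * A₁ x + A₂ x - (1 / Real.pi) * m₁ * (1 + x ^ 2)⁻¹ +
        (1 / Real.pi) * m₂ * (x / (1 + x ^ 2))| ≤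
        |x| * |A₁ x| + |A₂ x| + |m₁| * (1 + x ^ 2)⁻¹ + |m₂| * (|x| * (1 + x ^ 2)⁻¹) := by
      have a1 := abs_add_le (x * A₁ x + A₂ x - (1 / Real.pi) * m₁ * (1 + x ^ 2)⁻¹)
        ((1 / Real.pi) * m₂ * (x / (1 + x ^ 2)))
      have a2 := abs_sub (x * A₁ x + A₂ x) ((1 / Real.pi) * m₁ * (1 + x ^ 2)⁻¹)
      have a3 := abs_add_le (x * A₁ x) (A₂ x)
      have a4 : |(1 / Real.pi) * m₁ * (1 + x ^ 2)⁻¹| ≤ |m₁| * (1 + x ^ 2)⁻¹ := by
        rw [abs_mul, abs_mul, abs_of_pos hpi0, abs_of_pos hq]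
        apply mul_le_mul_of_nonneg_right _ hq.le
        nlinarith [abs_nonneg m₁]
      have a5 : |(1 / Real.pi) * m₂ * (x / (1 + x ^ 2))| ≤ |m₂| * (|x| * (1 + x ^ 2)⁻¹) := by
        rw [div_eq_mul_inv x (1 + x ^ 2), abs_mul, abs_mul (1 / Real.pi) m₂, abs_mul x,
          abs_of_pos hpi0, abs_of_pos hq]
        refine mul_le_mul_of_nonneg_right ?_ (by positivity)
        nlinarith [abs_nonneg m₂]
      rw [abs_mul x (A₁ x)] at a3
      linarith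
    calc _ ≤ (|x| * |A₁ x| + |A₂ x| + |m₁| * (1 + x ^ 2)⁻¹ + |m₂| * (|x| * (1 + x ^ 2)⁻¹)) *
          (1 + |x|)⁻¹ := mul_le_mul_of_nonneg_right t1 hω0.le
      _ = (|x| * (1 + |x|)⁻¹) * |A₁ x| + (1 + |x|)⁻¹ * |A₂ x| +
          (1 + |x|)⁻¹ * (|m₁| * (1 + x ^ 2)⁻¹) +
          (|x| * (1 + |x|)⁻¹) * (|m₂| * (1 + x ^ 2)⁻¹) := by ring
      _ ≤ 1 * |A₁ x| + 1 * |A₂ x| + 1 * (|m₁| * (1 + x ^ 2)⁻¹) +
          1 * (|m₂| * (1 + x ^ 2)⁻¹) := by gcongr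
      _ = _ := by ring
  have hpt : ∀ x ∈ E, ‖∫ y, (x - y)⁻¹ * g y‖ₑ ^ p * ENNReal.ofReal (U x / (1 + |x|) ^ p) ≤
      ENNReal.ofReal Real.pi ^ p * (2 ^ (p - 1) * (2 ^ (p - 1) *
        (‖A₁ x‖ₑ ^ p * ENNReal.ofReal (U x) + ‖A₂ x‖ₑ ^ p * ENNReal.ofReal (U x)) +
        (‖m₁‖ₑ + ‖m₂‖ₑ) ^ p * (ENNReal.ofReal (1 + x ^ 2)⁻¹ ^ p * ENNReal.ofReal (U x)))) := by
    intro x hx
    rw [hconv x]
    have h1 : ‖∫ y, (x - y)⁻¹ * g y‖ₑ * ENNReal.ofReal (1 + |x|)⁻¹ ≤ ENNReal.ofReal Real.pi *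
        ((‖A₁ x‖ₑ + ‖A₂ x‖ₑ) + (‖m₁‖ₑ + ‖m₂‖ₑ) * ENNReal.ofReal (1 + x ^ 2)⁻¹) := by
      have hq : 0 ≤ (1 + x ^ 2)⁻¹ := (inv_pos.2 (hpos2 x)).le
      rw [Real.enorm_eq_ofReal_abs, Real.enorm_eq_ofReal_abs, Real.enorm_eq_ofReal_abs,
        Real.enorm_eq_ofReal_abs, Real.enorm_eq_ofReal_abs,
        ← ENNReal.ofReal_add (abs_nonneg _) (abs_nonneg _),
        ← ENNReal.ofReal_add (abs_nonneg _) (abs_nonneg _),
        ← ENNReal.ofReal_mul (by positivity), ← ENNReal.ofReal_mul (by positivity),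
        ← ENNReal.ofReal_add (by positivity) (by positivity),
        ← ENNReal.ofReal_mul Real.pi_pos.le]
      apply ENNReal.ofReal_le_ofReal
      have h2 := hreal x hx
      rw [abs_mul, abs_of_pos (by positivity : 0 < 1 / Real.pi)] at h2
      have h3 : |∫ y, (x - y)⁻¹ * g y| * (1 + |x|)⁻¹ =
          Real.pi * ((1 / Real.pi) * |∫ y, (x - y)⁻¹ * g y| * (1 + |x|)⁻¹) := by
        have := Real.pi_pos.ne'
        field_simp
      rw [h3]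
      exact mul_le_mul_of_nonneg_left h2 Real.pi_pos.le
    calc ‖∫ y, (x - y)⁻¹ * g y‖ₑ ^ p * (ENNReal.ofReal (1 + |x|)⁻¹ ^ p * ENNReal.ofReal (U x))
        = (‖∫ y, (x - y)⁻¹ * g y‖ₑ * ENNReal.ofReal (1 + |x|)⁻¹) ^ p * ENNReal.ofReal (U x) := by
          rw [ENNReal.mul_rpow_of_nonneg _ _ hp0.le, mul_assoc]
      _ ≤ (ENNReal.ofReal Real.pi * ((‖A₁ x‖ₑ + ‖A₂ x‖ₑ) +
            (‖m₁‖ₑ + ‖m₂‖ₑ) * ENNReal.ofReal (1 + x ^ 2)⁻¹)) ^ p * ENNReal.ofReal (U x) := by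
          gcongr
      _ = ENNReal.ofReal Real.pi ^ p * ((‖A₁ x‖ₑ + ‖A₂ x‖ₑ) +
            (‖m₁‖ₑ + ‖m₂‖ₑ) * ENNReal.ofReal (1 + x ^ 2)⁻¹) ^ p * ENNReal.ofReal (U x) := by
          rw [ENNReal.mul_rpow_of_nonneg _ _ hp0.le]
      _ ≤ ENNReal.ofReal Real.pi ^ p * (2 ^ (p - 1) * ((2 ^ (p - 1) * (‖A₁ x‖ₑ ^ p +
            ‖A₂ x‖ₑ ^ p)) + ((‖m₁‖ₑ + ‖m₂‖ₑ) * ENNReal.ofReal (1 + x ^ 2)⁻¹) ^ p)) *
            ENNReal.ofReal (U x) := by
          gcongr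
          refine (ENNReal.rpow_add_le_mul_rpow_add_rpow _ _ hp.le).trans ?_
          gcongr
          exact ENNReal.rpow_add_le_mul_rpow_add_rpow _ _ hp.le
      _ = _ := by
          rw [ENNReal.mul_rpow_of_nonneg _ _ hp0.le]
          ring
  have hMt : (‖m₁‖ₑ + ‖m₂‖ₑ) ^ p ≠ ⊤ :=
    ENNReal.rpow_ne_top_of_nonneg hp0.le (ENNReal.add_ne_top.2 ⟨enorm_ne_top, enorm_ne_top⟩)
  have hmA₁ : Measurable (fun x => ‖A₁ x‖ₑ ^ p * ENNReal.ofReal (U x)) :=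
    (hA₁m.enorm.pow_const p).mul hU.ennreal_ofReal
  have hmA₂ : Measurable (fun x => ‖A₂ x‖ₑ ^ p * ENNReal.ofReal (U x)) :=
    (hA₂m.enorm.pow_const p).mul hU.ennreal_ofReal
  have hmq : Measurable (fun x : ℝ => (‖m₁‖ₑ + ‖m₂‖ₑ) ^ p *
      (ENNReal.ofReal (1 + x ^ 2)⁻¹ ^ p * ENNReal.ofReal (U x))) := by
    have h1 : Measurable (fun x : ℝ => ENNReal.ofReal (1 + x ^ 2)⁻¹) := by
      apply Measurable.ennreal_ofReal
      fun_prop
    exact ((h1.pow_const p).mul hU.ennreal_ofReal).const_mul _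
  calc ∫⁻ x in E, ‖∫ y, (x - y)⁻¹ * g y‖ₑ ^ p * ENNReal.ofReal (U x / (1 + |x|) ^ p)
      ≤ ∫⁻ x in E, ENNReal.ofReal Real.pi ^ p * (2 ^ (p - 1) * (2 ^ (p - 1) *
        (‖A₁ x‖ₑ ^ p * ENNReal.ofReal (U x) + ‖A₂ x‖ₑ ^ p * ENNReal.ofReal (U x)) +
        (‖m₁‖ₑ + ‖m₂‖ₑ) ^ p * (ENNReal.ofReal (1 + x ^ 2)⁻¹ ^ p * ENNReal.ofReal (U x)))) :=
        setLIntegral_mono' hE.meas hpt
    _ = ENNReal.ofReal Real.pi ^ p * (2 ^ (p - 1) * (2 ^ (p - 1) *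
        ((∫⁻ x in E, ‖A₁ x‖ₑ ^ p * ENNReal.ofReal (U x)) +
          (∫⁻ x in E, ‖A₂ x‖ₑ ^ p * ENNReal.ofReal (U x))) +
        (‖m₁‖ₑ + ‖m₂‖ₑ) ^ p * ∫⁻ x in E,
          (ENNReal.ofReal (1 + x ^ 2)⁻¹ ^ p * ENNReal.ofReal (U x)))) := by
        rw [lintegral_const_mul' _ _ hπt, lintegral_const_mul' _ _ h2p,
          lintegral_add_right _ hmq, lintegral_const_mul' _ _ h2p, lintegral_add_left hmA₁,
          lintegral_const_mul' _ _ hMt]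
    _ ≤ ENNReal.ofReal Real.pi ^ p * (2 ^ (p - 1) * (2 ^ (p - 1) *
        (K * (2 ^ p * J) + K * (2 ^ p * J)) +
        (2 ^ (p - 1) * (((2 ^ p + 2 ^ p) * s) * J)) * Q)) := by
        gcongr
        · exact hE1.trans (mul_le_mul' le_rfl hI₁J)
        · exact hE2.trans (mul_le_mul' le_rfl hI₂J)
        · exact setLIntegral_le_lintegral _ _
    _ = _ := by
        rw [hK']
        ring

lemma apW_memAp (hp : 1 < p) {W : ℝ → ℝ} (hWm : Measurable W) (hW0 : ∀ x, 0 ≤ W x) {A : ℝ≥0∞}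
    (h : ApW p (fun x => ENNReal.ofReal (W x)) A) : MemAp p W := by
  refine ⟨⟨hWm, hW0, ?_, ?_⟩, A.toNNReal, ?_⟩
  · rw [locallyIntegrable_iff]
    intro k hk
    obtain ⟨R, hR⟩ := hk.isBounded.subset_closedBall (0 : ℝ)
    have hsub : k ⊆ Ioo (-|R| - 1) (|R| + 1) := by
      intro x hx
      have h1 := hR hx
      rw [Metric.mem_closedBall, dist_zero_right, Real.norm_eq_abs] at h1
      have h2 := abs_le.1 (h1.trans (le_abs_self R))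
      constructor
      · linarith [h2.1]
      · linarith [h2.2]
    refine IntegrableOn.mono_set ?_ hsub
    refine ⟨hWm.aestronglyMeasurable, ?_⟩
    have h3 := int_w_ne_top hp h (a := -|R| - 1) (b := |R| + 1) (by
      have := abs_nonneg R
      linarith)
    refine lt_of_le_of_lt (le_of_eq ?_) h3.lt_top
    apply lintegral_congr
    intro x
    rw [Real.enorm_eq_ofReal (hW0 x)]
  · intro h0
    apply h.ne
    filter_upwards [h0] with x hx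
    have hx' : W x = 0 := hx
    show ENNReal.ofReal (W x) = 0
    rw [hx', ENNReal.ofReal_zero]
  · intro a b hab
    rw [ENNReal.coe_toNNReal h.A_fin]
    exact (ap_arith hp (by rw [ne_eq, ENNReal.ofReal_eq_zero, not_le]; linarith)
      ENNReal.ofReal_ne_top).2 (h.bd a b hab)

/-- necessity -/
theorem nec (hp : 1 < p) {U : ℝ → ℝ} (hW : IsWeight U) (h : Admissible ℝ p U) :
    MemAp p U ∨ MemAp p (fun x => U x / (1 + |x|) ^ p) ∨
      ∃ x₀ : ℝ, MemAp p (fun x => U x / |x - x₀| ^ p) := by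
  obtain ⟨C, hC⟩ := h
  have hCt : (C : ℝ≥0∞) ≠ ⊤ := ENNReal.coe_ne_top
  have hU := hW.measurable
  have hU0 := hW.nonneg
  set u : ℝ → ℝ≥0∞ := fun x => ENNReal.ofReal (U x) with hu
  by_cases hA : ∃ x₀ : ℝ, ∀ r > 0, ∫⁻ x in Ioo (x₀ - r) (x₀ + r), sg p u x = ⊤
  · obtain ⟨x₀, hx₀⟩ := hA
    obtain ⟨A, hA⟩ := caseA hp hU hU0 hW.ne hCt hC hx₀
    right; right
    refine ⟨x₀, apW_memAp hp ?_ ?_ hA⟩
    · apply hU.div
      have : Measurable (fun x : ℝ => |x - x₀|) := by fun_prop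
      exact this.pow_const p
    · intro x
      exact div_nonneg (hU0 x) (Real.rpow_nonneg (abs_nonneg _) _)
  · push Not at hA
    have hfin : ∀ R : ℝ, ∫⁻ x in Icc (-R) R, sg p u x ≠ ⊤ := by
      intro R
      have hc : (volume.withDensity (sg p u)) (Icc (-R) R) < ⊤ := by
        refine isCompact_Icc.measure_lt_top_of_nhdsWithin (fun x _ => ?_)
        obtain ⟨r, hr, hr2⟩ := hA x
        refine ⟨Ioo (x - r) (x + r), mem_nhdsWithin_of_mem_nhds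
          (Ioo_mem_nhds (by linarith) (by linarith)), ?_⟩
        rw [withDensity_apply _ measurableSet_Ioo]
        exact hr2.lt_top
      rw [withDensity_apply _ measurableSet_Icc] at hc
      exact hc.ne
    by_cases hB : ∫⁻ x, sg p u x = ⊤
    · left
      obtain ⟨A, hA⟩ := caseB hp hU hU0 hW.ne hCt hC (fun n => by
        have h1 := lintegral_add_compl (μ := volume) (sg p u)
          (measurableSet_Icc (a := -(n : ℝ)) (b := n))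
        rw [hB] at h1
        rcases ENNReal.add_eq_top.1 h1 with h2 | h2
        · exact absurd h2 (hfin n)
        · exact h2)
      exact apW_memAp hp hU hU0 hA
    · right; left
      have hUl : ∀ R : ℝ, ∫⁻ x in Icc (-R) R, ENNReal.ofReal (U x) ≠ ⊤ := by
        intro R
        have h1 := (hW.locInt.integrableOn_isCompact (isCompact_Icc (a := -R) (b := R))).2
        refine ne_top_of_le_ne_top h1.ne (lintegral_mono (fun x => ?_))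
        exact Real.ofReal_le_enorm (U x)
      have hU1 : ∀ᵐ x, ENNReal.ofReal (U x) ≠ 0 := by
        have hp1 : 0 < p - 1 := by linarith
        filter_upwards [ae_lt_top (sg_meas (p := p) hU.ennreal_ofReal) hB] with x hx h0
        unfold sg at hx
        beta_reduce at hx
        rw [h0, ENNReal.zero_rpow_of_neg] at hx
        · exact lt_irrefl _ hx
        · have : 0 < 1 / (p - 1) := by positivity
          linarith
      obtain ⟨A, hA⟩ := caseC hp hU hU0 hW.ne hUl hU1 hCt hC hB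
      refine apW_memAp hp ?_ ?_ hA
      · apply hU.div
        have : Measurable (fun x : ℝ => 1 + |x|) := by fun_prop
        exact this.pow_const p
      · intro x
        exact div_nonneg (hU0 x) (Real.rpow_nonneg (by positivity) _)

/-- the characterization -/
theorem main (hp : 1 < p) {U : ℝ → ℝ} (hW : IsWeight U) :
    Admissible ℝ p U ↔ (MemAp p U ∨ MemAp p (fun x => U x / (1 + |x|) ^ p) ∨
      ∃ x₀ : ℝ, MemAp p (fun x => U x / |x - x₀| ^ p)) := by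
  constructor
  · exact nec hp hW
  · rintro (h | h | ⟨x₀, h⟩)
    · exact suf_one hp h
    · exact suf_three hp hW.nonneg h
    · exact suf_two hp hW.nonneg x₀ h

end Pool.Agent.TH280.MZ
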