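import Pool.Agent.TH280.MZ.CF2
import Pool.Agent.TH280.MZ.Meas

set_option autoImplicit false
open MeasureTheory Set Filter Topology
open scoped ENNReal NNReal

namespace Pool.Agent.TH280.MZ

variable {p : ℝ}

/-- arithmetic of the two ways of writing the `A_p` product -/
lemma ap_arith (hp : 1 < p) {X Y A L : ℝ≥0∞} (hL0 : L ≠ 0) (hLt : L ≠ ⊤) :
    X / L * (Y / L) ^ (p - 1) ≤ A ↔ X * Y ^ (p - 1) ≤ A * L ^ p := by
  have hp1 : 0 < p - 1 := by linarith
  have hLp0 : L ^ p ≠ 0 := by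
    intro h0
    rw [ENNReal.rpow_eq_zero_iff] at h0
    rcases h0 with h0 | h0
    · exact hL0 h0.1
    · exact hLt h0.1
  have hLpt : L ^ p ≠ ⊤ := ENNReal.rpow_ne_top_of_nonneg (by linarith) hLt
  have e1 : L ^ p = L * L ^ (p - 1) := by
    conv_lhs => rw [show p = 1 + (p - 1) by ring]
    rw [ENNReal.rpow_add _ _ hL0 hLt, ENNReal.rpow_one]
  have e : X / L * (Y / L) ^ (p - 1) = X * Y ^ (p - 1) / L ^ p := by
    rw [ENNReal.div_rpow_of_nonneg _ _ hp1.le, e1, div_eq_mul_inv, div_eq_mul_inv, div_eq_mul_inv,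
      ENNReal.mul_inv (Or.inl hL0) (Or.inl hLt)]
    ring
  rw [e, ENNReal.div_le_iff hLp0 hLpt]

lemma memAp_apW (hp : 1 < p) {W : ℝ → ℝ} (h : MemAp p W) :
    ∃ A : ℝ≥0∞, ApW p (fun x => ENNReal.ofReal (W x)) A := by
  obtain ⟨hW, A, hA⟩ := h
  refine ⟨A, ⟨hW.measurable.ennreal_ofReal, fun x => ENNReal.ofReal_ne_top, ?_,
    ENNReal.coe_ne_top, ?_⟩⟩
  · intro h0
    apply hW.ne
    filter_upwards [h0] with x hx
    have hx' : ENNReal.ofReal (W x) = 0 := hx
    exact le_antisymm (ENNReal.ofReal_eq_zero.1 hx') (hW.nonneg x)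
  · intro a b hab
    have h1 := hA a b hab
    exact (ap_arith hp (by rw [ne_eq, ENNReal.ofReal_eq_zero, not_le]; linarith)
      ENNReal.ofReal_ne_top).1 h1

/-- the shift identity for functions of mean zero -/
lemma hasPV_shift {f : ℝ → ℝ} (hf : Integrable f) (hf0 : ∫ x, f x = 0) {x x₀ v : ℝ}
    (h : HasPV f x v) : HasPV (fun y => (y - x₀) * f y) x ((x - x₀) * v) := by
  unfold HasPV at *
  have h1 : Tendsto (fun δ : ℝ => ∫ y in {y : ℝ | δ < |y - x|}, f y) (𝓝[>] 0) (𝓝 0) := by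
    have h2 : Tendsto (fun δ : ℝ => ∫ y, {y : ℝ | δ < |y - x|}.indicator f y) (𝓝[>] 0)
        (𝓝 (∫ y, f y)) := by
      refine tendsto_integral_filter_of_dominated_convergence (fun y => ‖f y‖) ?_ ?_ hf.norm ?_
      · refine Eventually.of_forall (fun δ => ?_)
        exact (hf.indicator (measurableSet_far δ x)).1
      · refine Eventually.of_forall (fun δ => Eventually.of_forall (fun y => ?_))
        exact norm_indicator_le_norm_self _ _
      · have hne : ∀ᵐ y : ℝ, y ≠ x := by simp [ae_iff, measure_singleton]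
        filter_upwards [hne] with y hy
        refine tendsto_const_nhds.congr' ?_
        have hpos : 0 < |y - x| := abs_pos.2 (sub_ne_zero.2 hy)
        have : Iio |y - x| ∈ 𝓝[>] (0:ℝ) := mem_nhdsWithin_of_mem_nhds (Iio_mem_nhds hpos)
        filter_upwards [this] with δ hδ
        have hδ' : δ < |y - x| := hδ
        rw [indicator_of_mem (show y ∈ {y : ℝ | δ < |y - x|} from hδ')]
    rw [hf0] at h2
    refine h2.congr (fun δ => ?_)
    rw [integral_indicator (measurableSet_far δ x)]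
  have h3 : Tendsto (fun δ : ℝ => (x - x₀) * truncH f δ x -
      (1 / Real.pi) * ∫ y in {y : ℝ | δ < |y - x|}, f y) (𝓝[>] 0) (𝓝 ((x - x₀) * v)) := by
    have := (h.const_mul (x - x₀)).sub (h1.const_mul (1 / Real.pi))
    rwa [mul_zero, sub_zero] at this
  refine h3.congr' ?_
  filter_upwards [self_mem_nhdsWithin] with δ hδ
  have hδ0 : 0 < δ := hδ
  have hi := integrableOn_far (integrable_w_of_integrable hf) hδ0 x
  unfold truncH
  rw [smul_eq_mul, smul_eq_mul, ← mul_assoc, mul_comm (x - x₀), mul_assoc, ← mul_sub,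
    ← integral_const_mul, ← integral_sub (hi.const_mul _) hf.integrableOn]
  congr 1
  apply setIntegral_congr_fun (measurableSet_far δ x)
  intro y hy
  have hy' : δ < |y - x| := hy
  have hne : x - y ≠ 0 := by
    intro h0
    rw [abs_sub_comm, h0, abs_zero] at hy'
    linarith
  simp only [smul_eq_mul]
  field_simp
  ring

lemma enorm_shift {f : ℝ → ℝ} (hf : Integrable f) (hf0 : ∫ x, f x = 0) (x x₀ : ℝ) :
    ‖x - x₀‖ₑ * ‖hilbert f x‖ₑ ≤ ‖hilbert (fun y => (y - x₀) * f y) x‖ₑ := by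
  by_cases hx : ∃ v, HasPV f x v
  · obtain ⟨v, hv⟩ := hx
    rw [hilbert_eq (hasPV_shift hf hf0 (x₀ := x₀) hv), hilbert_eq hv, enorm_mul]
  · rw [hilbert_eq_zero hx, enorm_zero, mul_zero]
    exact bot_le

lemma integrable_w_mul {f : ℝ → ℝ} (hf : Integrable f) (x₀ : ℝ) :
    Integrable (fun y => (1 + |y|)⁻¹ • ((y - x₀) * f y)) := by
  have h1 : Integrable (fun y => f y * ((1 + |y|)⁻¹ * (y - x₀))) := by
    have hm : Measurable (fun y : ℝ => (1 + |y|)⁻¹ * (y - x₀)) := by fun_prop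
    refine hf.mul_bdd (c := 1 + |x₀|) hm.aestronglyMeasurable (Eventually.of_forall (fun y => ?_))
    have hpos : 0 < 1 + |y| := by positivity
    rw [norm_mul, norm_inv, Real.norm_eq_abs, Real.norm_eq_abs, abs_of_pos hpos,
      inv_mul_le_iff₀ hpos]
    have h2 := abs_sub y x₀
    have h3 := abs_nonneg y
    have h4 := abs_nonneg x₀
    nlinarith
  refine h1.congr (Eventually.of_forall (fun y => ?_))
  simp only [smul_eq_mul]
  ring

/-- the case of `A_p` weights -/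
theorem suf_one (hp : 1 < p) {U : ℝ → ℝ} (h : MemAp p U) : Admissible ℝ p U := by
  obtain ⟨A, hA⟩ := memAp_apW hp h
  obtain ⟨C, hC, hcf⟩ := cf_real hp h.1.measurable h.1.nonneg hA
  refine ⟨C.toNNReal, fun f hf _ => ?_⟩
  rw [ENNReal.coe_toNNReal hC]
  exact hcf f (integrable_w_of_integrable hf)

/-- the case of `|x-x₀|^{-p} U` -/
theorem suf_two (hp : 1 < p) {U : ℝ → ℝ} (hU0 : ∀ x, 0 ≤ U x) (x₀ : ℝ)
    (h : MemAp p (fun x => U x / |x - x₀| ^ p)) : Admissible ℝ p U := by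
  have hp0 : 0 < p := by linarith
  obtain ⟨A, hA⟩ := memAp_apW hp h
  obtain ⟨C, hC, hcf⟩ := cf_real hp h.1.measurable h.1.nonneg hA
  refine ⟨C.toNNReal, fun f hf hf0 => ?_⟩
  rw [ENNReal.coe_toNNReal hC]
  have hne : ∀ᵐ y : ℝ, y ≠ x₀ := by simp [ae_iff, measure_singleton]
  have hconv : ∀ x : ℝ, x ≠ x₀ → ENNReal.ofReal (U x) =
      ‖x - x₀‖ₑ ^ p * ENNReal.ofReal (U x / |x - x₀| ^ p) := by
    intro x hx
    have hpos : 0 < |x - x₀| := abs_pos.2 (sub_ne_zero.2 hx)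
    have hpp : 0 < |x - x₀| ^ p := Real.rpow_pos_of_pos hpos _
    rw [Real.enorm_eq_ofReal_abs, ENNReal.ofReal_rpow_of_nonneg hpos.le hp0.le,
      ← ENNReal.ofReal_mul hpp.le]
    congr 1
    field_simp
  have h1 := hcf (fun y => (y - x₀) * f y) (integrable_w_mul hf x₀)
  calc ∫⁻ x, ‖hilbert f x‖ₑ ^ p * ENNReal.ofReal (U x)
      ≤ ∫⁻ x, ‖hilbert (fun y => (y - x₀) * f y) x‖ₑ ^ p *
          ENNReal.ofReal (U x / |x - x₀| ^ p) := by
        refine lintegral_mono_ae ?_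
        filter_upwards [hne] with x hx
        rw [hconv x hx, ← mul_assoc, ← ENNReal.mul_rpow_of_nonneg _ _ hp0.le]
        gcongr
        rw [mul_comm]
        exact enorm_shift hf hf0 x x₀
    _ ≤ C * ∫⁻ x, ‖(x - x₀) * f x‖ₑ ^ p * ENNReal.ofReal (U x / |x - x₀| ^ p) := h1
    _ = C * ∫⁻ x, ‖f x‖ₑ ^ p * ENNReal.ofReal (U x) := by
        congr 1
        apply lintegral_congr_ae
        filter_upwards [hne] with x hx
        rw [hconv x hx, enorm_mul, ENNReal.mul_rpow_of_nonneg _ _ hp0.le]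
        ring

/-- the case of `(1+|x|)^{-p} U` -/
theorem suf_three (hp : 1 < p) {U : ℝ → ℝ} (hU0 : ∀ x, 0 ≤ U x)
    (h : MemAp p (fun x => U x / (1 + |x|) ^ p)) : Admissible ℝ p U := by
  have hp0 : 0 < p := by linarith
  obtain ⟨A, hA⟩ := memAp_apW hp h
  obtain ⟨C, hC, hcf⟩ := cf_real hp h.1.measurable h.1.nonneg hA
  have h2p : (2 : ℝ≥0∞) ^ (p - 1) ≠ ⊤ := ENNReal.rpow_ne_top_of_nonneg (by linarith) (by norm_num)
  have hCC : 2 ^ (p - 1) * (C + C) ≠ ⊤ := ENNReal.mul_ne_top h2p (ENNReal.add_ne_top.2 ⟨hC, hC⟩)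
  refine ⟨(2 ^ (p - 1) * (C + C)).toNNReal, fun f hf hf0 => ?_⟩
  rw [ENNReal.coe_toNNReal hCC]
  set W : ℝ → ℝ≥0∞ := fun x => ENNReal.ofReal (U x / (1 + |x|) ^ p) with hW
  have hconv : ∀ x : ℝ, ENNReal.ofReal (U x) = ENNReal.ofReal (1 + |x|) ^ p * W x := by
    intro x
    have hpos : 0 < 1 + |x| := by positivity
    have hpp : 0 < (1 + |x|) ^ p := Real.rpow_pos_of_pos hpos _
    rw [ENNReal.ofReal_rpow_of_nonneg hpos.le hp0.le, ← ENNReal.ofReal_mul hpp.le]
    congr 1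
    field_simp
  have h1 := hcf (fun y => (y - 0) * f y) (integrable_w_mul hf 0)
  have h2 := hcf f (integrable_w_of_integrable hf)
  have hm : Measurable (fun x => ‖hilbert f x‖ₑ ^ p * W x) :=
    ((sm_hilbert (integrable_w_of_integrable hf)).measurable.enorm.pow_const p).mul hA.meas
  set I := ∫⁻ x, ‖f x‖ₑ ^ p * ENNReal.ofReal (U x) with hI
  have hb1 : ∫⁻ x, ‖(x - 0) * f x‖ₑ ^ p * W x ≤ I := by
    refine lintegral_mono (fun x => ?_)
    rw [hconv x, enorm_mul, sub_zero, ENNReal.mul_rpow_of_nonneg _ _ hp0.le, mul_comm (‖x‖ₑ ^ p),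
      mul_assoc]
    gcongr
    rw [Real.enorm_eq_ofReal_abs]
    apply ENNReal.ofReal_le_ofReal
    linarith
  have hb2 : ∫⁻ x, ‖f x‖ₑ ^ p * W x ≤ I := by
    refine lintegral_mono (fun x => ?_)
    rw [hconv x]
    gcongr
    have h3 : (1 : ℝ≥0∞) ≤ ENNReal.ofReal (1 + |x|) ^ p := by
      apply ENNReal.one_le_rpow _ hp0
      rw [← ENNReal.ofReal_one]
      apply ENNReal.ofReal_le_ofReal
      have := abs_nonneg x
      linarith
    calc W x = 1 * W x := (one_mul _).symm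
      _ ≤ _ := by gcongr
  calc ∫⁻ x, ‖hilbert f x‖ₑ ^ p * ENNReal.ofReal (U x)
      ≤ ∫⁻ x, 2 ^ (p - 1) * (‖hilbert f x‖ₑ ^ p * W x +
          ‖hilbert (fun y => (y - 0) * f y) x‖ₑ ^ p * W x) := by
        refine lintegral_mono (fun x => ?_)
        have h3 : ‖hilbert f x‖ₑ * ENNReal.ofReal (1 + |x|) ≤
            ‖hilbert f x‖ₑ + ‖hilbert (fun y => (y - 0) * f y) x‖ₑ := by
          rw [ENNReal.ofReal_add zero_le_one (abs_nonneg x), ENNReal.ofReal_one, mul_add, mul_one]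
          gcongr
          have := enorm_shift hf hf0 x 0
          rw [mul_comm, ← Real.enorm_eq_ofReal_abs]
          rwa [sub_zero] at this
        calc ‖hilbert f x‖ₑ ^ p * ENNReal.ofReal (U x)
            = (‖hilbert f x‖ₑ * ENNReal.ofReal (1 + |x|)) ^ p * W x := by
              rw [hconv x, ENNReal.mul_rpow_of_nonneg _ _ hp0.le, mul_assoc]
          _ ≤ (‖hilbert f x‖ₑ + ‖hilbert (fun y => (y - 0) * f y) x‖ₑ) ^ p * W x := by gcongr
          _ ≤ (2 ^ (p - 1) * (‖hilbert f x‖ₑ ^ p +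
                ‖hilbert (fun y => (y - 0) * f y) x‖ₑ ^ p)) * W x := by
              gcongr
              exact ENNReal.rpow_add_le_mul_rpow_add_rpow _ _ hp.le
          _ = _ := by ring
    _ = 2 ^ (p - 1) * ((∫⁻ x, ‖hilbert f x‖ₑ ^ p * W x) +
          (∫⁻ x, ‖hilbert (fun y => (y - 0) * f y) x‖ₑ ^ p * W x)) := by
        rw [lintegral_const_mul' _ _ h2p, lintegral_add_left hm]
    _ ≤ 2 ^ (p - 1) * (C * I + C * I) := by
        gcongr
        · exact h2.trans (mul_le_mul' le_rfl hb2)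
        · exact h1.trans (mul_le_mul' le_rfl hb1)
    _ = _ := by ring

/-- from real to complex values -/
theorem adm_complex (hp : 1 < p) {U : ℝ → ℝ} (hU : Measurable U) (h : Admissible ℝ p U) :
    Admissible ℂ p U := by
  have hp0 : 0 < p := by linarith
  obtain ⟨C, hC⟩ := h
  have h2p : (2 : ℝ≥0∞) ^ (p - 1) ≠ ⊤ := ENNReal.rpow_ne_top_of_nonneg (by linarith) (by norm_num)
  have hCC : (2 : ℝ≥0∞) ^ (p - 1) * (C + C) ≠ ⊤ :=
    ENNReal.mul_ne_top h2p (ENNReal.add_ne_top.2 ⟨ENNReal.coe_ne_top, ENNReal.coe_ne_top⟩)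
  refine ⟨((2 : ℝ≥0∞) ^ (p - 1) * (C + C)).toNNReal, fun f hf hf0 => ?_⟩
  rw [ENNReal.coe_toNNReal hCC]
  have hre : Integrable (fun y => (f y).re) := hf.re
  have him : Integrable (fun y => (f y).im) := hf.im
  have hre0 : ∫ y, (f y).re = 0 := by
    have := integral_re hf
    simp only [RCLike.re_to_complex] at this
    rw [this, hf0, Complex.zero_re]
  have him0 : ∫ y, (f y).im = 0 := by
    have := integral_im hf
    simp only [RCLike.im_to_complex] at this
    rw [this, hf0, Complex.zero_im]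
  have hw := integrable_w_of_integrable hf
  have hpt : ∀ x, ‖hilbert f x‖ₑ ≤ ‖hilbert (fun y => (f y).re) x‖ₑ +
      ‖hilbert (fun y => (f y).im) x‖ₑ := by
    intro x
    by_cases hx : ∃ v, HasPV f x v
    · obtain ⟨v, hv⟩ := hx
      have h1 : HasPV (fun y => (f y).re) x v.re := HasPV.clm Complex.reCLM hw hv
      have h2 : HasPV (fun y => (f y).im) x v.im := HasPV.clm Complex.imCLM hw hv
      rw [hilbert_eq h1, hilbert_eq h2, hilbert_eq hv, Real.enorm_eq_ofReal_abs,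
        Real.enorm_eq_ofReal_abs, ← ENNReal.ofReal_add (abs_nonneg _) (abs_nonneg _),
        ← ofReal_norm]
      exact ENNReal.ofReal_le_ofReal (Complex.norm_le_abs_re_add_abs_im v)
    · rw [hilbert_eq_zero hx, enorm_zero]
      exact bot_le
  have hm : Measurable (fun x => ‖hilbert (fun y => (f y).re) x‖ₑ ^ p * ENNReal.ofReal (U x)) :=
    ((sm_hilbert (integrable_w_of_integrable hre)).measurable.enorm.pow_const p).mul
      hU.ennreal_ofReal
  set I := ∫⁻ x, ‖f x‖ₑ ^ p * ENNReal.ofReal (U x) with hI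
  have hb1 : ∫⁻ x, ‖(f x).re‖ₑ ^ p * ENNReal.ofReal (U x) ≤ I := by
    refine lintegral_mono (fun x => ?_)
    gcongr
    rw [← ofReal_norm, ← ofReal_norm]
    exact ENNReal.ofReal_le_ofReal (Complex.abs_re_le_norm _)
  have hb2 : ∫⁻ x, ‖(f x).im‖ₑ ^ p * ENNReal.ofReal (U x) ≤ I := by
    refine lintegral_mono (fun x => ?_)
    gcongr
    rw [← ofReal_norm, ← ofReal_norm]
    exact ENNReal.ofReal_le_ofReal (Complex.abs_im_le_norm _)
  calc ∫⁻ x, ‖hilbert f x‖ₑ ^ p * ENNReal.ofReal (U x)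
      ≤ ∫⁻ x, 2 ^ (p - 1) * (‖hilbert (fun y => (f y).re) x‖ₑ ^ p * ENNReal.ofReal (U x) +
          ‖hilbert (fun y => (f y).im) x‖ₑ ^ p * ENNReal.ofReal (U x)) := by
        refine lintegral_mono (fun x => ?_)
        calc ‖hilbert f x‖ₑ ^ p * ENNReal.ofReal (U x)
            ≤ (‖hilbert (fun y => (f y).re) x‖ₑ + ‖hilbert (fun y => (f y).im) x‖ₑ) ^ p *
                ENNReal.ofReal (U x) := by
              gcongr
              exact hpt x
          _ ≤ (2 ^ (p - 1) * (‖hilbert (fun y => (f y).re) x‖ₑ ^ p +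
                ‖hilbert (fun y => (f y).im) x‖ₑ ^ p)) * ENNReal.ofReal (U x) := by
              gcongr
              exact ENNReal.rpow_add_le_mul_rpow_add_rpow _ _ hp.le
          _ = _ := by ring
    _ = 2 ^ (p - 1) * ((∫⁻ x, ‖hilbert (fun y => (f y).re) x‖ₑ ^ p * ENNReal.ofReal (U x)) +
          (∫⁻ x, ‖hilbert (fun y => (f y).im) x‖ₑ ^ p * ENNReal.ofReal (U x))) := by
        rw [lintegral_const_mul' _ _ h2p, lintegral_add_left hm]
    _ ≤ 2 ^ (p - 1) * (C * I + C * I) := by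
        gcongr
        · exact (hC _ hre hre0).trans (mul_le_mul' le_rfl hb1)
        · exact (hC _ him him0).trans (mul_le_mul' le_rfl hb2)
    _ = _ := by ring

/-- from complex to real values -/
theorem adm_real {U : ℝ → ℝ} (h : Admissible ℂ p U) : Admissible ℝ p U := by
  obtain ⟨C, hC⟩ := h
  refine ⟨C, fun f hf hf0 => ?_⟩
  have hfc : Integrable (fun y => (f y : ℂ)) := hf.ofReal
  have h0 : ∫ y, (f y : ℂ) = 0 := by
    rw [integral_complex_ofReal, hf0, Complex.ofReal_zero]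
  have h1 := hC (fun y => (f y : ℂ)) hfc h0
  have e1 : ∀ x, ‖((f x : ℝ) : ℂ)‖ₑ = ‖f x‖ₑ := by
    intro x
    rw [← ofReal_norm, ← ofReal_norm, Complex.norm_real]
  simp only [e1] at h1
  refine le_trans (lintegral_mono (fun x => ?_)) h1
  by_cases hx : ∃ v, HasPV f x v
  · obtain ⟨v, hv⟩ := hx
    have h2 : HasPV (fun y => (f y : ℂ)) x (v : ℂ) :=
      HasPV.clm Complex.ofRealCLM (integrable_w_of_integrable hf) hv
    rw [hilbert_eq hv, hilbert_eq h2, ← ofReal_norm, ← ofReal_norm, Complex.norm_real]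
  · by_cases hp : 0 ≤ p
    · gcongr
      rw [hilbert_eq_zero hx, enorm_zero]
      exact bot_le
    · have hx2 : ¬ ∃ v, HasPV (fun y => (f y : ℂ)) x v := by
        rintro ⟨v, hv⟩
        have h3 : HasPV (fun y => ((f y : ℂ)).re) x v.re :=
          HasPV.clm Complex.reCLM (integrable_w_of_integrable hfc) hv
        simp only [Complex.ofReal_re] at h3
        exact hx ⟨_, h3⟩
      rw [hilbert_eq_zero hx, hilbert_eq_zero hx2, enorm_zero, enorm_zero]

end Pool.Agent.TH280.MZ
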